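import Pool.Agent.Emb.Sphere

/-!
# J4c: short geodesics do not change the class
-/

namespace Pool.Agent.Emb

open scoped ContDiff Real
open Set Real

/-- J4c. -/
theorem classes : T_classes := by
  intro F W hell hA hB P₁ Q₁ P₂ Q₂ t₁ x₁ p₁ q₁ t₂ x₂ p₂ q₂ g₁ g₂ E₁ E₂ ht0 hp0 hq0 m a b
    hev ht1 hp1 hq1
  have hpi := pi_pos
  have hcos : ∀ t, 1 / 2 ≤ cos (F.psi t) := by
    intro t
    rw [← cos_pi_div_three]
    apply cos_le_cos_of_nonneg_of_le_pi
    · linarith [F.lo t]
    · linarith
    · exact F.hi t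
  have hsin : ∀ t, 1 / 2 ≤ sin (F.psi t) := by
    intro t
    rw [← sin_pi_div_six]
    apply sin_le_sin_of_le_of_le_pi_div_two
    · linarith
    · linarith [F.hi t]
    · exact F.lo t
  have hell0 := F.ell_gt
  rw [← hell] at hell0
  -- two calibrated lengths
  have hdiff : ∀ (φ : ℝ → ℝ) (α β : ℝ), Continuous φ →
      (∀ t, φ t ^ 2 + α ^ 2 / W.A t ^ 2 + β ^ 2 / W.B t ^ 2 ≤ 1) →
      |(∫ u in (t₁ 1)..(t₁ 1 + m * W.ell), φ u) + α * a + β * b| < 1 := by
    intro φ α β hφ hc
    have h1 := calib W φ α β hφ hc P₁ Q₁ t₁ x₁ p₁ q₁ g₁ E₁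
    have h2 := calib W φ α β hφ hc P₂ Q₂ t₂ x₂ p₂ q₂ g₂ E₂
    rw [ht1, hp1, hq1, ← ht0, ← hp0, ← hq0] at h2
    have h3 : (∫ u in (t₁ 0)..(t₁ 1), φ u) + (∫ u in (t₁ 1)..(t₁ 1 + m * W.ell), φ u)
        = ∫ u in (t₁ 0)..(t₁ 1 + m * W.ell), φ u :=
      intervalIntegral.integral_add_adjacent_intervals (hφ.intervalIntegrable _ _)
        (hφ.intervalIntegrable _ _)
    rw [← h3] at h2
    rw [abs_lt] at h1 h2 ⊢
    constructor
    · linarith [h1.1, h1.2, h2.1, h2.2]
    · linarith [h1.1, h1.2, h2.1, h2.2]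
  -- `|m| ≤ 1`
  have hm : |m| ≤ 1 := by
    have h := hdiff (fun _ => 1) 0 0 continuous_const (by intro t; norm_num)
    rw [intervalIntegral.integral_const] at h
    have h1 : |(m : ℝ)| * W.ell < 1 := by
      have e : (t₁ 1 + m * W.ell - t₁ 1) • (1 : ℝ) + 0 * (a : ℝ) + 0 * (b : ℝ) = m * W.ell := by
        simp
      rw [e, abs_mul, abs_of_pos W.ell_pos] at h
      exact h
    have h2 : |(m : ℝ)| < 2 := by
      have := abs_nonneg (m : ℝ)
      nlinarith
    have h3 : |m| < 2 := by exact_mod_cast h2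
    omega
  have ha : |a| ≤ 1 := by
    have h := hdiff (fun _ => 0) (1 / 2) 0 continuous_const (by
      intro t
      rw [hA]
      have h1 := hcos t
      have h2 : (1 / 2 : ℝ) ^ 2 / cos (F.psi t) ^ 2 ≤ 1 := by
        rw [div_le_one (by positivity)]
        exact pow_le_pow_left₀ (by norm_num) h1 2
      simpa using h2)
    simp only [intervalIntegral.integral_zero, zero_add, zero_mul, add_zero, abs_mul] at h
    have h2 : |(a : ℝ)| < 2 := by
      rw [abs_of_pos (by norm_num : (0 : ℝ) < 1 / 2)] at h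
      linarith
    have h3 : |a| < 2 := by exact_mod_cast h2
    omega
  have hb : |b| ≤ 1 := by
    have h := hdiff (fun _ => 0) 0 (1 / 2) continuous_const (by
      intro t
      rw [hB]
      have h1 := hsin t
      have h2 : (1 / 2 : ℝ) ^ 2 / sin (F.psi t) ^ 2 ≤ 1 := by
        rw [div_le_one (by positivity)]
        exact pow_le_pow_left₀ (by norm_num) h1 2
      simpa using h2)
    simp only [intervalIntegral.integral_zero, zero_add, zero_mul, add_zero, abs_mul] at h
    have h2 : |(b : ℝ)| < 2 := by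
      rw [abs_of_pos (by norm_num : (0 : ℝ) < 1 / 2)] at h
      linarith
    have h3 : |b| < 2 := by exact_mod_cast h2
    omega
  have hα := F.alpha_lt
  have hα0 := F.alpha_pos
  have hpsi : Continuous F.psi := F.smooth.continuous
  -- the integral of a periodic function over `[t₁ 1, t₁ 1 + m ell]`, `m = ±1`
  have hper : ∀ (f : ℝ → ℝ), Continuous f → (∀ t, f (t + F.ell) = f t) →
      ∀ ε : ℤ, (m = 1 ∨ m = -1) → ε = m →
      (∫ u in (t₁ 1)..(t₁ 1 + m * W.ell), (m : ℝ) * f u) = ∫ u in (0 : ℝ)..F.ell, f u := by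
    intro f hf hfp ε hm1 _
    have hP : Function.Periodic f F.ell := hfp
    rcases hm1 with rfl | rfl
    · rw [hell]
      have := hP.intervalIntegral_add_eq (t₁ 1) 0
      simp only [Int.cast_one, one_mul, zero_add] at this ⊢
      exact this
    · rw [hell]
      have := hP.intervalIntegral_add_eq (t₁ 1 - F.ell) 0
      simp only [sub_add_cancel, zero_add] at this
      rw [intervalIntegral.integral_symm]
      simp only [Int.cast_neg, Int.cast_one, neg_mul, one_mul, intervalIntegral.integral_neg,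
        neg_neg]
      rw [← sub_eq_add_neg]
      exact this
  -- `m = 0`
  have hm0 : m = 0 := by
    by_contra hne
    have hm1 : m = 1 ∨ m = -1 := by
      rw [abs_le] at hm
      omega
    have hmm : ((m : ℝ)) ^ 2 = 1 := by
      rcases hm1 with rfl | rfl <;> norm_num
    have hab : (a = 1 ∨ a = -1) ∨ (b = 1 ∨ b = -1) := by
      rw [abs_le] at ha hb
      rcases hm1 with rfl | rfl
      · by_contra h
        push Not at h
        have h1 : a = 0 := by omega
        have h2 : b = 0 := by omega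
        subst h1 h2
        revert hev
        decide
      · by_contra h
        push Not at h
        have h1 : a = 0 := by omega
        have h2 : b = 0 := by omega
        subst h1 h2
        revert hev
        decide
    rcases hab with h1 | h1
    · have haa : ((a : ℝ)) ^ 2 = 1 := by
        rcases h1 with rfl | rfl <;> norm_num
      have hrad : ∀ t, F.alpha ^ 2 / cos (F.psi t) ^ 2 ≤ 1 := by
        intro t
        have h1 := hcos t
        rw [div_le_one (by positivity)]
        exact pow_le_pow_left₀ hα0.le (by linarith) 2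
      have h := hdiff (fun u => (m : ℝ) * √(1 - F.alpha ^ 2 / cos (F.psi u) ^ 2))
        (a * F.alpha) 0
        (continuous_const.mul (Real.continuous_sqrt.comp (continuous_const.sub
          (continuous_const.div ((continuous_cos.comp hpsi).pow 2)
            (fun t => (pow_pos (lt_of_lt_of_le (by norm_num) (hcos t)) 2).ne'))))) (by
        intro t
        rw [hA, mul_pow, hmm, Real.sq_sqrt (by linarith [hrad t]), mul_pow, haa]
        norm_num)
      rw [hper (fun u => √(1 - F.alpha ^ 2 / cos (F.psi u) ^ 2))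
        (Real.continuous_sqrt.comp (continuous_const.sub
          (continuous_const.div ((continuous_cos.comp hpsi).pow 2)
            (fun t => (pow_pos (lt_of_lt_of_le (by norm_num) (hcos t)) 2).ne'))))
        (fun t => by rw [F.per]) m hm1 rfl] at h
      have h2 := F.lamA
      have h3 := (abs_lt.1 h).2
      have h4 : (a : ℝ) * F.alpha * a = F.alpha := by nlinarith
      linarith
    · have hbb : ((b : ℝ)) ^ 2 = 1 := by
        rcases h1 with rfl | rfl <;> norm_num
      have hrad : ∀ t, F.alpha ^ 2 / sin (F.psi t) ^ 2 ≤ 1 := by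
        intro t
        have h1 := hsin t
        rw [div_le_one (by positivity)]
        exact pow_le_pow_left₀ hα0.le (by linarith) 2
      have h := hdiff (fun u => (m : ℝ) * √(1 - F.alpha ^ 2 / sin (F.psi u) ^ 2))
        0 (b * F.alpha)
        (continuous_const.mul (Real.continuous_sqrt.comp (continuous_const.sub
          (continuous_const.div ((continuous_sin.comp hpsi).pow 2)
            (fun t => (pow_pos (lt_of_lt_of_le (by norm_num) (hsin t)) 2).ne'))))) (by
        intro t
        rw [hB, mul_pow, hmm, Real.sq_sqrt (by linarith [hrad t]), mul_pow, hbb]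
        norm_num)
      rw [hper (fun u => √(1 - F.alpha ^ 2 / sin (F.psi u) ^ 2))
        (Real.continuous_sqrt.comp (continuous_const.sub
          (continuous_const.div ((continuous_sin.comp hpsi).pow 2)
            (fun t => (pow_pos (lt_of_lt_of_le (by norm_num) (hsin t)) 2).ne'))))
        (fun t => by rw [F.per]) m hm1 rfl] at h
      have h2 := F.lamB
      have h3 := (abs_lt.1 h).2
      have h4 : (b : ℝ) * F.alpha * b = F.alpha := by nlinarith
      linarith
  subst hm0
  refine ⟨rfl, ?_⟩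
  by_contra hne
  -- now `a, b` are both odd
  have hodd : (a = 1 ∨ a = -1) ∧ (b = 1 ∨ b = -1) := by
    rw [abs_le] at ha hb
    rw [zero_add] at hev
    obtain ⟨r, hr⟩ := hev
    constructor <;> omega
  -- positivity of the inner products
  have hpos : ∀ (P Q : ℝ) (t x p q : ℝ → ℝ), W.IsGeo P Q t x p q →
      W.nrg (t 0) (x 0) P Q < 1 / 4 →
      0 < cos (F.psi (t 0)) * cos (F.psi (t 1)) * cos (π * (p 1 - p 0))
        + sin (F.psi (t 0)) * sin (F.psi (t 1)) * cos (π * (q 1 - q 0)) := by
    intro P Q t x p q g hE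
    have hE0 : 0 ≤ W.nrg (t 0) (x 0) P Q := by
      rw [Warp.nrg]
      positivity
    have hr : √(W.nrg (t 0) (x 0) P Q) < 1 / 2 := by
      rw [show (1 / 2 : ℝ) = √(1 / 4) by
        rw [show (1 / 4 : ℝ) = (1 / 2) ^ 2 by norm_num, Real.sqrt_sq (by norm_num)]]
      exact Real.sqrt_lt_sqrt hE0 hE
    refine sphere F.psi (F.smooth.differentiable (by simp)) F.slope t p q x _ _
      (√(W.nrg (t 0) (x 0) P Q)) (Real.sqrt_nonneg _) hr g.ht g.hp g.hq ?_
    intro s
    rw [Real.sq_sqrt hE0, ← nrg_const W P Q t x p q g s, Warp.nrg, ← hA, ← hB]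
    have hA0 : W.A (t s) ≠ 0 := (W.A_pos _).ne'
    have hB0 : W.B (t s) ≠ 0 := (W.B_pos _).ne'
    apply le_of_eq
    field_simp
  have h1 := hpos P₁ Q₁ t₁ x₁ p₁ q₁ g₁ E₁
  have h2 := hpos P₂ Q₂ t₂ x₂ p₂ q₂ g₂ E₂
  rw [hp1, hq1, ← hp0, ← hq0, ← ht0, ht1] at h2
  have hcp : cos (π * (p₁ 1 + a - p₁ 0)) = -cos (π * (p₁ 1 - p₁ 0)) := by
    rcases hodd.1 with h | h
    · rw [h, show π * (p₁ 1 + ((1 : ℤ) : ℝ) - p₁ 0) = π * (p₁ 1 - p₁ 0) + π by push_cast; ring,
        cos_add_pi]
    · rw [h, show π * (p₁ 1 + ((-1 : ℤ) : ℝ) - p₁ 0) = π * (p₁ 1 - p₁ 0) - π by push_cast; ring,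
        cos_sub_pi]
  have hcq : cos (π * (q₁ 1 + b - q₁ 0)) = -cos (π * (q₁ 1 - q₁ 0)) := by
    rcases hodd.2 with h | h
    · rw [h, show π * (q₁ 1 + ((1 : ℤ) : ℝ) - q₁ 0) = π * (q₁ 1 - q₁ 0) + π by push_cast; ring,
        cos_add_pi]
    · rw [h, show π * (q₁ 1 + ((-1 : ℤ) : ℝ) - q₁ 0) = π * (q₁ 1 - q₁ 0) - π by push_cast; ring,
        cos_sub_pi]
  rw [hcp, hcq] at h2
  simp only [Int.cast_zero, zero_mul, add_zero] at h2
  linarith

end Pool.Agent.Emb
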