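import Mathlib

/-!
# Riemannian metrics on the 3-torus: volume, geodesics, injectivity radius
-/

namespace Pool.Agent.Emb

open scoped ContDiff

/-- The universal cover `ℝ³` of the torus `T³ = ℝ³/ℤ³`. -/
abbrev V := Fin 3 → ℝ

/-- A smooth Riemannian metric on `T³ = ℝ³/ℤ³`: a smooth `ℤ³`-periodic field of symmetric
positive definite matrices on `ℝ³`. -/
structure Metric where
  g : V → Matrix (Fin 3) (Fin 3) ℝ
  smooth : ∀ i j, ContDiff ℝ ∞ fun x => g x i j
  posDef : ∀ x, (g x).PosDef
  periodic : ∀ (x : V) (n : Fin 3 → ℤ), g (fun i => x i + n i) = g x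

namespace Metric

/-- The square of the length of the tangent vector `v` at `x`. -/
noncomputable def normSq (m : Metric) (x v : V) : ℝ := ∑ j, ∑ k, m.g x j k * v j * v k

/-- The volume of `(T³, m)`. -/
noncomputable def vol (m : Metric) : ℝ :=
  ∫ a in (0 : ℝ)..1, ∫ b in (0 : ℝ)..1, ∫ c in (0 : ℝ)..1, √(m.g ![a, b, c]).det

/-- `c : ℝ → ℝ³` is (a lift of) a geodesic of `m`: the Euler–Lagrange equations
`d/ds (∑ⱼ g_ij c_j') = 1/2 ∑_jk (∂_i g_jk) c_j' c_k'`. -/
structure IsGeodesic (m : Metric) (c : ℝ → V) : Prop where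
  smooth : ContDiff ℝ ∞ c
  eq : ∀ (s : ℝ) (i : Fin 3), deriv (fun u => ∑ j, m.g (c u) i j * deriv c u j) s =
    1 / 2 * ∑ j, ∑ k, fderiv ℝ (fun x => m.g x j k) (c s) (Pi.single i 1) *
      deriv c s j * deriv c s k

/-- The exponential map of `(T³, m)` is injective on the open ball of radius `r` in every tangent
space: two geodesics with the same start, with speeds less than `r`, whose values at the time `1`
are the same point of `T³`, have the same initial velocity. -/
def ExpInjective (m : Metric) (r : ℝ) : Prop :=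
  ∀ c d : ℝ → V, m.IsGeodesic c → m.IsGeodesic d → c 0 = d 0 →
    √(m.normSq (c 0) (deriv c 0)) < r → √(m.normSq (d 0) (deriv d 0)) < r →
    (∃ n : Fin 3 → ℤ, ∀ i, c 1 i = d 1 i + n i) → deriv c 0 = deriv d 0

/-- The injectivity radius of `(T³, m)`. -/
noncomputable def inj (m : Metric) : ℝ := sSup {r : ℝ | m.ExpInjective r}

/-- `m` has constant coefficients (every flat metric on `T³` is isometric to such a metric). -/
def IsFlat (m : Metric) : Prop := ∀ x y, m.g x = m.g y

end Metric

end Pool.Agent.Emb
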