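import Pool.Agent.Emb.Targets

/-!
# J7: Gauss' bound for the minimum of a positive definite ternary form

Selling's reduction (an obtuse superbase) and a Handelman certificate.
-/

namespace Pool.Agent.Emb

open Set

/-- The inequality for the six Selling parameters. -/
theorem gauss_cert (a b c d e f m : ℝ) (ha : 0 ≤ a) (hb : 0 ≤ b) (hc : 0 ≤ c) (hd : 0 ≤ d)
    (he : 0 ≤ e) (hf : 0 ≤ f) (hm : 0 ≤ m) (h0 : 0 ≤ a + b + c - m) (h1 : 0 ≤ a + d + e - m)
    (h2 : 0 ≤ b + d + f - m) (h3 : 0 ≤ c + e + f - m) (t1 : 0 ≤ b + c + d + e - m)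
    (t2 : 0 ≤ a + c + d + f - m) (t3 : 0 ≤ a + b + e + f - m) :
    m ^ 3 ≤ 2 * ((a + d + e) * (b + d + f) * (c + e + f) - 2 * d * e * f
      - (a + d + e) * f ^ 2 - (b + d + f) * e ^ 2 - (c + e + f) * d ^ 2) := by
  have k1 := mul_nonneg (mul_nonneg ha hb) h3
  have k2 := mul_nonneg (mul_nonneg ha hc) h2
  have k3 := mul_nonneg (mul_nonneg ha hd) h3
  have k4 := mul_nonneg (mul_nonneg ha he) h2
  have k5 := mul_nonneg (mul_nonneg ha hf) t1
  have k6 := mul_nonneg (mul_nonneg ha hm) h2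
  have k7 := mul_nonneg (mul_nonneg ha hm) h3
  have k8 := mul_nonneg (mul_nonneg hb hc) h1
  have k9 := mul_nonneg (mul_nonneg hb hd) h3
  have k10 := mul_nonneg (mul_nonneg hb he) t2
  have k11 := mul_nonneg (mul_nonneg hb hf) h1
  have k12 := mul_nonneg (mul_nonneg hb hm) t2
  have k13 := mul_nonneg (mul_nonneg hc hd) t3
  have k14 := mul_nonneg (mul_nonneg hc he) h2
  have k15 := mul_nonneg (mul_nonneg hc hf) h1
  have k16 := mul_nonneg (mul_nonneg hc hm) h1
  have k17 := mul_nonneg (mul_nonneg hc hm) h2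
  have k18 := mul_nonneg (mul_nonneg hd he) h0
  have k19 := mul_nonneg (mul_nonneg hd hf) h0
  have k20 := mul_nonneg (mul_nonneg hd hm) t3
  have k21 := mul_nonneg (mul_nonneg he hf) h0
  have k22 := mul_nonneg (mul_nonneg he hm) h0
  have k23 := mul_nonneg (mul_nonneg he hm) h2
  have k24 := mul_nonneg (mul_nonneg hf hm) t1
  have k25 := mul_nonneg (mul_nonneg hm hm) h0
  have k26 := mul_nonneg (mul_nonneg hm hm) h1
  have k27 := mul_nonneg (mul_nonneg hm hm) h3
  linarith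

/-- The bilinear form with matrix `G`. -/
noncomputable def bil (G : Matrix (Fin 3) (Fin 3) ℝ) (x y : Fin 3 → ℤ) : ℝ :=
  ∑ i, ∑ j, G i j * x i * y j

/-- The determinant of three integer vectors. -/
def dt (u v w : Fin 3 → ℤ) : ℤ :=
  u 0 * (v 1 * w 2 - v 2 * w 1) - u 1 * (v 0 * w 2 - v 2 * w 0)
    + u 2 * (v 0 * w 1 - v 1 * w 0)

/-- A positive definite form is bounded below by a multiple of the square of the norm. -/
theorem coercive (G : Matrix (Fin 3) (Fin 3) ℝ) (hG : G.PosDef) :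
    ∃ c : ℝ, 0 < c ∧ ∀ x : Fin 3 → ℝ, c * ‖x‖ ^ 2 ≤ ∑ i, ∑ j, G i j * x i * x j := by
  have hpos : ∀ x : Fin 3 → ℝ, x ≠ 0 → 0 < ∑ i, ∑ j, G i j * x i * x j := by
    intro x hx
    have h := hG.dotProduct_mulVec_pos hx
    have e : star x ⬝ᵥ (G.mulVec x) = ∑ i, ∑ j, G i j * x i * x j := by
      simp only [dotProduct, Matrix.mulVec, Finset.mul_sum]
      refine Finset.sum_congr rfl fun i _ => Finset.sum_congr rfl fun j _ => ?_
      simp only [Pi.star_apply, star_trivial]
      ring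
    rwa [e] at h
  have hcont : Continuous fun x : Fin 3 → ℝ => ∑ i, ∑ j, G i j * x i * x j := by fun_prop
  obtain ⟨x₀, hx₀, hmin⟩ := (isCompact_sphere (0 : Fin 3 → ℝ) 1).exists_isMinOn
    (by
      refine ⟨fun _ => 1, ?_⟩
      rw [mem_sphere_zero_iff_norm]
      simp) hcont.continuousOn
  have hx₀' : ‖x₀‖ = 1 := by simpa using hx₀
  have hx₀0 : x₀ ≠ 0 := by
    intro h
    rw [h, norm_zero] at hx₀'
    norm_num at hx₀'
  refine ⟨∑ i, ∑ j, G i j * x₀ i * x₀ j, hpos x₀ hx₀0, fun x => ?_⟩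
  by_cases hx : x = 0
  · subst hx
    simp
  · have hn : 0 < ‖x‖ := norm_pos_iff.2 hx
    have h1 : (‖x‖⁻¹ • x) ∈ Metric.sphere (0 : Fin 3 → ℝ) 1 := by
      rw [mem_sphere_zero_iff_norm, norm_smul, norm_inv, norm_norm, inv_mul_cancel₀ hn.ne']
    have h2 := hmin h1
    simp only [mem_ofPred_eq] at h2
    have h3 : ∑ i, ∑ j, G i j * (‖x‖⁻¹ • x) i * (‖x‖⁻¹ • x) j
        = (‖x‖⁻¹) ^ 2 * ∑ i, ∑ j, G i j * x i * x j := by
      simp only [Finset.mul_sum, Pi.smul_apply, smul_eq_mul]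
      refine Finset.sum_congr rfl fun i _ => Finset.sum_congr rfl fun j _ => ?_
      ring
    rw [h3] at h2
    calc _ ≤ ((‖x‖⁻¹) ^ 2 * ∑ i, ∑ j, G i j * x i * x j) * ‖x‖ ^ 2 :=
          mul_le_mul_of_nonneg_right h2 (sq_nonneg _)
      _ = _ := by field_simp

/-- Finitely many integer vectors have bounded length. -/
theorem finite_short (G : Matrix (Fin 3) (Fin 3) ℝ) (hG : G.PosDef) (C : ℝ) :
    {x : Fin 3 → ℤ | bil G x x ≤ C}.Finite := by
  obtain ⟨c, hc, h⟩ := coercive G hG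
  set R : ℝ := √(C / c) with hR
  have hsub : {x : Fin 3 → ℤ | bil G x x ≤ C} ⊆
      Icc (fun _ => -⌈R⌉) (fun _ => ⌈R⌉) := by
    intro x hx
    have h1 := h (fun i => (x i : ℝ))
    have h2 : c * ‖(fun i => (x i : ℝ) : Fin 3 → ℝ)‖ ^ 2 ≤ C := h1.trans hx
    have h3 : ‖(fun i => (x i : ℝ) : Fin 3 → ℝ)‖ ^ 2 ≤ C / c := by
      rw [le_div_iff₀ hc]
      linarith
    have h4 : ‖(fun i => (x i : ℝ) : Fin 3 → ℝ)‖ ≤ R := Real.le_sqrt_of_sq_le h3
    have h5 : ∀ i, |(x i : ℝ)| ≤ ⌈R⌉ := by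
      intro i
      have := norm_le_pi_norm (fun i => (x i : ℝ) : Fin 3 → ℝ) i
      rw [Real.norm_eq_abs] at this
      exact (this.trans h4).trans (Int.le_ceil R)
    refine ⟨fun i => ?_, fun i => ?_⟩
    · have := (abs_le.1 (h5 i)).1
      exact_mod_cast this
    · have := (abs_le.1 (h5 i)).2
      exact_mod_cast this
  exact (Set.finite_Icc _ _).subset hsub

/-- The sum of the squares of the lengths of a superbase. -/
noncomputable def superSum (G : Matrix (Fin 3) (Fin 3) ℝ)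
    (t : (Fin 3 → ℤ) × (Fin 3 → ℤ) × (Fin 3 → ℤ)) : ℝ :=
  bil G t.1 t.1 + bil G t.2.1 t.2.1 + bil G t.2.2 t.2.2
    + bil G (t.1 + t.2.1 + t.2.2) (t.1 + t.2.1 + t.2.2)

theorem bil_nonneg (G : Matrix (Fin 3) (Fin 3) ℝ) (hG : G.PosDef) (x : Fin 3 → ℤ) :
    0 ≤ bil G x x := by
  obtain ⟨c, hc, h⟩ := coercive G hG
  have h1 := h (fun i => (x i : ℝ))
  exact (by positivity : (0 : ℝ) ≤ c * ‖(fun i => (x i : ℝ) : Fin 3 → ℝ)‖ ^ 2).trans h1

/-- A minimal superbase. -/
theorem exists_min (G : Matrix (Fin 3) (Fin 3) ℝ) (hG : G.PosDef) :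
    ∃ u v w : Fin 3 → ℤ, dt u v w ^ 2 = 1 ∧ ∀ u' v' w' : Fin 3 → ℤ, dt u' v' w' ^ 2 = 1 →
      superSum G (u, v, w) ≤ superSum G (u', v', w') := by
  set C := superSum G (![1, 0, 0], ![0, 1, 0], ![0, 0, 1]) with hC
  set S : Set ((Fin 3 → ℤ) × (Fin 3 → ℤ) × (Fin 3 → ℤ)) :=
    {t | dt t.1 t.2.1 t.2.2 ^ 2 = 1 ∧ superSum G t ≤ C} with hS
  have hfin : S.Finite := by
    refine ((finite_short G hG C).prod ((finite_short G hG C).prod
      (finite_short G hG C))).subset ?_
    rintro ⟨u, v, w⟩ ⟨-, h⟩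
    simp only [superSum] at h
    have h1 := bil_nonneg G hG u
    have h2 := bil_nonneg G hG v
    have h3 := bil_nonneg G hG w
    have h4 := bil_nonneg G hG (u + v + w)
    refine ⟨?_, ?_, ?_⟩
    · simp only [mem_ofPred_eq]
      linarith
    · simp only [mem_ofPred_eq]
      linarith
    · simp only [mem_ofPred_eq]
      linarith
  have hne : S.Nonempty := ⟨(![1, 0, 0], ![0, 1, 0], ![0, 0, 1]), by simp [dt], le_refl _⟩
  obtain ⟨⟨u, v, w⟩, ⟨h1, h2⟩, h3⟩ := Set.exists_min_image S (superSum G) hfin hne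
  refine ⟨u, v, w, h1, fun u' v' w' h' => ?_⟩
  by_cases h4 : superSum G (u', v', w') ≤ C
  · exact h3 _ ⟨h', h4⟩
  · exact h2.trans (not_le.1 h4).le

theorem bil_eq (G : Matrix (Fin 3) (Fin 3) ℝ) (x y : Fin 3 → ℤ) :
    bil G x y = G 0 0 * x 0 * y 0 + G 0 1 * x 0 * y 1 + G 0 2 * x 0 * y 2
      + (G 1 0 * x 1 * y 0 + G 1 1 * x 1 * y 1 + G 1 2 * x 1 * y 2)
      + (G 2 0 * x 2 * y 0 + G 2 1 * x 2 * y 1 + G 2 2 * x 2 * y 2) := by
  simp only [bil, Fin.sum_univ_three]

theorem bil_add_left (G : Matrix (Fin 3) (Fin 3) ℝ) (x y z : Fin 3 → ℤ) :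
    bil G (x + y) z = bil G x z + bil G y z := by
  simp only [bil_eq, Pi.add_apply, Int.cast_add]
  ring

theorem bil_add_right (G : Matrix (Fin 3) (Fin 3) ℝ) (x y z : Fin 3 → ℤ) :
    bil G x (y + z) = bil G x y + bil G x z := by
  simp only [bil_eq, Pi.add_apply, Int.cast_add]
  ring

theorem bil_neg_left (G : Matrix (Fin 3) (Fin 3) ℝ) (x y : Fin 3 → ℤ) :
    bil G (-x) y = -bil G x y := by
  simp only [bil_eq, Pi.neg_apply, Int.cast_neg]
  ring

theorem bil_neg_right (G : Matrix (Fin 3) (Fin 3) ℝ) (x y : Fin 3 → ℤ) :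
    bil G x (-y) = -bil G x y := by
  simp only [bil_eq, Pi.neg_apply, Int.cast_neg]
  ring

theorem bil_comm (G : Matrix (Fin 3) (Fin 3) ℝ) (hG : G.PosDef) (x y : Fin 3 → ℤ) :
    bil G x y = bil G y x := by
  have h : ∀ i j, G i j = G j i := fun i j => by
    have := hG.isHermitian.apply j i
    simpa using this
  simp only [bil_eq]
  rw [h 1 0, h 2 0, h 2 1]
  ring

/-- Gram's determinant. -/
theorem gram_det (G : Matrix (Fin 3) (Fin 3) ℝ) (hG : G.PosDef) (u v w : Fin 3 → ℤ) :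
    bil G u u * bil G v v * bil G w w + 2 * bil G u v * bil G u w * bil G v w
      - bil G u u * bil G v w ^ 2 - bil G v v * bil G u w ^ 2 - bil G w w * bil G u v ^ 2
      = (dt u v w : ℝ) ^ 2 * G.det := by
  have h : ∀ i j, G i j = G j i := fun i j => by
    have := hG.isHermitian.apply j i
    simpa using this
  rw [Matrix.det_fin_three]
  simp only [bil_eq, dt]
  rw [h 1 0, h 2 0, h 2 1]
  push_cast
  ring

/-- J7. -/
theorem gauss : T_gauss := by
  intro G hG μ hμ hmin
  obtain ⟨u, v, w, hdet, hu⟩ := exists_min G hG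
  have hq : ∀ x : Fin 3 → ℤ, x ≠ 0 → μ ≤ bil G x x := fun x hx => hmin x hx
  -- the parameters
  set d := -bil G u v with hd
  set e := -bil G u w with he
  set f := -bil G v w with hf
  have sv := bil_comm G hG
  have hd0 : 0 ≤ d := by
    have h := hu (-u) v (w + u) (by rw [← hdet]; simp only [dt, Pi.neg_apply, Pi.add_apply]; ring)
    simp only [superSum, bil_add_left, bil_add_right, bil_neg_left, bil_neg_right] at h
    rw [sv v u, sv w u, sv w v] at h
    linarith
  have he0 : 0 ≤ e := by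
    have h := hu (-u) (v + u) w (by rw [← hdet]; simp only [dt, Pi.neg_apply, Pi.add_apply]; ring)
    simp only [superSum, bil_add_left, bil_add_right, bil_neg_left, bil_neg_right] at h
    rw [sv v u, sv w u, sv w v] at h
    linarith
  have hf0 : 0 ≤ f := by
    have h := hu (u + v) (-v) w (by rw [← hdet]; simp only [dt, Pi.neg_apply, Pi.add_apply]; ring)
    simp only [superSum, bil_add_left, bil_add_right, bil_neg_left, bil_neg_right] at h
    rw [sv v u, sv w u, sv w v] at h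
    linarith
  have ha0 : 0 ≤ bil G u u - d - e := by
    have h := hu (-u) (v + u) (w + u)
      (by rw [← hdet]; simp only [dt, Pi.neg_apply, Pi.add_apply]; ring)
    simp only [superSum, bil_add_left, bil_add_right, bil_neg_left, bil_neg_right] at h
    rw [sv v u, sv w u, sv w v] at h
    linarith
  have hb0 : 0 ≤ bil G v v - d - f := by
    have h := hu (u + v) (-v) (w + v)
      (by rw [← hdet]; simp only [dt, Pi.neg_apply, Pi.add_apply]; ring)
    simp only [superSum, bil_add_left, bil_add_right, bil_neg_left, bil_neg_right] at h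
    rw [sv v u, sv w u, sv w v] at h
    linarith
  have hc0 : 0 ≤ bil G w w - e - f := by
    have h := hu (u + w) (v + w) (-w)
      (by rw [← hdet]; simp only [dt, Pi.neg_apply, Pi.add_apply]; ring)
    simp only [superSum, bil_add_left, bil_add_right, bil_neg_left, bil_neg_right] at h
    rw [sv v u, sv w u, sv w v] at h
    linarith
  -- the seven vectors
  have hne : ∀ x : Fin 3 → ℤ, (x = 0 → dt u v w = 0) → μ ≤ bil G x x := by
    intro x hx
    apply hq
    intro h0
    rw [hx h0] at hdet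
    norm_num at hdet
  have c1 : μ ≤ bil G u u := hne u (by
    intro h
    simp [dt, h])
  have c2 : μ ≤ bil G v v := hne v (by
    intro h
    simp [dt, h])
  have c3 : μ ≤ bil G w w := hne w (by
    intro h
    simp [dt, h])
  have c4 : μ ≤ bil G (u + v) (u + v) := hne _ (by
    intro h
    have h' : v = -u := eq_neg_of_add_eq_zero_right h
    rw [h']
    simp only [dt, Pi.neg_apply]
    ring)
  have c5 : μ ≤ bil G (u + w) (u + w) := hne _ (by
    intro h
    have h' : w = -u := eq_neg_of_add_eq_zero_right h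
    rw [h']
    simp only [dt, Pi.neg_apply]
    ring)
  have c6 : μ ≤ bil G (v + w) (v + w) := hne _ (by
    intro h
    have h' : w = -v := eq_neg_of_add_eq_zero_right h
    rw [h']
    simp only [dt, Pi.neg_apply]
    ring)
  have c7 : μ ≤ bil G (u + v + w) (u + v + w) := hne _ (by
    intro h
    have h' : w = -(u + v) := eq_neg_of_add_eq_zero_right h
    rw [h']
    simp only [dt, Pi.neg_apply, Pi.add_apply]
    ring)
  simp only [bil_add_left, bil_add_right] at c4 c5 c6 c7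
  rw [sv v u] at c4
  rw [sv w u] at c5
  rw [sv w v] at c6
  rw [sv v u, sv w u, sv w v] at c7
  have hg := gram_det G hG u v w
  have hdet' : ((dt u v w : ℤ) : ℝ) ^ 2 = 1 := by exact_mod_cast hdet
  rw [hdet', one_mul] at hg
  have hcert := gauss_cert (bil G u u - d - e) (bil G v v - d - f) (bil G w w - e - f) d e f μ
    ha0 hb0 hc0 hd0 he0 hf0 hμ (by linarith) (by linarith) (by linarith) (by linarith)
    (by linarith) (by linarith) (by linarith)
  rw [← hg]
  calc μ ^ 3 ≤ _ := hcert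
    _ = _ := by
      simp only [hd, he, hf]
      ring

end Pool.Agent.Emb
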