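import Pool.Agent.Emb.Targets

/-!
# J0: conservation of the speed and uniqueness of geodesics of a doubly warped metric
-/

namespace Pool.Agent.Emb

open scoped ContDiff Real NNReal
open Set Real

namespace J0_

theorem diffA (W : Warp) : Differentiable ℝ W.A := W.A_smooth.differentiable (by simp)
theorem diffB (W : Warp) : Differentiable ℝ W.B := W.B_smooth.differentiable (by simp)

theorem deriv_per {f : ℝ → ℝ} {c : ℝ} (h : ∀ t, f (t + c) = f t) (t : ℝ) :
    deriv f (t + c) = deriv f t := by
  have h1 : (fun s => f (s + c)) = f := funext h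
  rw [← deriv_comp_add_const, h1]

/-- derivative of `c² / a(t(s))²` -/
theorem hasDeriv_term {a t x : ℝ → ℝ} {c s : ℝ} (ha : Differentiable ℝ a) (hpos : ∀ u, 0 < a u)
    (ht : HasDerivAt t (x s) s) :
    HasDerivAt (fun s => c ^ 2 / a (t s) ^ 2)
      (-(2 * x s * (c ^ 2 * deriv a (t s) / a (t s) ^ 3))) s := by
  have h1 : HasDerivAt (fun s => a (t s)) (deriv a (t s) * x s) s :=
    (ha (t s)).hasDerivAt.comp s ht
  have h2 := (h1.pow 2)
  have hne : a (t s) ≠ 0 := (hpos _).ne'
  have h3 := (hasDerivAt_const s (c ^ 2)).div h2 (pow_ne_zero 2 hne)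
  refine h3.congr_deriv ?_
  simp only [Pi.pow_apply]
  field_simp
  ring

end J0_

open J0_

/-- J0a. -/
theorem j0a : T_nrg := by
  intro W P Q t x p q hg s
  have hder : ∀ s, HasDerivAt (fun s => W.nrg (t s) (x s) P Q) 0 s := by
    intro s
    have h1 := (hg.hx s).pow 2
    have h2 := hasDeriv_term (c := P) (diffA W) W.A_pos (hg.ht s)
    have h3 := hasDeriv_term (c := Q) (diffB W) W.B_pos (hg.ht s)
    have h4 := (h1.add h2).add h3
    refine h4.congr_deriv ?_
    unfold Warp.force
    ring
  have hd : Differentiable ℝ (fun s => W.nrg (t s) (x s) P Q) :=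
    fun s => (hder s).differentiableAt
  exact is_const_of_deriv_eq_zero hd (fun s => (hder s).deriv) s 0

namespace J0_

theorem contDiff_force (W : Warp) (P Q : ℝ) : ContDiff ℝ 1 (W.force P Q) := by
  have hA : ContDiff ℝ 1 W.A := W.A_smooth.of_le (by norm_cast)
  have hB : ContDiff ℝ 1 W.B := W.B_smooth.of_le (by norm_cast)
  have hA2 : ContDiff ℝ 2 W.A := W.A_smooth.of_le (by norm_cast)
  have hB2 : ContDiff ℝ 2 W.B := W.B_smooth.of_le (by norm_cast)
  have hA' : ContDiff ℝ 1 (deriv W.A) := by
    have h := (contDiff_succ_iff_deriv (n := 1) (f := W.A)).mp (by norm_num; exact hA2)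
    exact h.2.2
  have hB' : ContDiff ℝ 1 (deriv W.B) := by
    have h := (contDiff_succ_iff_deriv (n := 1) (f := W.B)).mp (by norm_num; exact hB2)
    exact h.2.2
  unfold Warp.force
  exact ((contDiff_const.mul hA').div (hA.pow 3) (fun t => pow_ne_zero 3 (W.A_pos t).ne')).add
    ((contDiff_const.mul hB').div (hB.pow 3) (fun t => pow_ne_zero 3 (W.B_pos t).ne'))

theorem force_per (W : Warp) (P Q : ℝ) (t : ℝ) :
    W.force P Q (t + W.ell) = W.force P Q t := by
  unfold Warp.force
  rw [W.A_per, W.B_per, deriv_per W.A_per, deriv_per W.B_per]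

theorem lip_force (W : Warp) (P Q : ℝ) : ∃ K : ℝ≥0, LipschitzWith K (W.force P Q) := by
  have hc := contDiff_force W P Q
  have hd : Differentiable ℝ (W.force P Q) := hc.differentiable (by norm_num)
  have hcont : Continuous (deriv (W.force P Q)) := hc.continuous_deriv (by norm_num)
  have hper : Function.Periodic (deriv (W.force P Q)) W.ell :=
    deriv_per (force_per W P Q)
  obtain ⟨C, hC⟩ := (isCompact_Icc (a := (0 : ℝ)) (b := W.ell)).exists_bound_of_continuousOn
    hcont.continuousOn
  refine ⟨C.toNNReal, lipschitzWith_of_nnnorm_deriv_le hd ?_⟩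
  intro t
  obtain ⟨y, hy, hyt⟩ := hper.exists_mem_Ico₀ W.ell_pos t
  have h1 := hC y ⟨hy.1, hy.2.le⟩
  rw [hyt]
  rw [← NNReal.coe_le_coe, coe_nnnorm]
  exact h1.trans (Real.le_coe_toNNReal C)

end J0_

/-- J0b. -/
theorem j0b : T_unique := by
  intro W P Q t x p q t' x' p' q' hg hg' ht hx hp hq
  obtain ⟨K, hK⟩ := lip_force W P Q
  -- the field
  set v : ℝ → ℝ × ℝ → ℝ × ℝ := fun _ z => (z.2, W.force P Q z.1) with hv
  have hlip : ∀ s, LipschitzOnWith (max 1 K) (v s) univ := by
    intro s
    have h1 : LipschitzWith 1 (fun z : ℝ × ℝ => z.2) := LipschitzWith.prod_snd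
    have h2 : LipschitzWith K (fun z : ℝ × ℝ => W.force P Q z.1) := by
      have := hK.comp (LipschitzWith.prod_fst (α := ℝ) (β := ℝ))
      rw [mul_one] at this
      exact this
    exact (h1.prodMk h2).lipschitzOnWith
  have hf : (fun s => (t s, x s)) = fun s => (t' s, x' s) := by
    apply ODE_solution_unique_univ (v := v) (s := fun _ => univ) (K := max 1 K) (t₀ := 0)
    · exact hlip
    · intro s
      exact ⟨(hg.ht s).prodMk (hg.hx s), mem_univ _⟩
    · intro s
      exact ⟨(hg'.ht s).prodMk (hg'.hx s), mem_univ _⟩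
    · rw [ht, hx]
  have htt : t = t' := by
    funext s
    exact congrArg Prod.fst (congrFun hf s)
  have hxx : x = x' := by
    funext s
    exact congrArg Prod.snd (congrFun hf s)
  have aux : ∀ (a b c : ℝ → ℝ), (∀ s, HasDerivAt a (c s) s) → (∀ s, HasDerivAt b (c s) s) →
      a 0 = b 0 → a = b := by
    intro a b c ha hb h0
    have hd : ∀ s, HasDerivAt (fun s => a s - b s) 0 s := by
      intro s
      have := (ha s).sub (hb s)
      rw [sub_self] at this
      exact this
    funext s
    have h1 := is_const_of_deriv_eq_zero (fun s => (hd s).differentiableAt)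
      (fun s => (hd s).deriv) s 0
    linarith
  refine ⟨htt, hxx, ?_, ?_⟩
  · apply aux p p' _ hg.hp _ hp
    intro s
    rw [htt]
    exact hg'.hp s
  · apply aux q q' _ hg.hq _ hq
    intro s
    rw [htt]
    exact hg'.hq s

end Pool.Agent.Emb
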