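import Pool.Agent.Emb.Targets

/-!
# J1: no conjugate points within distance `1/2`
-/

set_option autoImplicit false

namespace Pool.Agent.Emb

open scoped ContDiff Real
open Set Real

namespace J1_

/-- The inner product of the Jacobi field with its covariant derivative. -/
noncomputable def ip (a a1 b b1 X P Q h y k l dP dQ : ℝ) : ℝ :=
  h * (y - P * a1 * k / a - Q * b1 * l / b) + a * k * (a1 * X * k + dP / a - P * a1 * h / a ^ 2) +
    b * l * (b1 * X * l + dQ / b - Q * b1 * h / b ^ 2)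

/-- The square of the covariant derivative. -/
noncomputable def dd (a a1 b b1 X P Q h y k l dP dQ : ℝ) : ℝ :=
  (y - P * a1 * k / a - Q * b1 * l / b) ^ 2 + (a1 * X * k + dP / a - P * a1 * h / a ^ 2) ^ 2 +
    (b1 * X * l + dQ / b - Q * b1 * h / b ^ 2) ^ 2

/-- The curvature term. -/
noncomputable def rr (a a1 a2 b b1 b2 X P Q h k l : ℝ) : ℝ :=
  -a2 / a * (h * (P / a) - a * k * X) ^ 2 - b2 / b * (h * (Q / b) - b * l * X) ^ 2 -
    (a1 / a) * (b1 / b) * (a * k * (Q / b) - b * l * (P / a)) ^ 2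

/-- Completion of the square. -/
theorem square (a a1 b b1 X P Q h y k l dP dQ c : ℝ) :
    dd a a1 b b1 X P Q h y k l dP dQ - 2 * c * ip a a1 b b1 X P Q h y k l dP dQ +
      c ^ 2 * (h ^ 2 + (a * k) ^ 2 + (b * l) ^ 2) ≥ 0 := by
  have h1 : dd a a1 b b1 X P Q h y k l dP dQ - 2 * c * ip a a1 b b1 X P Q h y k l dP dQ +
      c ^ 2 * (h ^ 2 + (a * k) ^ 2 + (b * l) ^ 2) =
      ((y - P * a1 * k / a - Q * b1 * l / b) - c * h) ^ 2 +
      ((a1 * X * k + dP / a - P * a1 * h / a ^ 2) - c * (a * k)) ^ 2 +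
      ((b1 * X * l + dQ / b - Q * b1 * h / b ^ 2) - c * (b * l)) ^ 2 := by
    unfold dd ip
    ring
  rw [h1]
  positivity

/-- The curvature bound. -/
theorem rr_le (a a1 a2 b b1 b2 X P Q h k l : ℝ) (ha : 0 < a) (hb : 0 < b)
    (hA : -a2 ≤ 4 * π ^ 2 * a) (hB : -b2 ≤ 4 * π ^ 2 * b)
    (hAB : -(a1 * b1) ≤ 4 * π ^ 2 * (a * b)) :
    rr a a1 a2 b b1 b2 X P Q h k l ≤
      4 * π ^ 2 *
        ((X ^ 2 + P ^ 2 / a ^ 2 + Q ^ 2 / b ^ 2) * (h ^ 2 + (a * k) ^ 2 + (b * l) ^ 2)) := by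
  have h1 : -a2 / a ≤ 4 * π ^ 2 := by rw [div_le_iff₀ ha]; exact hA
  have h2 : -b2 / b ≤ 4 * π ^ 2 := by rw [div_le_iff₀ hb]; exact hB
  have h3 : -((a1 / a) * (b1 / b)) ≤ 4 * π ^ 2 := by
    have : -((a1 / a) * (b1 / b)) = -(a1 * b1) / (a * b) := by field_simp
    rw [this, div_le_iff₀ (mul_pos ha hb)]
    exact hAB
  have h4 := mul_le_mul_of_nonneg_right h1 (sq_nonneg (h * (P / a) - a * k * X))
  have h5 := mul_le_mul_of_nonneg_right h2 (sq_nonneg (h * (Q / b) - b * l * X))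
  have h6 := mul_le_mul_of_nonneg_right h3 (sq_nonneg (a * k * (Q / b) - b * l * (P / a)))
  have h7 : (X ^ 2 + P ^ 2 / a ^ 2 + Q ^ 2 / b ^ 2) * (h ^ 2 + (a * k) ^ 2 + (b * l) ^ 2) =
      (h * (P / a) - a * k * X) ^ 2 + (h * (Q / b) - b * l * X) ^ 2 +
      (a * k * (Q / b) - b * l * (P / a)) ^ 2 +
      (h * X + a * k * (P / a) + b * l * (Q / b)) ^ 2 := by
    field_simp
    ring
  have h8 : 0 ≤ 4 * π ^ 2 * (h * X + a * k * (P / a) + b * l * (Q / b)) ^ 2 := by positivity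
  have h9 : rr a a1 a2 b b1 b2 X P Q h k l = -a2 / a * (h * (P / a) - a * k * X) ^ 2 +
      -b2 / b * (h * (Q / b) - b * l * X) ^ 2 +
      -((a1 / a) * (b1 / b)) * (a * k * (Q / b) - b * l * (P / a)) ^ 2 := by
    unfold rr
    ring
  rw [h7, h9, mul_add, mul_add, mul_add]
  linarith [h4, h5, h6, h8]

/-- The derivative of `f ^ 2 / g` at a common zero: the quotient tends to `0`. -/
theorem tendsto_sq_div {f g : ℝ → ℝ} {f' g' c : ℝ} (hf : HasDerivAt f f' c) (hf0 : f c = 0)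
    (hg : HasDerivAt g g' c) (hg0 : g c = 0) (hg' : g' ≠ 0) :
    Filter.Tendsto (fun s => f s ^ 2 / g s) (nhdsWithin c {c}ᶜ) (nhds 0) := by
  have h1 := hasDerivAt_iff_tendsto_slope.1 hf
  have h2 := hasDerivAt_iff_tendsto_slope.1 hg
  have h3 : Filter.Tendsto f (nhdsWithin c {c}ᶜ) (nhds 0) := by
    have := hf.continuousAt.tendsto.mono_left (nhdsWithin_le_nhds (s := {c}ᶜ))
    rwa [hf0] at this
  have h4 := (h1.mul h3).div h2 hg'
  simp only [mul_zero, zero_div] at h4
  refine h4.congr' ?_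
  filter_upwards [self_mem_nhdsWithin] with s hs
  have hs' : s - c ≠ 0 := sub_ne_zero.2 hs
  show slope f c s * f s / slope g c s = f s ^ 2 / g s
  rw [slope_def_field, slope_def_field, hf0, hg0, sub_zero, sub_zero]
  by_cases hgs : g s = 0
  · simp [hgs]
  · field_simp

end J1_

open J1_

/-- J1. No conjugate points within distance `1/2`. -/
theorem j1 (h_nrg : T_nrg) : T_jacobi := by
  intro W P Q t x p q hG hE dP dQ h y k l hV h0 k0 l0 h1 k1 l1
  set E := W.nrg (t 0) (x 0) P Q with hEdef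
  have hErg : ∀ s, W.nrg (t s) (x s) P Q = E := fun s => h_nrg W P Q t x p q hG s
  -- derivatives along the geodesic
  have dA : ∀ s, HasDerivAt (fun s => W.A (t s)) (deriv W.A (t s) * x s) s := fun s =>
    ((W.A_smooth.differentiable (by simp)) (t s)).hasDerivAt.comp s (hG.ht s)
  have dB : ∀ s, HasDerivAt (fun s => W.B (t s)) (deriv W.B (t s) * x s) s := fun s =>
    ((W.B_smooth.differentiable (by simp)) (t s)).hasDerivAt.comp s (hG.ht s)
  have sA1 : ContDiff ℝ 1 (deriv W.A) := by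
    have h2 : ContDiff ℝ (1 + 1) W.A := contDiff_infty.1 W.A_smooth 2
    exact (contDiff_succ_iff_deriv.1 h2).2.2
  have sB1 : ContDiff ℝ 1 (deriv W.B) := by
    have h2 : ContDiff ℝ (1 + 1) W.B := contDiff_infty.1 W.B_smooth 2
    exact (contDiff_succ_iff_deriv.1 h2).2.2
  have dA1' : ∀ u, HasDerivAt (deriv W.A) (deriv (deriv W.A) u) u := fun u =>
    ((sA1.differentiable (by simp)) u).hasDerivAt
  have dB1' : ∀ u, HasDerivAt (deriv W.B) (deriv (deriv W.B) u) u := fun u =>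
    ((sB1.differentiable (by simp)) u).hasDerivAt
  have dA1 : ∀ s, HasDerivAt (fun s => deriv W.A (t s)) (deriv (deriv W.A) (t s) * x s) s :=
    fun s => (dA1' (t s)).comp s (hG.ht s)
  have dB1 : ∀ s, HasDerivAt (fun s => deriv W.B (t s)) (deriv (deriv W.B) (t s) * x s) s :=
    fun s => (dB1' (t s)).comp s (hG.ht s)
  have hA0 : ∀ s, W.A (t s) ≠ 0 := fun s => (W.A_pos _).ne'
  have hB0 : ∀ s, W.B (t s) ≠ 0 := fun s => (W.B_pos _).ne'
  -- the derivative of the force
  have dF : ∀ u, deriv (W.force P Q) u =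
      P ^ 2 * (deriv (deriv W.A) u / W.A u ^ 3 - 3 * deriv W.A u ^ 2 / W.A u ^ 4) +
      Q ^ 2 * (deriv (deriv W.B) u / W.B u ^ 3 - 3 * deriv W.B u ^ 2 / W.B u ^ 4) := by
    intro u
    have a0 : W.A u ≠ 0 := (W.A_pos u).ne'
    have b0 : W.B u ≠ 0 := (W.B_pos u).ne'
    have e1 : HasDerivAt W.A (deriv W.A u) u :=
      ((W.A_smooth.differentiable (by simp)) u).hasDerivAt
    have e2 : HasDerivAt W.B (deriv W.B u) u :=
      ((W.B_smooth.differentiable (by simp)) u).hasDerivAt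
    have e3 := (((dA1' u).const_mul (P ^ 2)).div (e1.pow 3) (pow_ne_zero 3 a0)).add
      (((dB1' u).const_mul (Q ^ 2)).div (e2.pow 3) (pow_ne_zero 3 b0))
    have e4 : HasDerivAt (W.force P Q)
        (P ^ 2 * (deriv (deriv W.A) u / W.A u ^ 3 - 3 * deriv W.A u ^ 2 / W.A u ^ 4) +
        Q ^ 2 * (deriv (deriv W.B) u / W.B u ^ 3 - 3 * deriv W.B u ^ 2 / W.B u ^ 4)) u := by
      refine e3.congr_deriv ?_
      simp only [Pi.pow_apply]
      field_simp
      ring
    exact e4.deriv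
  -- the functions on the geodesic
  let I : ℝ → ℝ := fun s => ip (W.A (t s)) (deriv W.A (t s)) (W.B (t s)) (deriv W.B (t s))
    (x s) P Q (h s) (y s) (k s) (l s) dP dQ
  let N : ℝ → ℝ := fun s => h s ^ 2 + (W.A (t s) * k s) ^ 2 + (W.B (t s) * l s) ^ 2
  have dI : ∀ s ∈ Icc (0 : ℝ) 1, HasDerivAt I
      (dd (W.A (t s)) (deriv W.A (t s)) (W.B (t s)) (deriv W.B (t s)) (x s) P Q (h s) (y s)
        (k s) (l s) dP dQ -
      rr (W.A (t s)) (deriv W.A (t s)) (deriv (deriv W.A) (t s)) (W.B (t s)) (deriv W.B (t s))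
        (deriv (deriv W.B) (t s)) (x s) P Q (h s) (k s) (l s)) s := by
    intro s hs
    have a0 := hA0 s
    have b0 := hB0 s
    have eh := hV.hh s hs
    have ey := hV.hy s hs
    have ek := hV.hk s hs
    have el := hV.hl s hs
    rw [dF] at ey
    have ex : HasDerivAt x (W.force P Q (t s)) s := hG.hx s
    have e1 := ((dA1 s).const_mul P).mul ek
    have e1' := e1.div (dA s) a0
    have e2 := ((dB1 s).const_mul Q).mul el
    have e2' := e2.div (dB s) b0
    have c1 := (ey.sub e1').sub e2'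
    have f1 := ((dA1 s).mul ex).mul ek
    have f2 := (hasDerivAt_const s dP).div (dA s) a0
    have f3 := (((dA1 s).const_mul P).mul eh).div ((dA s).pow 2) (pow_ne_zero 2 a0)
    have c2 := (f1.add f2).sub f3
    have g1 := ((dB1 s).mul ex).mul el
    have g2 := (hasDerivAt_const s dQ).div (dB s) b0
    have g3 := (((dB1 s).const_mul Q).mul eh).div ((dB s).pow 2) (pow_ne_zero 2 b0)
    have c3 := (g1.add g2).sub g3
    have c4 := ((eh.mul c1).add (((dA s).mul ek).mul c2)).add (((dB s).mul el).mul c3)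
    refine c4.congr_deriv ?_
    simp only [dd, rr, Warp.force, Pi.mul_apply, Pi.add_apply, Pi.sub_apply, Pi.div_apply,
      Pi.pow_apply]
    field_simp
    ring
  have dN : ∀ s ∈ Icc (0 : ℝ) 1, HasDerivAt N (2 * I s) s := by
    intro s hs
    have a0 := hA0 s
    have b0 := hB0 s
    have eh := hV.hh s hs
    have ek := hV.hk s hs
    have el := hV.hl s hs
    have c1 := ((eh.pow 2).add (((dA s).mul ek).pow 2)).add (((dB s).mul el).pow 2)
    refine c1.congr_deriv ?_
    simp only [I, ip, Pi.mul_apply]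
    field_simp
    ring
  -- the quotient `N / sin`
  have hsin : ∀ s, HasDerivAt (fun s => sin (π * s)) (π * cos (π * s)) s := by
    intro s
    have e := ((hasDerivAt_id s).const_mul π).sin
    simp only [id_eq, mul_one] at e
    rwa [mul_comm (cos _)] at e
  have hcos : ∀ s, HasDerivAt (fun s => cos (π * s)) (-(π * sin (π * s))) s := by
    intro s
    have e := ((hasDerivAt_id s).const_mul π).cos
    simp only [id_eq, mul_one] at e
    refine e.congr_deriv ?_
    ring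
  have hq : ∀ c ∈ Icc (0 : ℝ) 1, h c = 0 → k c = 0 → l c = 0 → sin (π * c) = 0 →
      cos (π * c) ≠ 0 → ContinuousAt (fun s => N s / sin (π * s)) c := by
    intro c hc hc1 hc2 hc3 hc4 hc5
    have d1 := hV.hh c hc
    have d2 := (dA c).mul (hV.hk c hc)
    have d3 := (dB c).mul (hV.hl c hc)
    have z1 := mul_ne_zero pi_ne_zero hc5
    have t1 := tendsto_sq_div d1 hc1 (hsin c) hc4 z1
    have t2 := tendsto_sq_div d2 (by simp [hc2]) (hsin c) hc4 z1
    have t3 := tendsto_sq_div d3 (by simp [hc3]) (hsin c) hc4 z1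
    rw [continuousAt_iff_punctured_nhds]
    have t4 := (t1.add t2).add t3
    simp only [add_zero] at t4
    have e : N c / sin (π * c) = 0 := by rw [hc4, div_zero]
    rw [e]
    refine t4.congr fun s => ?_
    simp only [N, Pi.mul_apply]
    ring
  let G : ℝ → ℝ := fun s => I s - π * cos (π * s) * (N s / sin (π * s))
  have hsin0 : ∀ s ∈ Ioo (0 : ℝ) 1, 0 < sin (π * s) := fun s hs =>
    sin_pos_of_pos_of_lt_pi (mul_pos pi_pos hs.1) (by nlinarith [pi_pos, hs.2])
  have hN0 : ∀ s, 0 ≤ N s := fun s => by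
    simp only [N]
    positivity
  have dG : ∀ s ∈ Ioo (0 : ℝ) 1, ∃ G', HasDerivAt G G' s ∧
      π ^ 2 * (1 - 4 * E) * N s ≤ G' := by
    intro s hs
    have hs' : s ∈ Icc (0 : ℝ) 1 := ⟨hs.1.le, hs.2.le⟩
    have s0 := hsin0 s hs
    have s1 := s0.ne'
    have e1 := (dI s hs').sub (((hcos s).const_mul π).mul ((dN s hs').div (hsin s) s1))
    refine ⟨_, e1, ?_⟩
    have e2 := square (W.A (t s)) (deriv W.A (t s)) (W.B (t s)) (deriv W.B (t s))
      (x s) P Q (h s) (y s) (k s) (l s) dP dQ (π * cos (π * s) / sin (π * s))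
    have e3 := rr_le (W.A (t s)) (deriv W.A (t s)) (deriv (deriv W.A) (t s)) (W.B (t s))
      (deriv W.B (t s)) (deriv (deriv W.B) (t s)) (x s) P Q (h s) (k s) (l s)
      (W.A_pos _) (W.B_pos _) (W.curvA _) (W.curvB _) (W.curvAB _)
    have e4 : x s ^ 2 + P ^ 2 / W.A (t s) ^ 2 + Q ^ 2 / W.B (t s) ^ 2 = E := hErg s
    rw [e4] at e3
    have e5 : h s ^ 2 + (W.A (t s) * k s) ^ 2 + (W.B (t s) * l s) ^ 2 = N s := rfl
    have e6 : ip (W.A (t s)) (deriv W.A (t s)) (W.B (t s)) (deriv W.B (t s))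
      (x s) P Q (h s) (y s) (k s) (l s) dP dQ = I s := rfl
    rw [e5] at e3
    rw [e5, e6] at e2
    generalize dd (W.A (t s)) (deriv W.A (t s)) (W.B (t s)) (deriv W.B (t s)) (x s) P Q (h s)
      (y s) (k s) (l s) dP dQ = Y at e2 ⊢
    generalize rr (W.A (t s)) (deriv W.A (t s)) (deriv (deriv W.A) (t s)) (W.B (t s))
      (deriv W.B (t s)) (deriv (deriv W.B) (t s)) (x s) P Q (h s) (k s) (l s) = Z at e3 ⊢
    have e7 : Y - Z - (π * -(π * sin (π * s)) * (N s / sin (π * s)) +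
        π * cos (π * s) * ((2 * I s * sin (π * s) - N s * (π * cos (π * s))) /
          sin (π * s) ^ 2)) =
        (Y - 2 * (π * cos (π * s) / sin (π * s)) * I s +
          (π * cos (π * s) / sin (π * s)) ^ 2 * N s) + π ^ 2 * N s - Z := by
      field_simp
      ring
    have e8 : π ^ 2 * (1 - 4 * E) * N s = π ^ 2 * N s - 4 * π ^ 2 * (E * N s) := by ring
    calc π ^ 2 * (1 - 4 * E) * N s ≤ (Y - 2 * (π * cos (π * s) / sin (π * s)) * I s +
          (π * cos (π * s) / sin (π * s)) ^ 2 * N s) + π ^ 2 * N s - Z := by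
            rw [e8]
            linarith
      _ = _ := e7.symm
  have hE' : 0 < π ^ 2 * (1 - 4 * E) := by
    have : 0 < 1 - 4 * E := by linarith
    positivity
  have hGc : ContinuousOn G (Icc 0 1) := by
    intro s hs
    have hI : ContinuousAt I s := (dI s hs).continuousAt
    have hc : ContinuousAt (fun s => π * cos (π * s)) s := by fun_prop
    have hr : ContinuousAt (fun s => N s / sin (π * s)) s := by
      rcases eq_or_lt_of_le hs.1 with hs0 | hs0
      · subst hs0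
        exact hq 0 hs h0 k0 l0 (by simp) (by simp)
      · rcases eq_or_lt_of_le hs.2 with hs1 | hs1
        · subst hs1
          exact hq 1 hs h1 k1 l1 (by simp) (by simp)
        · exact ((dN s hs).div (hsin s) (hsin0 s ⟨hs0, hs1⟩).ne').continuousAt
    exact (hI.sub (hc.mul hr)).continuousWithinAt
  have hmono : MonotoneOn G (Icc 0 1) := by
    refine monotoneOn_of_deriv_nonneg (convex_Icc 0 1) hGc ?_ ?_
    · rw [interior_Icc]
      intro s hs
      obtain ⟨G', e, -⟩ := dG s hs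
      exact e.differentiableAt.differentiableWithinAt
    · rw [interior_Icc]
      intro s hs
      obtain ⟨G', e, e'⟩ := dG s hs
      rw [e.deriv]
      exact (mul_nonneg hE'.le (hN0 s)).trans e'
  have hG0 : G 0 = 0 := by
    simp [G, I, ip, h0, k0, l0]
  have hG1 : G 1 = 0 := by
    simp [G, I, ip, h1, k1, l1]
  have hGz : ∀ s ∈ Icc (0 : ℝ) 1, G s = 0 := by
    intro s hs
    refine le_antisymm ?_ ?_
    · rw [← hG1]
      exact hmono hs (right_mem_Icc.2 zero_le_one) hs.2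
    · rw [← hG0]
      exact hmono (left_mem_Icc.2 zero_le_one) hs hs.1
  have hNz : ∀ s ∈ Ioo (0 : ℝ) 1, N s = 0 := by
    intro s hs
    obtain ⟨G', e, e'⟩ := dG s hs
    have e2 : HasDerivAt G 0 s := by
      refine (hasDerivAt_const s (0 : ℝ)).congr_of_eventuallyEq ?_
      filter_upwards [Ioo_mem_nhds hs.1 hs.2] with u hu
      exact hGz u ⟨hu.1.le, hu.2.le⟩
    rw [e.unique e2] at e'
    refine le_antisymm ?_ (hN0 s)
    by_contra hc
    push Not at hc
    exact absurd e' (not_le.2 (mul_pos hE' hc))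
  have hhz : ∀ s ∈ Ioo (0 : ℝ) 1, h s = 0 := by
    intro s hs
    have e := hNz s hs
    simp only [N] at e
    have e2 : h s ^ 2 ≤ 0 := by
      nlinarith [sq_nonneg (W.A (t s) * k s), sq_nonneg (W.B (t s) * l s)]
    exact pow_eq_zero_iff (two_ne_zero) |>.1 (le_antisymm e2 (sq_nonneg _))
  have hkz : ∀ s ∈ Ioo (0 : ℝ) 1, k s = 0 := by
    intro s hs
    have e := hNz s hs
    simp only [N] at e
    have e2 : (W.A (t s) * k s) ^ 2 ≤ 0 := by
      nlinarith [sq_nonneg (h s), sq_nonneg (W.B (t s) * l s)]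
    have e3 := pow_eq_zero_iff (two_ne_zero) |>.1 (le_antisymm e2 (sq_nonneg _))
    exact (mul_eq_zero.1 e3).resolve_left (hA0 s)
  have hlz : ∀ s ∈ Ioo (0 : ℝ) 1, l s = 0 := by
    intro s hs
    have e := hNz s hs
    simp only [N] at e
    have e2 : (W.B (t s) * l s) ^ 2 ≤ 0 := by
      nlinarith [sq_nonneg (h s), sq_nonneg (W.A (t s) * k s)]
    have e3 := pow_eq_zero_iff (two_ne_zero) |>.1 (le_antisymm e2 (sq_nonneg _))
    exact (mul_eq_zero.1 e3).resolve_left (hB0 s)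
  have key : ∀ f : ℝ → ℝ, (∀ s ∈ Ioo (0 : ℝ) 1, f s = 0) → ∀ s ∈ Ioo (0 : ℝ) 1, ∀ f',
      HasDerivAt f f' s → f' = 0 := by
    intro f hf s hs f' e
    have e2 : HasDerivAt f 0 s := by
      refine (hasDerivAt_const s (0 : ℝ)).congr_of_eventuallyEq ?_
      filter_upwards [Ioo_mem_nhds hs.1 hs.2] with u hu
      exact hf u hu
    exact e.unique e2
  have hm : (1 / 2 : ℝ) ∈ Ioo (0 : ℝ) 1 := by constructor <;> norm_num
  have hm' : (1 / 2 : ℝ) ∈ Icc (0 : ℝ) 1 := by constructor <;> norm_num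
  have hyz : ∀ s ∈ Ioo (0 : ℝ) 1, y s = 0 := fun s hs =>
    key h hhz s hs _ (hV.hh s ⟨hs.1.le, hs.2.le⟩)
  refine ⟨?_, ?_, ?_⟩
  · have c : ContinuousAt y 0 := (hV.hy 0 (left_mem_Icc.2 zero_le_one)).continuousAt
    have c1 : Filter.Tendsto y (nhdsWithin 0 (Ioi 0)) (nhds (y 0)) :=
      c.tendsto.mono_left nhdsWithin_le_nhds
    have c2 : Filter.Tendsto y (nhdsWithin 0 (Ioi 0)) (nhds 0) := by
      refine tendsto_const_nhds.congr' ?_
      filter_upwards [Ioo_mem_nhdsGT (zero_lt_one (α := ℝ))] with u hu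
      exact (hyz u hu).symm
    exact tendsto_nhds_unique c1 c2
  · have e := key k hkz _ hm _ (hV.hk _ hm')
    rw [hhz _ hm, mul_zero, sub_zero, div_eq_zero_iff] at e
    exact e.resolve_right (pow_ne_zero 2 (hA0 _))
  · have e := key l hlz _ hm _ (hV.hl _ hm')
    rw [hhz _ hm, mul_zero, sub_zero, div_eq_zero_iff] at e
    exact e.resolve_right (pow_ne_zero 2 (hB0 _))

end Pool.Agent.Emb
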