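import Pool.Agent.Emb.Targets

/-!
# The first variation of the energy
-/

namespace Pool.Agent.Emb

open scoped ContDiff Real
open Set Real

namespace J1b_

/-- The derivative of `1 / f²`. -/
lemma hasDerivAt_inv_sq {f : ℝ → ℝ} (hf : ContDiff ℝ ∞ f) (hpos : ∀ t, 0 < f t) (c : ℝ) (u : ℝ) :
    HasDerivAt (fun v => c / f v ^ 2) (-(2 * c * deriv f u / f u ^ 3)) u := by
  have h1 : HasDerivAt f (deriv f u) u :=
    ((hf.differentiable (by simp)) u).hasDerivAt
  have h2 : f u ^ 2 ≠ 0 := pow_ne_zero 2 (hpos u).ne'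
  have h3 := (h1.pow 2).inv h2
  have h4 := h3.const_mul c
  have h5 : (fun v => c / f v ^ 2) = fun v => c * (f v ^ 2)⁻¹ := by
    funext v
    rw [div_eq_mul_inv]
  rw [h5]
  refine h4.congr_deriv ?_
  have h6 : f u ≠ 0 := (hpos u).ne'
  field_simp
  simp
  ring

/-- The force is differentiable. -/
lemma force_diff (W : Warp) (P Q u : ℝ) : DifferentiableAt ℝ (W.force P Q) u := by
  have hA : ContDiff ℝ ∞ W.A := W.A_smooth
  have hB : ContDiff ℝ ∞ W.B := W.B_smooth
  have hA' : ContDiff ℝ ∞ (deriv W.A) := (contDiff_infty_iff_deriv.1 hA).2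
  have hB' : ContDiff ℝ ∞ (deriv W.B) := (contDiff_infty_iff_deriv.1 hB).2
  have dA := (hA.differentiable (by simp)) u
  have dB := (hB.differentiable (by simp)) u
  have dA' := (hA'.differentiable (by simp)) u
  have dB' := (hB'.differentiable (by simp)) u
  have nA : W.A u ^ 3 ≠ 0 := pow_ne_zero 3 (W.A_pos u).ne'
  have nB : W.B u ^ 3 ≠ 0 := pow_ne_zero 3 (W.B_pos u).ne'
  have e : W.force P Q = fun t => P ^ 2 * deriv W.A t / W.A t ^ 3
      + Q ^ 2 * deriv W.B t / W.B t ^ 3 := rfl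
  rw [e]
  exact ((dA'.const_mul _).div (dA.pow 3) nA).add ((dB'.const_mul _).div (dB.pow 3) nB)

end J1b_

open J1b_ in
/-- J1b. The first variation of the energy. -/
theorem j1b (_h_nrg : T_nrg) : T_first := by
  intro W P Q t x p q hg dP dQ h y k l hv h0 k0 l0
  set E : ℝ → ℝ := fun s => x s * y s - W.force P Q (t s) * h s
    + P * dP / W.A (t s) ^ 2 + Q * dQ / W.B (t s) ^ 2 with hE
  have hE' : ∀ s ∈ Icc (0 : ℝ) 1, HasDerivAt E 0 s := by
    intro s hs
    have a1 := (hg.hx s).mul (hv.hy s hs)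
    have a2 : HasDerivAt (fun s => W.force P Q (t s)) (deriv (W.force P Q) (t s) * x s) s :=
      ((force_diff W P Q (t s)).hasDerivAt).comp s (hg.ht s)
    have a3 := a2.mul (hv.hh s hs)
    have a4 : HasDerivAt (fun s => P * dP / W.A (t s) ^ 2)
        (-(2 * (P * dP) * deriv W.A (t s) / W.A (t s) ^ 3) * x s) s :=
      (hasDerivAt_inv_sq W.A_smooth W.A_pos (P * dP) (t s)).comp s (hg.ht s)
    have a5 : HasDerivAt (fun s => Q * dQ / W.B (t s) ^ 2)
        (-(2 * (Q * dQ) * deriv W.B (t s) / W.B (t s) ^ 3) * x s) s :=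
      (hasDerivAt_inv_sq W.B_smooth W.B_pos (Q * dQ) (t s)).comp s (hg.ht s)
    have a6 := ((a1.sub a3).add a4).add a5
    refine (a6.congr_deriv ?_)
    ring
  have hEc : ∀ s ∈ Icc (0 : ℝ) 1, E s = E 0 := by
    refine constant_of_has_deriv_right_zero
      (fun s hs => (hE' s hs).continuousAt.continuousWithinAt) ?_
    intro s hs
    exact (hE' s ⟨hs.1, hs.2.le⟩).hasDerivWithinAt
  set G : ℝ → ℝ := fun s => x s * h s + P * k s + Q * l s - E 0 * s with hG
  have hG' : ∀ s ∈ Icc (0 : ℝ) 1, HasDerivAt G 0 s := by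
    intro s hs
    have a1 := (hg.hx s).mul (hv.hh s hs)
    have a2 := (hv.hk s hs).const_mul P
    have a3 := (hv.hl s hs).const_mul Q
    have a4 := (hasDerivAt_id s).const_mul (E 0)
    have a5 := ((a1.add a2).add a3).sub a4
    refine (a5.congr_deriv ?_)
    rw [← hEc s hs]
    simp only [hE, Warp.force]
    ring
  have hGc : ∀ s ∈ Icc (0 : ℝ) 1, G s = G 0 := by
    refine constant_of_has_deriv_right_zero
      (fun s hs => (hG' s hs).continuousAt.continuousWithinAt) ?_
    intro s hs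
    exact (hG' s ⟨hs.1, hs.2.le⟩).hasDerivWithinAt
  have h1 := hGc 1 ⟨zero_le_one, le_refl 1⟩
  simp only [hG, h0, k0, l0, mul_zero, add_zero, sub_zero, mul_one] at h1
  have h2 : x 1 * h 1 + P * k 1 + Q * l 1 = E 0 := by linarith
  rw [h2]
  simp only [hE, h0, mul_zero, sub_zero]

end Pool.Agent.Emb
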