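import Pool.Agent.Emb.Targets
import Pool.Agent.Knieper.Flow

/-!
# J2: the exponential map and its derivative
-/

set_option autoImplicit false

noncomputable section

namespace Pool.Agent.Emb

open scoped ContDiff Real NNReal Topology
open Set Real Filter

namespace J2_

/-- The phase space `(t, x, P, Q, p, q)`. -/
abbrev E6 := ℝ × ℝ × ℝ × ℝ × ℝ × ℝ

variable (W : Warp)

/-- `A' / A³`. -/
def gA (t : ℝ) : ℝ := deriv W.A t / W.A t ^ 3

/-- `B' / B³`. -/
def gB (t : ℝ) : ℝ := deriv W.B t / W.B t ^ 3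

theorem force_eq (P Q t : ℝ) : W.force P Q t = P ^ 2 * gA W t + Q ^ 2 * gB W t := by
  unfold Warp.force gA gB
  ring

theorem gA_smooth : ContDiff ℝ ∞ (gA W) :=
  (contDiff_infty_iff_deriv.1 W.A_smooth).2.div (W.A_smooth.pow 3)
    fun t => pow_ne_zero _ (W.A_pos t).ne'

theorem gB_smooth : ContDiff ℝ ∞ (gB W) :=
  (contDiff_infty_iff_deriv.1 W.B_smooth).2.div (W.B_smooth.pow 3)
    fun t => pow_ne_zero _ (W.B_pos t).ne'

theorem gA_per (t : ℝ) : gA W (t + W.ell) = gA W t := by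
  have h : (fun t => W.A (t + W.ell)) = W.A := funext W.A_per
  have h1 : deriv W.A (t + W.ell) = deriv W.A t := by
    rw [← deriv_comp_add_const, h]
  unfold gA
  rw [h1, W.A_per]

theorem gB_per (t : ℝ) : gB W (t + W.ell) = gB W t := by
  have h : (fun t => W.B (t + W.ell)) = W.B := funext W.B_per
  have h1 : deriv W.B (t + W.ell) = deriv W.B t := by
    rw [← deriv_comp_add_const, h]
  unfold gB
  rw [h1, W.B_per]

theorem force_smooth (P Q : ℝ) : ContDiff ℝ ∞ (W.force P Q) := by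
  have h : W.force P Q = fun t => P ^ 2 * gA W t + Q ^ 2 * gB W t := funext (force_eq W P Q)
  rw [h]
  exact (contDiff_const.mul (gA_smooth W)).add (contDiff_const.mul (gB_smooth W))

theorem force_per (P Q t : ℝ) : W.force P Q (t + W.ell) = W.force P Q t := by
  rw [force_eq, force_eq, gA_per, gB_per]

theorem bound_of_periodic {g : ℝ → ℝ} {c : ℝ} (hg : Continuous g) (hc : c ≠ 0)
    (hp : ∀ t, g (t + c) = g t) : ∃ M : ℝ≥0, ∀ t, |g t| ≤ M := by
  have h1 : Bornology.IsBounded (range g) :=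
    Function.Periodic.isBounded_of_continuous (c := c) hp hc hg
  obtain ⟨M, hM⟩ := isBounded_iff_forall_norm_le.1 h1
  exact ⟨M.toNNReal, fun t => (hM _ ⟨t, rfl⟩).trans (Real.le_coe_toNNReal M)⟩

/-- Geodesics exist for all times. -/
theorem exists_geo (P Q t₀ x₀ : ℝ) : ∃ t x p q : ℝ → ℝ, W.IsGeo P Q t x p q ∧ t 0 = t₀ ∧
    x 0 = x₀ ∧ p 0 = 0 ∧ q 0 = 0 := by
  have hF := force_smooth W P Q
  have hell : W.ell ≠ 0 := W.ell_pos.ne'
  obtain ⟨M, hM⟩ := bound_of_periodic hF.continuous hell (force_per W P Q)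
  have hdF : ContDiff ℝ ∞ (deriv (W.force P Q)) := (contDiff_infty_iff_deriv.1 hF).2
  obtain ⟨L, hL⟩ := bound_of_periodic hdF.continuous hell (fun t => by
    have h : (fun t => W.force P Q (t + W.ell)) = W.force P Q := funext (force_per W P Q)
    rw [← deriv_comp_add_const, h])
  have hFL : LipschitzWith L (W.force P Q) :=
    lipschitzWith_of_nnnorm_deriv_le (hF.differentiable (by simp)) fun t => by
      have := hL t
      rw [← NNReal.coe_le_coe]
      simpa using this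
  have hfst : LipschitzWith L (fun z : ℝ × ℝ => W.force P Q z.1) := by
    have := hFL.comp (LipschitzWith.prod_fst (α := ℝ) (β := ℝ))
    rw [mul_one] at this
    exact this
  obtain ⟨α, hα0, hα⟩ := Knieper.glue_solutions (W := ℝ × ℝ)
    (f := fun _ z => (z.2, W.force P Q z.1)) (K := max 1 L)
    (fun _ => (LipschitzWith.prod_snd (α := ℝ) (β := ℝ)).prodMk hfst) (x₀ := (t₀, x₀)) (by
    intro n
    set R : ℝ := |x₀| + M * n with hR
    have hR0 : 0 ≤ R := by positivity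
    have hcl : LipschitzWith 1 (fun z : ℝ × ℝ => max (-R) (min z.2 R)) :=
      ((LipschitzWith.prod_snd (α := ℝ) (β := ℝ)).min_const R).const_max (-R)
    obtain ⟨α, h0, hα⟩ := Knieper.exists_solution_global (W := ℝ × ℝ)
      (f := fun _ z => (max (-R) (min z.2 R), W.force P Q z.1)) (K := max 1 L)
      (fun _ => hcl.prodMk hfst) (fun _ => continuous_const) (M := max R.toNNReal M)
      (fun _ z => by
        rw [Prod.norm_mk]
        push_cast
        refine max_le_max ?_ (hM _)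
        rw [Real.coe_toNNReal R hR0, Real.norm_eq_abs, abs_le]
        exact ⟨le_max_left _ _, max_le (by linarith) (min_le_right _ _)⟩) (t₀, x₀)
    refine ⟨α, h0, fun s hs => ?_⟩
    have hx : ∀ u, HasDerivAt (fun u => (α u).2) (W.force P Q (α u).1) u := fun u => (hα u).snd
    have hb : |(α s).2| ≤ R := by
      have h1 := (convex_univ (𝕜 := ℝ) (E := ℝ)).norm_image_sub_le_of_norm_hasDerivWithin_le
        (f := fun u => (α u).2) (f' := fun u => W.force P Q (α u).1) (C := M) (x := 0) (y := s)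
        (fun u _ => (hx u).hasDerivWithinAt) (fun u _ => hM _) (mem_univ _) (mem_univ _)
      simp only [h0, sub_zero, Real.norm_eq_abs] at h1
      have h2 : |s| ≤ n := (abs_lt.2 hs).le
      have h3 : |(α s).2| ≤ |x₀| + |(α s).2 - x₀| := by
        have := abs_add_le x₀ ((α s).2 - x₀)
        simpa using this
      have h4 : (M : ℝ) * |s| ≤ M * n := mul_le_mul_of_nonneg_left h2 M.2
      rw [hR]
      linarith
    have h5 := hα s
    have h6 : max (-R) (min (α s).2 R) = (α s).2 := by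
      rw [abs_le] at hb
      rw [min_eq_left hb.2, max_eq_right hb.1]
    simp only [h6] at h5
    exact h5)
  have ht : ∀ s, HasDerivAt (fun u => (α u).1) (α s).2 s := fun s => (hα s).fst
  have hx : ∀ s, HasDerivAt (fun u => (α u).2) (W.force P Q (α s).1) s := fun s => (hα s).snd
  have htc : Continuous fun u => (α u).1 :=
    continuous_iff_continuousAt.2 fun s => (ht s).continuousAt
  have hpc : Continuous fun u => P / W.A (α u).1 ^ 2 :=
    continuous_const.div ((W.A_smooth.continuous.comp htc).pow 2)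
      fun u => pow_ne_zero _ (W.A_pos _).ne'
  have hqc : Continuous fun u => Q / W.B (α u).1 ^ 2 :=
    continuous_const.div ((W.B_smooth.continuous.comp htc).pow 2)
      fun u => pow_ne_zero _ (W.B_pos _).ne'
  refine ⟨fun u => (α u).1, fun u => (α u).2, fun s => ∫ u in (0 : ℝ)..s, P / W.A (α u).1 ^ 2,
    fun s => ∫ u in (0 : ℝ)..s, Q / W.B (α u).1 ^ 2, ⟨ht, hx, fun s => ?_, fun s => ?_⟩, ?_, ?_,
    by simp, by simp⟩
  · exact (hpc.integral_hasStrictDerivAt 0 s).hasDerivAt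
  · exact (hqc.integral_hasStrictDerivAt 0 s).hasDerivAt
  · simp [hα0]
  · simp [hα0]

/-- The geodesic field. -/
def field (u : E6) : E6 :=
  (u.2.1, W.force u.2.2.1 u.2.2.2.1 u.1, 0, 0, u.2.2.1 / W.A u.1 ^ 2, u.2.2.2.1 / W.B u.1 ^ 2)

theorem field_smooth : ContDiff ℝ ∞ (field W) := by
  have c1 : ContDiff ℝ ∞ (fun u : E6 => u.1) := contDiff_fst
  have c2 : ContDiff ℝ ∞ (fun u : E6 => u.2.1) := contDiff_fst.comp contDiff_snd
  have c3 : ContDiff ℝ ∞ (fun u : E6 => u.2.2.1) :=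
    contDiff_fst.comp (contDiff_snd.comp contDiff_snd)
  have c4 : ContDiff ℝ ∞ (fun u : E6 => u.2.2.2.1) :=
    contDiff_fst.comp (contDiff_snd.comp (contDiff_snd.comp contDiff_snd))
  have hf : ContDiff ℝ ∞ (fun u : E6 => W.force u.2.2.1 u.2.2.2.1 u.1) := by
    have h : (fun u : E6 => W.force u.2.2.1 u.2.2.2.1 u.1) =
        fun u : E6 => u.2.2.1 ^ 2 * gA W u.1 + u.2.2.2.1 ^ 2 * gB W u.1 :=
      funext fun u => force_eq W _ _ _
    rw [h]
    exact ((c3.pow 2).mul ((gA_smooth W).comp c1)).add ((c4.pow 2).mul ((gB_smooth W).comp c1))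
  exact c2.prodMk (hf.prodMk (contDiff_const.prodMk (contDiff_const.prodMk
    ((c3.div ((W.A_smooth.comp c1).pow 2) fun u => pow_ne_zero _ (W.A_pos _).ne').prodMk
      (c4.div ((W.B_smooth.comp c1).pow 2) fun u => pow_ne_zero _ (W.B_pos _).ne')))))

theorem fderiv_field (u v : E6) : fderiv ℝ (field W) u v =
    (v.2.1, deriv (W.force u.2.2.1 u.2.2.2.1) u.1 * v.1
      + 2 * u.2.2.1 * v.2.2.1 * deriv W.A u.1 / W.A u.1 ^ 3
      + 2 * u.2.2.2.1 * v.2.2.2.1 * deriv W.B u.1 / W.B u.1 ^ 3, 0, 0,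
      v.2.2.1 / W.A u.1 ^ 2 - 2 * u.2.2.1 * deriv W.A u.1 / W.A u.1 ^ 3 * v.1,
      v.2.2.2.1 / W.B u.1 ^ 2 - 2 * u.2.2.2.1 * deriv W.B u.1 / W.B u.1 ^ 3 * v.1) := by
  have hd : DifferentiableAt ℝ (field W) u := ((field_smooth W).differentiable (by simp)) u
  have hline : HasDerivAt (fun r : ℝ => u + r • v) v 0 := by
    have := ((hasDerivAt_id (0 : ℝ)).smul_const v).const_add u
    simpa using this
  have h1 : HasDerivAt (fun r : ℝ => field W (u + r • v)) (fderiv ℝ (field W) u v) 0 := by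
    have h2 : HasFDerivAt (field W) (fderiv ℝ (field W) u) (u + (0 : ℝ) • v) := by
      simpa using hd.hasFDerivAt
    exact h2.comp_hasDerivAt (0 : ℝ) hline
  have e : ∀ (a b : ℝ), HasDerivAt (fun r : ℝ => a + r * b) b 0 := fun a b => by
    have := ((hasDerivAt_id (0 : ℝ)).mul_const b).const_add a
    simpa using this
  have hAd : ∀ t, HasDerivAt W.A (deriv W.A t) t := fun t =>
    ((W.A_smooth.differentiable (by simp)) t).hasDerivAt
  have hBd : ∀ t, HasDerivAt W.B (deriv W.B t) t := fun t =>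
    ((W.B_smooth.differentiable (by simp)) t).hasDerivAt
  have hgAd : ∀ t, HasDerivAt (gA W) (deriv (gA W) t) t := fun t =>
    (((gA_smooth W).differentiable (by simp)) t).hasDerivAt
  have hgBd : ∀ t, HasDerivAt (gB W) (deriv (gB W) t) t := fun t =>
    (((gB_smooth W).differentiable (by simp)) t).hasDerivAt
  have hc : ∀ {g : ℝ → ℝ} {g' a b : ℝ}, HasDerivAt g g' a →
      HasDerivAt (fun r : ℝ => g (a + r * b)) (g' * b) 0 := by
    intro g g' a b hg
    have hg' : HasDerivAt g g' (a + 0 * b) := by simpa using hg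
    exact hg'.comp (0 : ℝ) (e a b)
  have hforce : deriv (W.force u.2.2.1 u.2.2.2.1) u.1 =
      u.2.2.1 ^ 2 * deriv (gA W) u.1 + u.2.2.2.1 ^ 2 * deriv (gB W) u.1 := by
    have h : W.force u.2.2.1 u.2.2.2.1 = fun t => u.2.2.1 ^ 2 * gA W t + u.2.2.2.1 ^ 2 * gB W t :=
      funext (force_eq W _ _)
    rw [h]
    exact (((hgAd u.1).const_mul _).add ((hgBd u.1).const_mul _)).deriv
  have h2 : HasDerivAt (fun r : ℝ => field W (u + r • v))
      (v.2.1, deriv (W.force u.2.2.1 u.2.2.2.1) u.1 * v.1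
      + 2 * u.2.2.1 * v.2.2.1 * deriv W.A u.1 / W.A u.1 ^ 3
      + 2 * u.2.2.2.1 * v.2.2.2.1 * deriv W.B u.1 / W.B u.1 ^ 3, 0, 0,
      v.2.2.1 / W.A u.1 ^ 2 - 2 * u.2.2.1 * deriv W.A u.1 / W.A u.1 ^ 3 * v.1,
      v.2.2.2.1 / W.B u.1 ^ 2 - 2 * u.2.2.2.1 * deriv W.B u.1 / W.B u.1 ^ 3 * v.1) 0 := by
    have d1 := e u.2.1 v.2.1
    have d2 : HasDerivAt (fun r : ℝ => W.force (u.2.2.1 + r * v.2.2.1)
        (u.2.2.2.1 + r * v.2.2.2.1) (u.1 + r * v.1))
        (deriv (W.force u.2.2.1 u.2.2.2.1) u.1 * v.1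
        + 2 * u.2.2.1 * v.2.2.1 * deriv W.A u.1 / W.A u.1 ^ 3
        + 2 * u.2.2.2.1 * v.2.2.2.1 * deriv W.B u.1 / W.B u.1 ^ 3) 0 := by
      have k1 := ((e u.2.2.1 v.2.2.1).pow 2).mul (hc (b := v.1) (hgAd u.1))
      have k2 := ((e u.2.2.2.1 v.2.2.2.1).pow 2).mul (hc (b := v.1) (hgBd u.1))
      have k3 := k1.add k2
      refine (k3.congr_deriv ?_).congr_of_eventuallyEq (Eventually.of_forall fun r => ?_)
      · rw [hforce]
        simp only [gA, gB]
        simp
        ring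
      · simp only [force_eq]
        simp
    have d5 : HasDerivAt (fun r : ℝ => (u.2.2.1 + r * v.2.2.1) / W.A (u.1 + r * v.1) ^ 2)
        (v.2.2.1 / W.A u.1 ^ 2 - 2 * u.2.2.1 * deriv W.A u.1 / W.A u.1 ^ 3 * v.1) 0 := by
      have hne : W.A u.1 ≠ 0 := (W.A_pos _).ne'
      have k1 := (e u.2.2.1 v.2.2.1).div ((hc (b := v.1) (hAd u.1)).pow 2)
        (by simp [hne])
      refine (k1.congr_deriv ?_).congr_of_eventuallyEq (Eventually.of_forall fun r => ?_)
      · simp
        field_simp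
      · rfl
    have d6 : HasDerivAt (fun r : ℝ => (u.2.2.2.1 + r * v.2.2.2.1) / W.B (u.1 + r * v.1) ^ 2)
        (v.2.2.2.1 / W.B u.1 ^ 2 - 2 * u.2.2.2.1 * deriv W.B u.1 / W.B u.1 ^ 3 * v.1) 0 := by
      have hne : W.B u.1 ≠ 0 := (W.B_pos _).ne'
      have k1 := (e u.2.2.2.1 v.2.2.2.1).div ((hc (b := v.1) (hBd u.1)).pow 2)
        (by simp [hne])
      refine (k1.congr_deriv ?_).congr_of_eventuallyEq (Eventually.of_forall fun r => ?_)
      · simp
        field_simp
      · rfl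
    exact d1.prodMk (d2.prodMk ((hasDerivAt_const (0 : ℝ) (0 : ℝ)).prodMk
      ((hasDerivAt_const (0 : ℝ) (0 : ℝ)).prodMk (d5.prodMk d6))))
  exact h1.unique h2

/-- `(t₀, x₀, P, Q) ↦ (t₀, x₀, P, Q, 0, 0)`. -/
def iota : E4 →L[ℝ] E6 := LinearMap.toContinuousLinearMap
  { toFun := fun e => (e.1, e.2.1, e.2.2.1, e.2.2.2, 0, 0)
    map_add' := fun a b => by simp
    map_smul' := fun c a => by simp }

@[simp] theorem iota_apply (e : E4) : iota e = (e.1, e.2.1, e.2.2.1, e.2.2.2, 0, 0) := rfl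

/-- `(e, u) ↦ (e.1, t, p, q)`. -/
def pr : E4 × E6 →L[ℝ] E4 := LinearMap.toContinuousLinearMap
  { toFun := fun e => (e.1.1, e.2.1, e.2.2.2.2.2.1, e.2.2.2.2.2.2)
    map_add' := fun _ _ => rfl
    map_smul' := fun _ _ => rfl }

@[simp] theorem pr_apply (e : E4 × E6) : pr e = (e.1.1, e.2.1, e.2.2.2.2.2.1, e.2.2.2.2.2.2) := rfl

theorem exists_bounds : ∃ M : ℝ, 1 ≤ M ∧ (∀ t, W.A t ≤ M) ∧ (∀ t, 1 / W.A t ≤ M) ∧
    (∀ t, W.B t ≤ M) ∧ ∀ t, 1 / W.B t ≤ M := by
  have hell : W.ell ≠ 0 := W.ell_pos.ne'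
  have hAc : Continuous fun t => 1 / W.A t :=
    continuous_const.div W.A_smooth.continuous fun t => (W.A_pos t).ne'
  have hBc : Continuous fun t => 1 / W.B t :=
    continuous_const.div W.B_smooth.continuous fun t => (W.B_pos t).ne'
  obtain ⟨M1, h1⟩ := bound_of_periodic W.A_smooth.continuous hell W.A_per
  obtain ⟨M2, h2⟩ := bound_of_periodic hAc hell fun t => by rw [W.A_per]
  obtain ⟨M3, h3⟩ := bound_of_periodic W.B_smooth.continuous hell W.B_per
  obtain ⟨M4, h4⟩ := bound_of_periodic hBc hell fun t => by rw [W.B_per]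
  have p1 := M1.2
  have p2 := M2.2
  have p3 := M3.2
  have p4 := M4.2
  refine ⟨1 + M1 + M2 + M3 + M4, ?_, fun t => ?_, fun t => ?_, fun t => ?_, fun t => ?_⟩
  · linarith
  · have := (le_abs_self _).trans (h1 t)
    linarith
  · have := (le_abs_self _).trans (h2 t)
    linarith
  · have := (le_abs_self _).trans (h3 t)
    linarith
  · have := (le_abs_self _).trans (h4 t)
    linarith

/-- bound for one momentum -/
theorem momentum {P a M : ℝ} (ha : 0 < a) (h : P ^ 2 / a ^ 2 < 1 / 4) (h1 : a ≤ M)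
    (h2 : 1 / a ≤ M) : |P| ≤ M ∧ ‖P / a ^ 2‖ ≤ M := by
  have e1 : |P / a| < 1 / 2 := by
    rw [← div_pow] at h
    exact abs_lt_of_sq_lt_sq (by norm_num; linarith) (by norm_num)
  have e2 : |P| = |P / a| * a := by
    rw [abs_div, abs_of_pos ha]
    field_simp
  have e3 : ‖P / a ^ 2‖ = |P / a| * (1 / a) := by
    rw [Real.norm_eq_abs, abs_div, abs_div, abs_of_pos ha, abs_of_pos (pow_pos ha 2)]
    field_simp
  have e4 : (0 : ℝ) < 1 / a := by positivity
  constructor
  · rw [e2]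
    nlinarith [abs_nonneg (P / a)]
  · rw [e3]
    nlinarith [abs_nonneg (P / a)]

/-- mean value inequality -/
theorem mean {f f' : ℝ → ℝ} {C : ℝ} (hf : ∀ s, HasDerivAt f (f' s) s) (hC : ∀ s, ‖f' s‖ ≤ C)
    {s : ℝ} (hs : |s| ≤ 1) : |f s - f 0| ≤ C := by
  have h1 := (convex_univ (𝕜 := ℝ) (E := ℝ)).norm_image_sub_le_of_norm_hasDerivWithin_le
    (f := f) (f' := f') (C := C) (x := 0) (y := s)
    (fun u _ => (hf u).hasDerivWithinAt) (fun u _ => hC _) (mem_univ _) (mem_univ _)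
  simp only [sub_zero, Real.norm_eq_abs] at h1
  have hC0 : 0 ≤ C := (norm_nonneg _).trans (hC 0)
  nlinarith [abs_nonneg s]

end J2_

open J2_ in
/-- **J2.** -/
theorem j2 (h_nrg : T_nrg) (_h_unique : T_unique) : T_flow := by
  intro W
  obtain ⟨M, hM1, hA, hA', hB, hB'⟩ := exists_bounds W
  have hell := W.ell_pos
  set R : ℝ := W.ell + M + 2 with hR
  have hR0 : 0 < R := by linarith
  let χ : ContDiffBump (0 : E6) := ⟨R, R + 1, hR0, by linarith⟩
  set Y : E6 → E6 := fun u => χ u • field W u with hY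
  have hYc : ContDiff ℝ 2 Y := (χ.contDiff.smul ((field_smooth W).of_le (by norm_cast)))
  have hYs : HasCompactSupport Y := χ.hasCompactSupport.smul_right
  obtain ⟨K₀, hK₀⟩ := (hYc.of_le (by norm_num : (1 : ℕ∞ω) ≤ 2)).lipschitzWith_of_hasCompactSupport
    hYs (by norm_num)
  have hχ : ∀ u : E6, ‖u‖ < R → Y =ᶠ[𝓝 u] field W := by
    intro u hu
    have h1 : (χ : E6 → ℝ) =ᶠ[𝓝 u] 1 := χ.eventuallyEq_one_of_mem_ball (by simpa using hu)
    filter_upwards [h1] with v hv
    simp [hY, hv]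
  obtain ⟨Φ, A, hΦ0, hΦ, hA0, hAd, hAf, hLip⟩ := Knieper.flow_theorem E6 Y hYc hYs
  refine ⟨fun e => pr (e, Φ 1 (iota e)), fun e => rfl, fun e he hn => ?_⟩
  obtain ⟨t₀, x₀, P, Q⟩ := e
  simp only at he hn
  obtain ⟨t, x, p, q, hg, ht0, hx0, hp0, hq0⟩ := exists_geo W P Q t₀ x₀
  -- bounds
  have hen : ∀ s, W.nrg (t s) (x s) P Q < 1 / 4 := fun s => by
    rw [h_nrg W P Q t x p q hg s, ht0, hx0]
    exact hn
  have hnP : ∀ s, P ^ 2 / W.A (t s) ^ 2 < 1 / 4 := fun s => by
    have h1 := hen s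
    unfold Warp.nrg at h1
    have h2 : 0 ≤ Q ^ 2 / W.B (t s) ^ 2 := by positivity
    nlinarith [sq_nonneg (x s)]
  have hnQ : ∀ s, Q ^ 2 / W.B (t s) ^ 2 < 1 / 4 := fun s => by
    have h1 := hen s
    unfold Warp.nrg at h1
    have h2 : 0 ≤ P ^ 2 / W.A (t s) ^ 2 := by positivity
    nlinarith [sq_nonneg (x s)]
  have hnx : ∀ s, ‖x s‖ ≤ 1 / 2 := fun s => by
    have h1 := hen s
    unfold Warp.nrg at h1
    have h2 : 0 ≤ P ^ 2 / W.A (t s) ^ 2 := by positivity
    have h3 : 0 ≤ Q ^ 2 / W.B (t s) ^ 2 := by positivity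
    rw [Real.norm_eq_abs]
    refine abs_le_of_sq_le_sq ?_ (by norm_num)
    nlinarith
  have hPM := fun s => momentum (W.A_pos (t s)) (hnP s) (hA _) (hA' _)
  have hQM := fun s => momentum (W.B_pos (t s)) (hnQ s) (hB _) (hB' _)
  set γ : ℝ → E6 := fun s => (t s, x s, P, Q, p s, q s) with hγ
  have hγR : ∀ s, |s| ≤ 1 → ‖γ s‖ < R := by
    intro s hs
    have b1 := mean hg.ht hnx hs
    have b2 := hnx s
    have b3 := mean hg.hp (fun s => (hPM s).2) hs
    have b4 := mean hg.hq (fun s => (hQM s).2) hs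
    rw [ht0] at b1
    rw [hp0, sub_zero] at b3
    rw [hq0, sub_zero] at b4
    have b5 : |t s| ≤ W.ell + 1 := by
      rw [abs_le] at b1 ⊢
      constructor <;> linarith [he.1, he.2]
    simp only [hγ, Prod.norm_mk, max_lt_iff, Real.norm_eq_abs] at b2 ⊢
    have b6 := (hPM 0).1
    have b7 := (hQM 0).1
    refine ⟨?_, ?_, ?_, ?_, ?_, ?_⟩ <;> linarith
  have hγd : ∀ s, HasDerivAt γ (field W (γ s)) s := fun s =>
    (hg.ht s).prodMk ((hg.hx s).prodMk ((hasDerivAt_const s P).prodMk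
      ((hasDerivAt_const s Q).prodMk ((hg.hp s).prodMk (hg.hq s)))))
  -- the flow is the geodesic
  have hflow : ∀ s, |s| ≤ 1 → Φ s (iota (t₀, x₀, P, Q)) = γ s := by
    intro s hs
    have h := Knieper.gronwall_two_sided (u := fun s => Φ s (iota (t₀, x₀, P, Q)) - γ s)
      (u' := fun s => Y (Φ s (iota (t₀, x₀, P, Q))) - field W (γ s)) (K := K₀ + 1) (ε := 0)
      (T := 1) (by positivity) le_rfl (fun s => (hΦ s _).sub (hγd s)) (fun r hr => by
        rw [← (hχ _ (hγR r hr)).eq_of_nhds, add_zero]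
        have := hK₀.dist_le_mul (Φ r (iota (t₀, x₀, P, Q))) (γ r)
        rw [dist_eq_norm, dist_eq_norm] at this
        refine this.trans ?_
        gcongr
        linarith) hs
    have h0 : Φ 0 (iota (t₀, x₀, P, Q)) - γ 0 = 0 := by
      simp [hΦ0, hγ, ht0, hx0, hp0, hq0]
    rw [h0] at h
    simp only [norm_zero, zero_div, add_zero, zero_mul] at h
    exact sub_eq_zero.1 (norm_le_zero_iff.1 h)
  have hstrict : HasStrictFDerivAt (Φ 1) (A 1 (iota (t₀, x₀, P, Q))) (iota (t₀, x₀, P, Q)) := by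
    refine hasStrictFDerivAt_of_hasFDerivAt_of_continuousAt
      (Eventually.of_forall fun y => hAf 1 y) ?_
    obtain ⟨L, hL0, hL⟩ := hLip 1
    have : LipschitzWith L.toNNReal (A 1) := LipschitzWith.of_dist_le_mul fun a b => by
      rw [dist_eq_norm, dist_eq_norm, Real.coe_toNNReal L hL0]
      exact (hL 1 ⟨by norm_num, le_rfl⟩ a b).2
    exact this.continuous.continuousAt
  refine ⟨t, x, p, q, hg, ht0, hx0, hp0, hq0, ?_,
    pr.comp ((ContinuousLinearMap.id ℝ E4).prod ((A 1 (iota (t₀, x₀, P, Q))).comp iota)), ?_, ?_⟩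
  · show pr ((t₀, x₀, P, Q), Φ 1 (iota (t₀, x₀, P, Q))) = _
    rw [hflow 1 (by simp)]
    simp [hγ]
  · have h1 : HasStrictFDerivAt (fun e : E4 => Φ 1 (iota e))
        ((A 1 (iota (t₀, x₀, P, Q))).comp iota) (t₀, x₀, P, Q) :=
      hstrict.comp _ iota.hasStrictFDerivAt
    exact pr.hasStrictFDerivAt.comp _ ((hasStrictFDerivAt_id _).prodMk h1)
  · intro w
    set v : ℝ → E6 := fun s => A s (iota (t₀, x₀, P, Q)) (iota w) with hv
    have hvd : ∀ s, HasDerivAt v (fderiv ℝ Y (Φ s (iota (t₀, x₀, P, Q))) (v s)) s := by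
      intro s
      have := (hAd s (iota (t₀, x₀, P, Q))).clm_apply (hasDerivAt_const s (iota w))
      refine this.congr_deriv ?_
      simp [hv]
    have hvd1 : ∀ s, |s| ≤ 1 → fderiv ℝ Y (Φ s (iota (t₀, x₀, P, Q))) (v s) =
        fderiv ℝ (field W) (γ s) (v s) := by
      intro s hs
      rw [hflow s hs, (hχ _ (hγR s hs)).fderiv_eq]
    have hv0 : v 0 = iota w := by simp [hv, hA0]
    -- the momenta are constant
    have hcP : ∀ s, |s| ≤ 1 → (v s).2.2.1 = w.2.2.1 := by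
      intro s hs
      have h := Knieper.gronwall_two_sided (u := fun s => (v s).2.2.1 - w.2.2.1)
        (u' := fun s => (fderiv ℝ Y (Φ s (iota (t₀, x₀, P, Q))) (v s)).2.2.1) (K := 1) (ε := 0)
        (T := 1) one_pos le_rfl (fun s => ((hvd s).snd.snd.fst).sub_const _) (fun r hr => by
          rw [hvd1 r hr, fderiv_field]
          simp) hs
      simp only [hv0, iota_apply, sub_self, norm_zero, zero_div, add_zero, zero_mul] at h
      exact sub_eq_zero.1 (norm_le_zero_iff.1 h)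
    have hcQ : ∀ s, |s| ≤ 1 → (v s).2.2.2.1 = w.2.2.2 := by
      intro s hs
      have h := Knieper.gronwall_two_sided (u := fun s => (v s).2.2.2.1 - w.2.2.2)
        (u' := fun s => (fderiv ℝ Y (Φ s (iota (t₀, x₀, P, Q))) (v s)).2.2.2.1) (K := 1) (ε := 0)
        (T := 1) one_pos le_rfl (fun s => ((hvd s).snd.snd.snd.fst).sub_const _) (fun r hr => by
          rw [hvd1 r hr, fderiv_field]
          simp) hs
      simp only [hv0, iota_apply, sub_self, norm_zero, zero_div, add_zero, zero_mul] at h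
      exact sub_eq_zero.1 (norm_le_zero_iff.1 h)
    have habs : ∀ s ∈ Icc (0 : ℝ) 1, |s| ≤ 1 := fun s hs => by
      rw [abs_of_nonneg hs.1]
      exact hs.2
    refine ⟨fun s => (v s).1, fun s => (v s).2.1, fun s => (v s).2.2.2.2.1,
      fun s => (v s).2.2.2.2.2, ⟨fun s hs => ?_, fun s hs => ?_, fun s hs => ?_, fun s hs => ?_⟩,
      ?_, ?_, ?_, ?_, ?_⟩
    · have h1 := hvd s
      rw [hvd1 s (habs s hs), fderiv_field] at h1
      exact h1.fst
    · have h1 := hvd s
      rw [hvd1 s (habs s hs), fderiv_field, hcP s (habs s hs), hcQ s (habs s hs)] at h1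
      exact h1.snd.fst
    · have h1 := hvd s
      rw [hvd1 s (habs s hs), fderiv_field, hcP s (habs s hs)] at h1
      exact h1.snd.snd.snd.snd.fst
    · have h1 := hvd s
      rw [hvd1 s (habs s hs), fderiv_field, hcQ s (habs s hs)] at h1
      exact h1.snd.snd.snd.snd.snd
    · simp [hv0]
    · simp [hv0]
    · simp [hv0]
    · simp [hv0]
    · rfl

end Pool.Agent.Emb
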