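import Pool.Agent.Emb.Targets

/-!
# J3a: the abstract closest pair argument
-/

namespace Pool.Agent.Emb

open Set Filter Topology

namespace J3a_

/-- A function of one variable with negative derivative decreases to the right. -/
theorem decr {f : ℝ → ℝ} {f' : ℝ} (h : HasDerivAt f f' 0) (hf : f' < 0) :
    ∀ᶠ s in 𝓝[>] (0 : ℝ), f s < f 0 := by
  have h1 := hasDerivAt_iff_tendsto_slope.1 h
  have h2 : ∀ᶠ s in 𝓝[≠] (0 : ℝ), slope f 0 s < 0 := h1.eventually_lt_const hf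
  have h3 : ∀ᶠ s in 𝓝[>] (0 : ℝ), slope f 0 s < 0 :=
    h2.filter_mono (nhdsWithin_mono _ fun x hx => ne_of_gt hx)
  filter_upwards [h3, self_mem_nhdsWithin] with s hs hs0
  have hs0' : (0 : ℝ) < s := hs0
  rw [slope_def_field, div_lt_iff₀ (by linarith)] at hs
  linarith

end J3a_

open J3a_ in
theorem j3a : T_closest := by
  intro Ψ N ell r hK hN hΨ1 D hD hu
  set K : Set E4 := {e : E4 | e.1 ∈ Icc 0 ell ∧ N e ≤ r} with hKdef
  by_contra hinj
  have hcont : ∀ e ∈ K, ContinuousAt Ψ e := fun e he => (hD e he.1 he.2).continuousAt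
  set S : Set (E4 × E4) := {p | p.1 ∈ K ∧ p.2 ∈ K ∧ p.1 ≠ p.2 ∧ Ψ p.1 = Ψ p.2} with hS
  have hSne : S.Nonempty := by
    unfold InjOn at hinj
    push Not at hinj
    obtain ⟨a, ha, b, hb, hab, hne⟩ := hinj
    exact ⟨(a, b), ha, hb, hne, hab⟩
  have hSc : IsClosed S := by
    apply isClosed_of_closure_subset
    intro p hp
    have hsub : S ⊆ K ×ˢ K := fun q hq => ⟨hq.1, hq.2.1⟩
    have hpK : p ∈ K ×ˢ K := closure_minimal hsub (hK.prod hK).isClosed hp
    have hne : (𝓝[S] p).NeBot := mem_closure_iff_nhdsWithin_neBot.1 hp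
    have e1 : Tendsto (fun q : E4 × E4 => Ψ q.1) (𝓝[S] p) (𝓝 (Ψ p.1)) :=
      ((hcont _ hpK.1).tendsto.comp continuous_fst.continuousAt).mono_left nhdsWithin_le_nhds
    have e2 : Tendsto (fun q : E4 × E4 => Ψ q.2) (𝓝[S] p) (𝓝 (Ψ p.2)) :=
      ((hcont _ hpK.2).tendsto.comp continuous_snd.continuousAt).mono_left nhdsWithin_le_nhds
    have e3 : Ψ p.1 = Ψ p.2 := by
      refine tendsto_nhds_unique_of_eventuallyEq e1 e2 ?_
      filter_upwards [self_mem_nhdsWithin] with q hq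
      exact hq.2.2.2
    refine ⟨hpK.1, hpK.2, ?_, e3⟩
    intro heq
    have hst := hD p.1 hpK.1.1 hpK.1.2
    have hopen := hst.toOpenPartialHomeomorph Ψ |>.open_source
    have hmem : p.1 ∈ (hst.toOpenPartialHomeomorph Ψ).source :=
      hst.mem_toOpenPartialHomeomorph_source
    have hinj2 := (hst.toOpenPartialHomeomorph Ψ).injOn
    set U := (hst.toOpenPartialHomeomorph Ψ).source with hU
    have hUU : U ×ˢ U ∈ 𝓝 p := by
      refine prod_mem_nhds (hopen.mem_nhds hmem) ?_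
      rw [← heq]
      exact hopen.mem_nhds hmem
    obtain ⟨q, hq1, hq2⟩ := mem_closure_iff_nhds.1 hp _ hUU
    exact hq2.2.2.1 (hinj2 hq1.1 hq1.2 hq2.2.2.2)
  have hScomp : IsCompact S := (hK.prod hK).of_isClosed_subset hSc fun q hq => ⟨hq.1, hq.2.1⟩
  obtain ⟨⟨a, b⟩, hab, hmin⟩ := hScomp.exists_isMinOn hSne
    (f := fun p => max (N p.1) (N p.2))
    ((hN.continuous.comp continuous_fst).max (hN.continuous.comp continuous_snd)).continuousOn
  obtain ⟨ha, hb, hne, hΨ⟩ := hab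
  simp only at ha hb hne hΨ
  obtain ⟨u, hu0, hua, hub⟩ := hu a b ha.1 ha.2 hb.1 hb.2 hne hΨ
  have key : ∀ c ∈ K, fderiv ℝ N c ((D c).symm u) < 0 → ∃ α : ℝ → E4, ContinuousAt α 0 ∧
      α 0 = c ∧ ∀ᶠ s in 𝓝[>] (0 : ℝ), Ψ (α s) = Ψ c + s • u ∧ N (α s) < N c ∧ (α s).1 = c.1 := by
    intro c hc hd
    have hst := hD c hc.1 hc.2
    have hli := hst.to_localInverse
    have hl0 : hst.localInverse Ψ (D c) c (Ψ c) = c := hst.localInverse_apply_image
    have hri := hst.eventually_right_inverse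
    have hlin : HasDerivAt (fun s : ℝ => Ψ c + s • u) u 0 := by
      simpa using ((hasDerivAt_id (0 : ℝ)).smul_const u).const_add (Ψ c)
    have hlin0 : (fun s : ℝ => Ψ c + s • u) 0 = Ψ c := by simp
    have hα : HasDerivAt (fun s : ℝ => hst.localInverse Ψ (D c) c (Ψ c + s • u))
        ((D c).symm u) 0 := by
      have h1 : HasFDerivAt (hst.localInverse Ψ (D c) c) ((D c).symm : E4 →L[ℝ] E4)
          ((fun s : ℝ => Ψ c + s • u) 0) := by
        rw [hlin0]; exact hli.hasFDerivAt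
      exact h1.comp_hasDerivAt (0 : ℝ) hlin
    have hα0 : hst.localInverse Ψ (D c) c (Ψ c + (0 : ℝ) • u) = c := by
      rw [zero_smul, add_zero, hl0]
    refine ⟨fun s : ℝ => hst.localInverse Ψ (D c) c (Ψ c + s • u), hα.continuousAt, hα0, ?_⟩
    have hNα : HasDerivAt (fun s : ℝ => N (hst.localInverse Ψ (D c) c (Ψ c + s • u)))
        (fderiv ℝ N c ((D c).symm u)) 0 := by
      have h1 : HasFDerivAt N (fderiv ℝ N c)
          ((fun s : ℝ => hst.localInverse Ψ (D c) c (Ψ c + s • u)) 0) := by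
        simp only [hα0]; exact (hN c).hasFDerivAt
      exact h1.comp_hasDerivAt (0 : ℝ) hα
    have hdec := decr hNα hd
    have htend : Tendsto (fun s : ℝ => Ψ c + s • u) (𝓝[>] 0) (𝓝 (Ψ c)) := by
      have h5 := hlin.continuousAt.tendsto
      simp only [zero_smul, add_zero] at h5
      exact h5.mono_left nhdsWithin_le_nhds
    filter_upwards [hdec, htend.eventually hri] with s hs1 hs2
    refine ⟨hs2, ?_, ?_⟩
    · simpa only [hα0] using hs1
    · have h1 := hΨ1 (hst.localInverse Ψ (D c) c (Ψ c + s • u))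
      rw [← h1, hs2, Prod.fst_add, Prod.smul_fst, hu0, smul_zero, add_zero, hΨ1]
  obtain ⟨α, hα, hα0, hαe⟩ := key a ha hua
  obtain ⟨β, hβ, hβ0, hβe⟩ := key b hb hub
  have hdiff : ∀ᶠ s in 𝓝[>] (0 : ℝ), α s ≠ β s := by
    have h1 : ∀ᶠ s in 𝓝 (0 : ℝ), α s ≠ β s := by
      have h6 : Tendsto (fun s => (α s, β s)) (𝓝 0) (𝓝 (a, b)) := by
        have := hα.tendsto.prodMk_nhds hβ.tendsto
        rwa [hα0, hβ0] at this
      have h7 : IsOpen {p : E4 × E4 | p.1 ≠ p.2} :=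
        (isClosed_eq continuous_fst continuous_snd).isOpen_compl
      exact h6.eventually (h7.mem_nhds hne)
    exact h1.filter_mono nhdsWithin_le_nhds
  obtain ⟨s, ⟨h1, h2, h3⟩, ⟨k1, k2, k3⟩, hd⟩ := (hαe.and (hβe.and hdiff)).exists
  have hmem : (α s, β s) ∈ S := by
    refine ⟨⟨?_, ?_⟩, ⟨?_, ?_⟩, hd, ?_⟩
    · show (α s).1 ∈ Icc 0 ell
      rw [h3]; exact ha.1
    · show N (α s) ≤ r
      exact h2.le.trans ha.2
    · show (β s).1 ∈ Icc 0 ell
      rw [k3]; exact hb.1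
    · show N (β s) ≤ r
      exact k2.le.trans hb.2
    · show Ψ (α s) = Ψ (β s)
      rw [h1, k1, hΨ]
  have hle := hmin hmem
  have hle : max (N a) (N b) ≤ max (N (α s)) (N (β s)) := hle
  have hlt : max (N (α s)) (N (β s)) < max (N a) (N b) :=
    max_lt_max h2 k2
  exact absurd hle (not_le.2 hlt)

end Pool.Agent.Emb
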