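import Pool.Agent.Emb.Targets

/-!
# Short geodesics with the same ends are equal (block J3b)
-/

namespace Pool.Agent.Emb

open scoped ContDiff Real
open Set Real

namespace J3b_

variable (W : Warp)

/-- The square of the speed as a function on `E4`. -/
noncomputable def NN (e : E4) : ℝ := W.nrg e.1 e.2.1 e.2.2.1 e.2.2.2

theorem A_diff : Differentiable ℝ W.A := W.A_smooth.differentiable (by simp)

theorem B_diff : Differentiable ℝ W.B := W.B_smooth.differentiable (by simp)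

theorem NN_diff : Differentiable ℝ (NN W) := by
  have hA := A_diff W
  have hB := B_diff W
  have h1 : Differentiable ℝ fun e : E4 => W.A e.1 ^ 2 := by fun_prop
  have h2 : Differentiable ℝ fun e : E4 => W.B e.1 ^ 2 := by fun_prop
  have h3 : Differentiable ℝ fun e : E4 => e.2.2.1 ^ 2 / W.A e.1 ^ 2 := by
    have h : Differentiable ℝ fun e : E4 => e.2.2.1 ^ 2 := by fun_prop
    have h' : Differentiable ℝ fun e : E4 => (W.A e.1 ^ 2)⁻¹ :=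
      h1.inv fun e : E4 => (pow_pos (W.A_pos e.1) 2).ne'
    simpa only [div_eq_mul_inv] using h.fun_mul h'
  have h4 : Differentiable ℝ fun e : E4 => e.2.2.2 ^ 2 / W.B e.1 ^ 2 := by
    have h : Differentiable ℝ fun e : E4 => e.2.2.2 ^ 2 := by fun_prop
    have h' : Differentiable ℝ fun e : E4 => (W.B e.1 ^ 2)⁻¹ :=
      h2.inv fun e : E4 => (pow_pos (W.B_pos e.1) 2).ne'
    simpa only [div_eq_mul_inv] using h.fun_mul h'
  have h5 : Differentiable ℝ fun e : E4 => e.2.1 ^ 2 := by fun_prop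
  exact (h5.add h3).add h4

theorem nrg_nonneg (t x P Q : ℝ) : 0 ≤ W.nrg t x P Q := by
  unfold Warp.nrg
  positivity

theorem fderiv_NN (e w : E4) (hw : w.1 = 0) : fderiv ℝ (NN W) e w =
    2 * (e.2.1 * w.2.1 + e.2.2.1 * w.2.2.1 / W.A e.1 ^ 2 + e.2.2.2 * w.2.2.2 / W.B e.1 ^ 2) := by
  have h1 : HasDerivAt (fun s : ℝ => e + s • w) w 0 := by
    have h2 : HasDerivAt (fun s : ℝ => s • w) ((1 : ℝ) • w) 0 := (hasDerivAt_id 0).smul_const w
    rw [one_smul] at h2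
    exact h2.const_add e
  have h3 : HasDerivAt (fun s : ℝ => NN W (e + s • w)) (fderiv ℝ (NN W) e w) 0 := by
    have h4 := (NN_diff W e).hasFDerivAt
    have h5 : e = e + (0 : ℝ) • w := by simp
    rw [h5] at h4
    have h6 := h4.comp_hasDerivAt (0 : ℝ) h1
    rw [← h5] at h6
    exact h6
  have h7 : (fun s : ℝ => NN W (e + s • w)) = fun s : ℝ =>
      (e.2.1 + s * w.2.1) ^ 2 + (e.2.2.1 + s * w.2.2.1) ^ 2 / W.A e.1 ^ 2
        + (e.2.2.2 + s * w.2.2.2) ^ 2 / W.B e.1 ^ 2 := by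
    funext s
    simp only [NN, Warp.nrg, Prod.fst_add, Prod.snd_add, Prod.smul_fst, Prod.smul_snd, hw,
      smul_eq_mul, mul_zero, add_zero]
  have h8 : ∀ a b : ℝ, HasDerivAt (fun s : ℝ => (a + s * b) ^ 2) (2 * a * b) 0 := by
    intro a b
    have h9 : HasDerivAt (fun s : ℝ => a + s * b) b 0 := by
      have := ((hasDerivAt_id (0 : ℝ)).mul_const b).const_add a
      simpa using this
    have h10 := h9.fun_pow 2
    simpa using h10
  have h11 := ((h8 e.2.1 w.2.1).add ((h8 e.2.2.1 w.2.2.1).div_const (W.A e.1 ^ 2))).add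
    ((h8 e.2.2.2 w.2.2.2).div_const (W.B e.1 ^ 2))
  rw [h7] at h3
  rw [h3.unique h11]
  ring

theorem compact_K (r : ℝ) : IsCompact {e : E4 | e.1 ∈ Icc 0 W.ell ∧ NN W e ≤ r} := by
  obtain ⟨MA, hMA⟩ := isCompact_Icc.bddAbove_image (K := Icc 0 W.ell)
    (A_diff W).continuous.continuousOn
  obtain ⟨MB, hMB⟩ := isCompact_Icc.bddAbove_image (K := Icc 0 W.ell)
    (B_diff W).continuous.continuousOn
  have hsub : {e : E4 | e.1 ∈ Icc 0 W.ell ∧ NN W e ≤ r} ⊆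
      Icc 0 W.ell ×ˢ (Icc (-(1 + r)) (1 + r) ×ˢ
        (Icc (-((1 + r) * MA)) ((1 + r) * MA) ×ˢ Icc (-((1 + r) * MB)) ((1 + r) * MB))) := by
    rintro ⟨t, x, P, Q⟩ ⟨ht, hN⟩
    change t ∈ Icc 0 W.ell at ht
    change x ^ 2 + P ^ 2 / W.A t ^ 2 + Q ^ 2 / W.B t ^ 2 ≤ r at hN
    have hA := W.A_pos t
    have hB := W.B_pos t
    have hA' : W.A t ≤ MA := hMA (mem_image_of_mem _ ht)
    have hB' : W.B t ≤ MB := hMB (mem_image_of_mem _ ht)
    have h1 : 0 ≤ P ^ 2 / W.A t ^ 2 := by positivity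
    have h2 : 0 ≤ Q ^ 2 / W.B t ^ 2 := by positivity
    have h3 : 0 ≤ x ^ 2 := sq_nonneg x
    have hr : 0 ≤ r := by linarith
    have key : ∀ y : ℝ, y ^ 2 ≤ r → |y| ≤ 1 + r := by
      intro y hy
      refine abs_le_of_sq_le_sq ?_ (by linarith)
      nlinarith
    have hx := abs_le.1 (key x (by linarith))
    have hP : |P / W.A t| ≤ 1 + r := key _ (by rw [div_pow]; linarith)
    have hQ : |Q / W.B t| ≤ 1 + r := key _ (by rw [div_pow]; linarith)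
    rw [abs_div, abs_of_pos hA, div_le_iff₀ hA] at hP
    rw [abs_div, abs_of_pos hB, div_le_iff₀ hB] at hQ
    have hP' : |P| ≤ (1 + r) * MA := hP.trans (by gcongr)
    have hQ' : |Q| ≤ (1 + r) * MB := hQ.trans (by gcongr)
    exact ⟨ht, hx, abs_le.1 hP', abs_le.1 hQ'⟩
  refine IsCompact.of_isClosed_subset
    (isCompact_Icc.prod (isCompact_Icc.prod (isCompact_Icc.prod isCompact_Icc))) ?_ hsub
  exact (isClosed_Icc.preimage continuous_fst).inter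
    (isClosed_le (NN_diff W).continuous continuous_const)

theorem mvt {p t : ℝ → ℝ} {P : ℝ} {A : ℝ → ℝ} (hA : ∀ t, 0 < A t)
    (hp : ∀ s, HasDerivAt p (P / A (t s) ^ 2) s) : ∃ a : ℝ, 0 < a ∧ P = (p 1 - p 0) * a := by
  obtain ⟨c, -, hc⟩ := exists_hasDerivAt_eq_slope p (fun s => P / A (t s) ^ 2)
    (zero_lt_one' ℝ) (fun s _ => (hp s).continuousAt.continuousWithinAt) (fun s _ => hp s)
  refine ⟨A (t c) ^ 2, pow_pos (hA _) 2, ?_⟩
  rw [sub_zero, div_one] at hc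
  rw [← hc]
  field_simp [(hA (t c)).ne']

/-- The derivative of the flow is invertible. -/
theorem exists_equiv (h_jac : T_jacobi) (h_first : T_first) {Ψ : E4 → E4} {e : E4}
    (hN : NN W e < 1 / 4) {t x p q : ℝ → ℝ} (hg : W.IsGeo e.2.2.1 e.2.2.2 t x p q)
    (ht : t 0 = e.1) (hx : x 0 = e.2.1) {D : E4 →L[ℝ] E4} (hD : HasStrictFDerivAt Ψ D e)
    (hvar : ∀ w : E4, ∃ h y k l : ℝ → ℝ,
        W.IsVar e.2.2.1 e.2.2.2 t w.2.2.1 w.2.2.2 h y k l ∧ h 0 = w.1 ∧ y 0 = w.2.1 ∧ k 0 = 0 ∧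
        l 0 = 0 ∧ D w = (w.1, h 1, k 1, l 1)) :
    ∃ D' : E4 ≃L[ℝ] E4, HasStrictFDerivAt Ψ (D' : E4 →L[ℝ] E4) e ∧ ∀ u : E4, u.1 = 0 →
      fderiv ℝ (NN W) e (D'.symm u) =
        2 * (x 1 * u.2.1 + e.2.2.1 * u.2.2.1 + e.2.2.2 * u.2.2.2) := by
  have hN' : W.nrg (t 0) (x 0) e.2.2.1 e.2.2.2 < 1 / 4 := by
    rw [ht, hx]
    exact hN
  have hinj : Function.Injective D := by
    rw [injective_iff_map_eq_zero]
    intro w hw
    obtain ⟨h, y, k, l, hv, h0, y0, k0, l0, hDw⟩ := hvar w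
    rw [hw] at hDw
    have e1 : w.1 = 0 := (congrArg Prod.fst hDw).symm
    have e2 : h 1 = 0 := (congrArg (fun z : E4 => z.2.1) hDw).symm
    have e3 : k 1 = 0 := (congrArg (fun z : E4 => z.2.2.1) hDw).symm
    have e4 : l 1 = 0 := (congrArg (fun z : E4 => z.2.2.2) hDw).symm
    obtain ⟨a1, a2, a3⟩ := h_jac W _ _ t x p q hg hN' _ _ h y k l hv (h0.trans e1) k0 l0 e2 e3 e4
    exact Prod.ext e1 (Prod.ext (y0.symm.trans a1) (Prod.ext a2 a3))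
  let L : E4 ≃ₗ[ℝ] E4 := LinearEquiv.ofInjectiveEndo (D : E4 →ₗ[ℝ] E4) hinj
  let D' : E4 ≃L[ℝ] E4 := L.toContinuousLinearEquiv
  have hD' : (D' : E4 →L[ℝ] E4) = D := by
    rfl
  refine ⟨D', hD' ▸ hD, fun u hu => ?_⟩
  set w := D'.symm u with hw
  have hDw : D w = u := by
    rw [← hD']
    exact D'.apply_symm_apply u
  obtain ⟨h, y, k, l, hv, h0, y0, k0, l0, hDw'⟩ := hvar w
  rw [hDw] at hDw'
  have e1 : w.1 = 0 := by
    rw [← hu, hDw']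
  rw [fderiv_NN W e w e1]
  have h3 := h_first W _ _ t x p q hg _ _ h y k l hv (h0.trans e1) k0 l0
  have e2 : h 1 = u.2.1 := by rw [hDw']
  have e3 : k 1 = u.2.2.1 := by rw [hDw']
  have e4 : l 1 = u.2.2.2 := by rw [hDw']
  rw [e2, e3, e4, y0, hx, ht] at h3
  rw [h3]

/-- Geodesics with vanishing momenta are affine. -/
theorem affine {t x p q : ℝ → ℝ} (hg : W.IsGeo 0 0 t x p q) : t 1 = t 0 + x 0 := by
  have hx : ∀ s, x s = x 0 := by
    have hd : ∀ s, HasDerivAt x 0 s := by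
      intro s
      have := hg.hx s
      simpa [Warp.force] using this
    intro s
    exact is_const_of_deriv_eq_zero (fun s => (hd s).differentiableAt) (fun s => (hd s).deriv) s 0
  obtain ⟨c, -, hc⟩ := exists_hasDerivAt_eq_slope t x
    (zero_lt_one' ℝ) (fun s _ => (hg.ht s).continuousAt.continuousWithinAt) (fun s _ => hg.ht s)
  rw [sub_zero, div_one, hx c] at hc
  linarith

theorem injOn (h_jac : T_jacobi) (h_first : T_first) (h_closest : T_closest) {Ψ : E4 → E4}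
    (hΨ1 : ∀ e, (Ψ e).1 = e.1)
    (hΨ : ∀ e : E4, e.1 ∈ Icc 0 W.ell → W.nrg e.1 e.2.1 e.2.2.1 e.2.2.2 < 1 / 4 →
      ∃ t x p q : ℝ → ℝ, W.IsGeo e.2.2.1 e.2.2.2 t x p q ∧ t 0 = e.1 ∧ x 0 = e.2.1 ∧ p 0 = 0 ∧
      q 0 = 0 ∧ Ψ e = (e.1, t 1, p 1, q 1) ∧
      ∃ D : E4 →L[ℝ] E4, HasStrictFDerivAt Ψ D e ∧ ∀ w : E4, ∃ h y k l : ℝ → ℝ,
        W.IsVar e.2.2.1 e.2.2.2 t w.2.2.1 w.2.2.2 h y k l ∧ h 0 = w.1 ∧ y 0 = w.2.1 ∧ k 0 = 0 ∧
        l 0 = 0 ∧ D w = (w.1, h 1, k 1, l 1))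
    {r : ℝ} (hr : r < 1 / 4) : InjOn Ψ {e : E4 | e.1 ∈ Icc 0 W.ell ∧ NN W e ≤ r} := by
  classical
  have hex : ∀ e : E4, ∃ D : E4 ≃L[ℝ] E4, e.1 ∈ Icc 0 W.ell → NN W e ≤ r →
      HasStrictFDerivAt Ψ (D : E4 →L[ℝ] E4) e ∧ ∃ t x p q : ℝ → ℝ,
        W.IsGeo e.2.2.1 e.2.2.2 t x p q ∧ t 0 = e.1 ∧ x 0 = e.2.1 ∧ p 0 = 0 ∧
        q 0 = 0 ∧ Ψ e = (e.1, t 1, p 1, q 1) ∧ ∀ u : E4, u.1 = 0 →
        fderiv ℝ (NN W) e (D.symm u) =
          2 * (x 1 * u.2.1 + e.2.2.1 * u.2.2.1 + e.2.2.2 * u.2.2.2) := by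
    intro e
    by_cases he : e.1 ∈ Icc 0 W.ell ∧ NN W e ≤ r
    · obtain ⟨t, x, p, q, hg, h1, h2, h3, h4, h5, D, hD, hvar⟩ := hΨ e he.1 (he.2.trans_lt hr)
      obtain ⟨D', hD', h6⟩ := exists_equiv W h_jac h_first (he.2.trans_lt hr) hg h1 h2 hD hvar
      exact ⟨D', fun _ _ => ⟨hD', t, x, p, q, hg, h1, h2, h3, h4, h5, h6⟩⟩
    · exact ⟨ContinuousLinearEquiv.refl ℝ E4, fun h1 h2 => absurd ⟨h1, h2⟩ he⟩
  choose D hD using hex
  refine h_closest Ψ (NN W) W.ell r (compact_K W r) (NN_diff W) hΨ1 D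
    (fun e h1 h2 => (hD e h1 h2).1) ?_
  intro e₁ e₂ h1 h1' h2 h2' hne hΨe
  obtain ⟨-, t₁, x₁, p₁, q₁, hg₁, ht₁, hx₁, hp₁, hq₁, hΨ₁, hf₁⟩ := hD e₁ h1 h1'
  obtain ⟨-, t₂, x₂, p₂, q₂, hg₂, ht₂, hx₂, hp₂, hq₂, hΨ₂, hf₂⟩ := hD e₂ h2 h2'
  rw [hΨ₁, hΨ₂] at hΨe
  simp only [Prod.mk.injEq] at hΨe
  obtain ⟨E1, E2, E3, E4'⟩ := hΨe
  obtain ⟨a₁, ha₁, hP₁⟩ := mvt W.A_pos hg₁.hp
  obtain ⟨a₂, ha₂, hP₂⟩ := mvt W.A_pos hg₂.hp
  obtain ⟨b₁, hb₁, hQ₁⟩ := mvt W.B_pos hg₁.hq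
  obtain ⟨b₂, hb₂, hQ₂⟩ := mvt W.B_pos hg₂.hq
  rw [hp₁, sub_zero] at hP₁
  rw [hp₂, sub_zero, ← E3] at hP₂
  rw [hq₁, sub_zero] at hQ₁
  rw [hq₂, sub_zero, ← E4'] at hQ₂
  by_cases hp : p₁ 1 = 0
  · by_cases hq : q₁ 1 = 0
    · exfalso
      rw [hp, zero_mul] at hP₁ hP₂
      rw [hq, zero_mul] at hQ₁ hQ₂
      rw [hP₁, hQ₁] at hg₁
      rw [hP₂, hQ₂] at hg₂
      have A1 := affine W hg₁
      have A2 := affine W hg₂
      apply hne
      refine Prod.ext E1 (Prod.ext ?_ (Prod.ext (hP₁.trans hP₂.symm) (hQ₁.trans hQ₂.symm)))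
      rw [← hx₁, ← hx₂]
      rw [ht₁] at A1
      rw [ht₂] at A2
      linarith
    · refine ⟨(0, 0, 0, -q₁ 1), rfl, ?_, ?_⟩
      · rw [hf₁ _ rfl, hQ₁]
        have : 0 < q₁ 1 * q₁ 1 * b₁ := mul_pos (mul_self_pos.2 hq) hb₁
        simp only [mul_zero, zero_add]
        nlinarith
      · rw [hf₂ _ rfl, hQ₂]
        have : 0 < q₁ 1 * q₁ 1 * b₂ := mul_pos (mul_self_pos.2 hq) hb₂
        simp only [mul_zero, zero_add]
        nlinarith
  · refine ⟨(0, 0, -p₁ 1, 0), rfl, ?_, ?_⟩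
    · rw [hf₁ _ rfl, hP₁]
      have : 0 < p₁ 1 * p₁ 1 * a₁ := mul_pos (mul_self_pos.2 hp) ha₁
      simp only [mul_zero, zero_add, add_zero]
      nlinarith
    · rw [hf₂ _ rfl, hP₂]
      have : 0 < p₁ 1 * p₁ 1 * a₂ := mul_pos (mul_self_pos.2 hp) ha₂
      simp only [mul_zero, zero_add, add_zero]
      nlinarith

theorem A_shift (n : ℤ) (t : ℝ) : W.A (t - n * W.ell) = W.A t := by
  have h : Function.Periodic W.A W.ell := W.A_per
  simpa using h.sub_zsmul_eq (x := t) n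

theorem B_shift (n : ℤ) (t : ℝ) : W.B (t - n * W.ell) = W.B t := by
  have h : Function.Periodic W.B W.ell := W.B_per
  simpa using h.sub_zsmul_eq (x := t) n

theorem dA_shift (n : ℤ) (t : ℝ) : deriv W.A (t - n * W.ell) = deriv W.A t := by
  have h : (fun t => W.A (t - n * W.ell)) = W.A := funext (A_shift W n)
  rw [← deriv_comp_sub_const, h]

theorem dB_shift (n : ℤ) (t : ℝ) : deriv W.B (t - n * W.ell) = deriv W.B t := by
  have h : (fun t => W.B (t - n * W.ell)) = W.B := funext (B_shift W n)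
  rw [← deriv_comp_sub_const, h]

/-- Shifting a geodesic. -/
theorem shift {P Q : ℝ} {t x p q : ℝ → ℝ} (hg : W.IsGeo P Q t x p q) (n : ℤ) (a b : ℝ) :
    W.IsGeo P Q (fun s => t s - n * W.ell) x (fun s => p s - a) (fun s => q s - b) where
  ht s := (hg.ht s).sub_const _
  hx s := by
    have := hg.hx s
    unfold Warp.force at this ⊢
    rw [A_shift, B_shift, dA_shift, dB_shift]
    exact this
  hp s := by
    rw [A_shift]
    exact (hg.hp s).sub_const _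
  hq s := by
    rw [B_shift]
    exact (hg.hq s).sub_const _

end J3b_

open J3b_ in
/-- Two geodesics of length less than `1/2` with the same ends are equal. -/
theorem j3b (h_nrg : T_nrg) (h_unique : T_unique) (h_jac : T_jacobi) (h_first : T_first)
    (h_flow : T_flow) (h_closest : T_closest) : T_short := by
  intro W P₁ Q₁ P₂ Q₂ t₁ x₁ p₁ q₁ t₂ x₂ p₂ q₂ hg₁ hg₂ hn₁ hn₂ ht0 hp0 hq0 ht1 hp1 hq1
  have _ := h_nrg
  obtain ⟨Ψ, hΨ1, hΨ⟩ := h_flow W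
  have hinj := injOn W h_jac h_first h_closest hΨ1 hΨ
    (r := max (W.nrg (t₁ 0) (x₁ 0) P₁ Q₁) (W.nrg (t₂ 0) (x₂ 0) P₂ Q₂)) (max_lt hn₁ hn₂)
  set n : ℤ := ⌊t₁ 0 / W.ell⌋ with hn
  have hn' : t₁ 0 - n * W.ell ∈ Icc 0 W.ell := by
    have h1 := Int.floor_le (t₁ 0 / W.ell)
    have h2 := Int.lt_floor_add_one (t₁ 0 / W.ell)
    rw [le_div_iff₀ W.ell_pos] at h1
    rw [div_lt_iff₀ W.ell_pos] at h2
    constructor
    · linarith
    · rw [add_mul] at h2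
      linarith
  have key : ∀ (P Q : ℝ) (t x p q : ℝ → ℝ), W.IsGeo P Q t x p q →
      W.nrg (t 0) (x 0) P Q < 1 / 4 → t 0 - n * W.ell ∈ Icc 0 W.ell →
      Ψ (t 0 - n * W.ell, x 0, P, Q) =
        (t 0 - n * W.ell, t 1 - n * W.ell, p 1 - p 0, q 1 - q 0) := by
    intro P Q t x p q hg hn ht
    have hs := shift W hg n (p 0) (q 0)
    have hnn : W.nrg (t 0 - n * W.ell) (x 0) P Q = W.nrg (t 0) (x 0) P Q := by
      unfold Warp.nrg
      rw [A_shift, B_shift]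
    obtain ⟨t', x', p', q', hg', a1, a2, a3, a4, a5, -⟩ := hΨ (t 0 - n * W.ell, x 0, P, Q) ht (by
      change W.nrg (t 0 - n * W.ell) (x 0) P Q < 1 / 4
      rw [hnn]
      exact hn)
    change W.IsGeo P Q t' x' p' q' at hg'
    obtain ⟨b1, -, b3, b4⟩ := h_unique W P Q _ _ _ _ _ _ _ _ hg' hs a1 a2
      (a3.trans (sub_self _).symm) (a4.trans (sub_self _).symm)
    rw [a5, b1, b3, b4]
  have k1 := key _ _ _ _ _ _ hg₁ hn₁ hn'
  have k2 := key _ _ _ _ _ _ hg₂ hn₂ (ht0 ▸ hn')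
  rw [← ht0, ← ht1, ← hp1, ← hq1, ← hp0, ← hq0] at k2
  have hnn : ∀ t x P Q : ℝ, NN W (t - n * W.ell, x, P, Q) = W.nrg t x P Q := by
    intro t x P Q
    change W.nrg (t - n * W.ell) x P Q = W.nrg t x P Q
    unfold Warp.nrg
    rw [A_shift, B_shift]
  have h3 := @hinj (t₁ 0 - n * W.ell, x₁ 0, P₁, Q₁) ⟨hn', by
      rw [hnn]
      exact le_max_left _ _⟩ (t₁ 0 - n * W.ell, x₂ 0, P₂, Q₂) ⟨hn', by
      rw [hnn, ht0]
      exact le_max_right _ _⟩ (k1.trans k2.symm)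
  exact ⟨congrArg (fun z : E4 => z.2.1) h3, congrArg (fun z : E4 => z.2.2.1) h3,
    congrArg (fun z : E4 => z.2.2.2) h3⟩

end Pool.Agent.Emb
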