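import Pool.Agent.Emb.Targets

/-!
# J4a. Calibrations
-/

namespace Pool.Agent.Emb

open scoped ContDiff Real
open Set Real

theorem J4a_.cs (a b c x y z : ℝ) :
    (a * x + b * y + c * z) ^ 2 ≤ (a ^ 2 + b ^ 2 + c ^ 2) * (x ^ 2 + y ^ 2 + z ^ 2) := by
  nlinarith [sq_nonneg (a * y - b * x), sq_nonneg (a * z - c * x), sq_nonneg (b * z - c * y)]

theorem J4a_.bound (W : Warp) (φ : ℝ → ℝ) (α β : ℝ)
    (hle : ∀ t, φ t ^ 2 + α ^ 2 / W.A t ^ 2 + β ^ 2 / W.B t ^ 2 ≤ 1) (P Q t x : ℝ) :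
    (φ t * x + α * (P / W.A t ^ 2) + β * (Q / W.B t ^ 2)) ^ 2 ≤ W.nrg t x P Q := by
  have hA := W.A_pos t
  have hB := W.B_pos t
  have h1 := J4a_.cs (φ t) (α / W.A t) (β / W.B t) x (P / W.A t) (Q / W.B t)
  have h2 : φ t * x + α / W.A t * (P / W.A t) + β / W.B t * (Q / W.B t)
      = φ t * x + α * (P / W.A t ^ 2) + β * (Q / W.B t ^ 2) := by
    field_simp
  have h3 : x ^ 2 + (P / W.A t) ^ 2 + (Q / W.B t) ^ 2 = W.nrg t x P Q := by
    unfold Warp.nrg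
    rw [div_pow, div_pow]
  have h4 := hle t
  have h5 : φ t ^ 2 + (α / W.A t) ^ 2 + (β / W.B t) ^ 2 ≤ 1 := by
    rw [div_pow, div_pow]
    exact h4
  rw [h2, h3] at h1
  have h6 : 0 ≤ W.nrg t x P Q := by
    rw [← h3]
    positivity
  nlinarith

theorem j4a (h_nrg : T_nrg) : T_calib := by
  intro W φ α β hφ hle P Q t x p q hg h0
  have hr0 : 0 ≤ W.nrg (t 0) (x 0) P Q := by
    unfold Warp.nrg
    positivity
  have hρ : √(W.nrg (t 0) (x 0) P Q) < 1 / 2 := by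
    rw [Real.sqrt_lt' (by norm_num)]
    norm_num
    linarith
  have hL : ∀ s, HasDerivAt (fun s => (∫ u in (t 0)..(t s), φ u) + α * p s + β * q s)
      (φ (t s) * x s + α * (P / W.A (t s) ^ 2) + β * (Q / W.B (t s) ^ 2)) s := by
    intro s
    have h1 : HasDerivAt (fun r => ∫ u in (t 0)..r, φ u) (φ (t s)) (t s) :=
      (hφ.integral_hasStrictDerivAt (t 0) (t s)).hasDerivAt
    have h2 := h1.comp s (hg.ht s)
    exact (h2.add ((hg.hp s).const_mul α)).add ((hg.hq s).const_mul β)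
  have hbd : ∀ s ∈ Ico (0 : ℝ) 1,
      ‖φ (t s) * x s + α * (P / W.A (t s) ^ 2) + β * (Q / W.B (t s) ^ 2)‖
        ≤ √(W.nrg (t 0) (x 0) P Q) := by
    intro s _
    rw [Real.norm_eq_abs]
    apply Real.abs_le_sqrt
    rw [← h_nrg W P Q t x p q hg s]
    exact J4a_.bound W φ α β hle P Q (t s) (x s)
  have hm := norm_image_sub_le_of_norm_deriv_le_segment_01'
    (fun s _ => (hL s).hasDerivWithinAt) hbd
  rw [Real.norm_eq_abs] at hm
  simp only [intervalIntegral.integral_same] at hm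
  have he : (∫ u in (t 0)..(t 1), φ u) + α * p 1 + β * q 1 - (0 + α * p 0 + β * q 0)
      = (∫ u in (t 0)..(t 1), φ u) + α * (p 1 - p 0) + β * (q 1 - q 0) := by
    ring
  rw [he] at hm
  linarith

end Pool.Agent.Emb
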