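import Pool.Agent.Emb.Targets

/-!
# J4b. The map to the sphere moves points by less than a quarter turn along short geodesics
-/

namespace Pool.Agent.Emb

open scoped ContDiff Real
open Set Real

namespace J4b_

/-- Cauchy-Schwarz in three coordinates -/
theorem cs3 (a b c x y z : ℝ) :
    (a * x + b * y + c * z) ^ 2 ≤ (a ^ 2 + b ^ 2 + c ^ 2) * (x ^ 2 + y ^ 2 + z ^ 2) := by
  nlinarith [sq_nonneg (a * y - b * x), sq_nonneg (a * z - c * x), sq_nonneg (b * z - c * y)]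

/-- the bound of the derivative of the inner product with the start of the curve on the sphere -/
theorem deriv_bound (a₀ a P Q α β γ L : ℝ)
    (h : α ^ 2 + cos a ^ 2 * β ^ 2 + sin a ^ 2 * γ ^ 2 ≤ L ^ 2) :
    (cos a₀ * (-sin a * α * cos P + cos a * (-sin P * β))
      + sin a₀ * (cos a * α * cos Q + sin a * (-sin Q * γ))) ^ 2
    ≤ L ^ 2 * (1 - (cos a₀ * cos a * cos P + sin a₀ * sin a * cos Q) ^ 2) := by
  have h1 := cs3 α (cos a * β) (sin a * γ) (-(cos a₀ * sin a * cos P) + sin a₀ * cos a * cos Q)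
    (-(cos a₀ * sin P)) (-(sin a₀ * sin Q))
  have h2 : (-(cos a₀ * sin a * cos P) + sin a₀ * cos a * cos Q) ^ 2 + (-(cos a₀ * sin P)) ^ 2
      + (-(sin a₀ * sin Q)) ^ 2
      = 1 - (cos a₀ * cos a * cos P + sin a₀ * sin a * cos Q) ^ 2 := by
    linear_combination (cos a₀ ^ 2 * cos P ^ 2 + sin a₀ ^ 2 * cos Q ^ 2) *
      (sin_sq_add_cos_sq a) + cos a₀ ^ 2 * (sin_sq_add_cos_sq P)
      + sin a₀ ^ 2 * (sin_sq_add_cos_sq Q) + (sin_sq_add_cos_sq a₀)
  rw [h2] at h1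
  have h3 : 0 ≤ 1 - (cos a₀ * cos a * cos P + sin a₀ * sin a * cos Q) ^ 2 := by
    rw [← h2]; positivity
  calc (cos a₀ * (-sin a * α * cos P + cos a * (-sin P * β))
        + sin a₀ * (cos a * α * cos Q + sin a * (-sin Q * γ))) ^ 2
      = (α * (-(cos a₀ * sin a * cos P) + sin a₀ * cos a * cos Q)
        + cos a * β * (-(cos a₀ * sin P)) + sin a * γ * (-(sin a₀ * sin Q))) ^ 2 := by ring
    _ ≤ _ := h1
    _ ≤ _ := by
      refine mul_le_mul_of_nonneg_right ?_ h3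
      nlinarith [h]

/-- the value of the inner product lies in `[-1, 1]` -/
theorem val_bound (a₀ a P Q : ℝ) :
    (cos a₀ * cos a * cos P + sin a₀ * sin a * cos Q) ^ 2 ≤ 1 := by
  have h2 : (-(cos a₀ * sin a * cos P) + sin a₀ * cos a * cos Q) ^ 2 + (-(cos a₀ * sin P)) ^ 2
      + (-(sin a₀ * sin Q)) ^ 2
      = 1 - (cos a₀ * cos a * cos P + sin a₀ * sin a * cos Q) ^ 2 := by
    linear_combination (cos a₀ ^ 2 * cos P ^ 2 + sin a₀ ^ 2 * cos Q ^ 2) *
      (sin_sq_add_cos_sq a) + cos a₀ ^ 2 * (sin_sq_add_cos_sq P)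
      + sin a₀ ^ 2 * (sin_sq_add_cos_sq Q) + (sin_sq_add_cos_sq a₀)
  have h3 : 0 ≤ 1 - (cos a₀ * cos a * cos P + sin a₀ * sin a * cos Q) ^ 2 := by
    rw [← h2]; positivity
  linarith

/-- A function with values in `[-1, 1]`, with value `1` at `0` and `f' ^ 2 ≤ L ^ 2 (1 - f ^ 2)`,
`L < π / 2`, is positive at `1`. -/
theorem pos_of_deriv (f f' : ℝ → ℝ) (L : ℝ) (hL0 : 0 ≤ L) (hL : L < π / 2) (h0 : f 0 = 1)
    (hf1 : ∀ s, f s ^ 2 ≤ 1) (hf : ∀ s, HasDerivAt f (f' s) s)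
    (hb : ∀ s, f' s ^ 2 ≤ L ^ 2 * (1 - f s ^ 2)) : 0 < f 1 := by
  set m : ℝ := (L + π / 2) / 2 with hm
  have hmL : L < m := by rw [hm]; linarith
  have hmp : m < π / 2 := by rw [hm]; linarith
  have hm0 : 0 < m := by linarith
  set lam : ℝ := sin m with hlam
  have hlam0 : 0 < lam := sin_pos_of_pos_of_lt_pi hm0 (by linarith [pi_pos])
  have hcos : 0 < cos m := cos_pos_of_mem_Ioo ⟨by linarith [pi_pos], hmp⟩
  have hlam1 : lam ^ 2 < 1 := by
    have := sin_sq_add_cos_sq m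
    nlinarith [pow_pos hcos 2]
  have hlt : ∀ s, (lam * f s) ^ 2 < 1 := by
    intro s
    have := hf1 s
    nlinarith [sq_nonneg (f s), sq_nonneg lam]
  have hder : ∀ s, HasDerivAt (fun s => arcsin (lam * f s))
      (1 / √(1 - (lam * f s) ^ 2) * (lam * f' s)) s := by
    intro s
    have h1 : lam * f s ≠ -1 := by
      intro h; have := hlt s; rw [h] at this; norm_num at this
    have h2 : lam * f s ≠ 1 := by
      intro h; have := hlt s; rw [h] at this; norm_num at this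
    exact (hasDerivAt_arcsin h1 h2).comp s ((hf s).const_mul lam)
  have hbd : ∀ s, ‖1 / √(1 - (lam * f s) ^ 2) * (lam * f' s)‖ ≤ L := by
    intro s
    have h1 : 0 < 1 - (lam * f s) ^ 2 := by linarith [hlt s]
    have h2 : 0 < √(1 - (lam * f s) ^ 2) := sqrt_pos.mpr h1
    have h3 : (lam * f' s) ^ 2 ≤ (L * √(1 - (lam * f s) ^ 2)) ^ 2 := by
      rw [mul_pow, mul_pow, sq_sqrt h1.le]
      have h4 := hb s
      have h5 : lam ^ 2 * f' s ^ 2 ≤ lam ^ 2 * (L ^ 2 * (1 - f s ^ 2)) :=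
        mul_le_mul_of_nonneg_left h4 (sq_nonneg _)
      refine h5.trans ?_
      have h6 : lam ^ 2 * (1 - f s ^ 2) ≤ 1 - (lam * f s) ^ 2 := by nlinarith
      calc lam ^ 2 * (L ^ 2 * (1 - f s ^ 2)) = L ^ 2 * (lam ^ 2 * (1 - f s ^ 2)) := by ring
        _ ≤ _ := mul_le_mul_of_nonneg_left h6 (sq_nonneg _)
    have h7 : |lam * f' s| ≤ L * √(1 - (lam * f s) ^ 2) :=
      abs_le_of_sq_le_sq h3 (mul_nonneg hL0 h2.le)
    rw [norm_mul, norm_div, norm_one, Real.norm_eq_abs, abs_of_pos h2, Real.norm_eq_abs,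
      one_div, inv_mul_le_iff₀ h2]
    linarith
  have hmv := (convex_univ : Convex ℝ (univ : Set ℝ)).norm_image_sub_le_of_norm_hasDerivWithin_le
    (f := fun s => arcsin (lam * f s)) (C := L) (x := 0) (y := 1)
    (fun s _ => (hder s).hasDerivWithinAt) (fun s _ => hbd s) (mem_univ _) (mem_univ _)
  simp only [h0, mul_one, sub_zero, norm_one] at hmv
  have has : arcsin lam = m := arcsin_sin (by linarith [pi_pos]) hmp.le
  rw [has, Real.norm_eq_abs] at hmv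
  have h8 : 0 < arcsin (lam * f 1) := by
    have := (abs_le.mp hmv).1
    linarith
  have h9 : 0 < lam * f 1 := arcsin_pos.mp h8
  exact (pos_iff_pos_of_mul_pos h9).mp hlam0

/-- J4b with the hypothesis `0 ≤ ρ`. -/
theorem j4b_nonneg (ψ : ℝ → ℝ) (hψ : Differentiable ℝ ψ) (hψ' : ∀ t, |deriv ψ t| ≤ π)
    (t p q : ℝ → ℝ) (t' p' q' : ℝ → ℝ) (ρ : ℝ) (h0 : 0 ≤ ρ) (hρ : ρ < 1 / 2)
    (ht : ∀ s, HasDerivAt t (t' s) s) (hp : ∀ s, HasDerivAt p (p' s) s)
    (hq : ∀ s, HasDerivAt q (q' s) s)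
    (hb : ∀ s, t' s ^ 2 + cos (ψ (t s)) ^ 2 * p' s ^ 2 + sin (ψ (t s)) ^ 2 * q' s ^ 2 ≤ ρ ^ 2) :
    0 < cos (ψ (t 0)) * cos (ψ (t 1)) * cos (π * (p 1 - p 0))
      + sin (ψ (t 0)) * sin (ψ (t 1)) * cos (π * (q 1 - q 0)) := by
  have hd : ∀ s, HasDerivAt (fun s => ψ (t s)) (deriv ψ (t s) * t' s) s := fun s =>
    (hψ (t s)).hasDerivAt.comp s (ht s)
  have hP : ∀ s, HasDerivAt (fun s => π * (p s - p 0)) (π * p' s) s := fun s =>
    ((hp s).sub_const (p 0)).const_mul π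
  have hQ : ∀ s, HasDerivAt (fun s => π * (q s - q 0)) (π * q' s) s := fun s =>
    ((hq s).sub_const (q 0)).const_mul π
  refine pos_of_deriv
    (fun s => cos (ψ (t 0)) * cos (ψ (t s)) * cos (π * (p s - p 0))
      + sin (ψ (t 0)) * sin (ψ (t s)) * cos (π * (q s - q 0)))
    (fun s => cos (ψ (t 0)) * (-sin (ψ (t s)) * (deriv ψ (t s) * t' s) * cos (π * (p s - p 0))
        + cos (ψ (t s)) * (-sin (π * (p s - p 0)) * (π * p' s)))
      + sin (ψ (t 0)) * (cos (ψ (t s)) * (deriv ψ (t s) * t' s) * cos (π * (q s - q 0))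
        + sin (ψ (t s)) * (-sin (π * (q s - q 0)) * (π * q' s))))
    (π * ρ) (mul_nonneg pi_pos.le h0) (by nlinarith [pi_pos]) ?_ ?_ ?_ ?_
  · simp only [sub_self, mul_zero, cos_zero, mul_one]
    nlinarith [sin_sq_add_cos_sq (ψ (t 0))]
  · intro s
    exact val_bound _ _ _ _
  · intro s
    have h1 := (((hd s).cos.mul (hP s).cos).const_mul (cos (ψ (t 0)))).add
      (((hd s).sin.mul (hQ s).cos).const_mul (sin (ψ (t 0))))
    refine (h1.congr_of_eventuallyEq (Filter.Eventually.of_forall fun s => ?_))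
    simp only [Pi.add_apply, Pi.mul_apply]
    ring
  · intro s
    refine deriv_bound _ _ _ _ _ _ _ _ ?_
    have h2 : (deriv ψ (t s)) ^ 2 ≤ π ^ 2 := sq_le_sq' (abs_le.mp (hψ' (t s))).1
      (abs_le.mp (hψ' (t s))).2
    have h3 : (deriv ψ (t s) * t' s) ^ 2 ≤ π ^ 2 * t' s ^ 2 := by
      rw [mul_pow]
      exact mul_le_mul_of_nonneg_right h2 (sq_nonneg _)
    have h4 := mul_le_mul_of_nonneg_left (hb s) (sq_nonneg π)
    nlinarith [h3, h4]

end J4b_

/-- J4b. -/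
theorem j4b : T_sphere := fun ψ h1 h2 t p q t' p' q' ρ h0 hρ ht hp hq hb =>
  J4b_.j4b_nonneg ψ h1 h2 t p q t' p' q' ρ h0 hρ ht hp hq hb

end Pool.Agent.Emb
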