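import Pool.Agent.Emb.Targets

/-!
# J5a: the smooth ramp
-/

namespace Pool.Agent.Emb

open scoped ContDiff Real
open Set Real

namespace J5a_

/-- the smooth step from `0` to `1` on `[-δ, δ]` -/
noncomputable def H (δ t : ℝ) : ℝ := Real.smoothTransition ((t + δ) / (2 * δ))

/-- the first integral of the step -/
noncomputable def R1 (δ t : ℝ) : ℝ := ∫ s in (-1 : ℝ)..t, H δ s

/-- the second integral of the step -/
noncomputable def R2 (δ t : ℝ) : ℝ := ∫ s in (-1 : ℝ)..t, R1 δ s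

theorem H_contDiff (δ : ℝ) : ContDiff ℝ ∞ (H δ) := by
  unfold H
  exact Real.smoothTransition.contDiff.comp ((contDiff_id.add contDiff_const).div_const _)

theorem H_cont (δ : ℝ) : Continuous (H δ) := (H_contDiff δ).continuous

theorem H_zero {δ t : ℝ} (hδ : 0 < δ) (h : t ≤ -δ) : H δ t = 0 := by
  unfold H
  exact Real.smoothTransition.zero_of_nonpos
    (div_nonpos_of_nonpos_of_nonneg (by linarith) (by linarith))

theorem H_one {δ t : ℝ} (hδ : 0 < δ) (h : δ ≤ t) : H δ t = 1 := by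
  unfold H
  exact Real.smoothTransition.one_of_one_le (by rw [le_div_iff₀ (by linarith)]; linarith)

theorem H_nonneg (δ t : ℝ) : 0 ≤ H δ t := Real.smoothTransition.nonneg _

theorem H_le_one (δ t : ℝ) : H δ t ≤ 1 := Real.smoothTransition.le_one _

theorem H_mono {δ : ℝ} (hδ : 0 < δ) : Monotone (H δ) := by
  intro x y hxy
  unfold H
  exact Real.smoothTransition.monotone
    (div_le_div_of_nonneg_right (by linarith) (by linarith))

theorem H_symm {δ : ℝ} (hδ : 0 < δ) (t : ℝ) : H δ t + H δ (-t) = 1 := by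
  unfold H
  have e : (-t + δ) / (2 * δ) = 1 - (t + δ) / (2 * δ) := by
    field_simp
    ring
  rw [e]
  set x := (t + δ) / (2 * δ)
  unfold Real.smoothTransition
  rw [sub_sub_cancel]
  have h1 := (Real.smoothTransition.pos_denom x).ne'
  have h2 : expNegInvGlue (1 - x) + expNegInvGlue x ≠ 0 := by rwa [add_comm]
  rw [add_comm (expNegInvGlue (1 - x)) (expNegInvGlue x), ← add_div, div_self h1]

theorem R1_deriv (δ t : ℝ) : HasDerivAt (R1 δ) (H δ t) t :=
  ((H_cont δ).integral_hasStrictDerivAt (-1) t).hasDerivAt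

theorem R1_cont (δ : ℝ) : Continuous (R1 δ) :=
  continuous_iff_continuousAt.mpr fun t => (R1_deriv δ t).continuousAt

theorem R2_deriv (δ t : ℝ) : HasDerivAt (R2 δ) (R1 δ t) t :=
  ((R1_cont δ).integral_hasStrictDerivAt (-1) t).hasDerivAt

theorem R1_contDiff (δ : ℝ) : ContDiff ℝ ∞ (R1 δ) := by
  rw [contDiff_infty_iff_deriv]
  refine ⟨fun t => (R1_deriv δ t).differentiableAt, ?_⟩
  have : deriv (R1 δ) = H δ := funext fun t => (R1_deriv δ t).deriv
  rw [this]
  exact H_contDiff δ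

theorem R2_contDiff (δ : ℝ) : ContDiff ℝ ∞ (R2 δ) := by
  rw [contDiff_infty_iff_deriv]
  refine ⟨fun t => (R2_deriv δ t).differentiableAt, ?_⟩
  have : deriv (R2 δ) = R1 δ := funext fun t => (R2_deriv δ t).deriv
  rw [this]
  exact R1_contDiff δ

theorem R1_zero {δ t : ℝ} (hδ : 0 < δ) (hδ1 : δ < 1) (h : t ≤ -δ) : R1 δ t = 0 := by
  unfold R1
  rw [intervalIntegral.integral_congr (g := fun _ => (0 : ℝ))]
  · simp
  · intro s hs
    rw [mem_uIcc] at hs
    refine H_zero hδ ?_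
    rcases hs with hs | hs
    · linarith [hs.2]
    · linarith [hs.2]

theorem R2_zero {δ t : ℝ} (hδ : 0 < δ) (hδ1 : δ < 1) (h : t ≤ -δ) : R2 δ t = 0 := by
  unfold R2
  rw [intervalIntegral.integral_congr (g := fun _ => (0 : ℝ))]
  · simp
  · intro s hs
    rw [mem_uIcc] at hs
    refine R1_zero hδ hδ1 ?_
    rcases hs with hs | hs
    · linarith [hs.2]
    · linarith [hs.2]

theorem R1_mono (δ : ℝ) : Monotone (R1 δ) :=
  monotone_of_deriv_nonneg (fun t => (R1_deriv δ t).differentiableAt) fun t => by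
    rw [(R1_deriv δ t).deriv]
    exact H_nonneg δ t

theorem R1_nonneg {δ : ℝ} (hδ : 0 < δ) (hδ1 : δ < 1) (t : ℝ) : 0 ≤ R1 δ t := by
  rcases le_total t (-δ) with h | h
  · rw [R1_zero hδ hδ1 h]
  · rw [← R1_zero hδ hδ1 (le_refl (-δ))]
    exact R1_mono δ h

theorem R2_mono {δ : ℝ} (hδ : 0 < δ) (hδ1 : δ < 1) : Monotone (R2 δ) :=
  monotone_of_deriv_nonneg (fun t => (R2_deriv δ t).differentiableAt) fun t => by
    rw [(R2_deriv δ t).deriv]
    exact R1_nonneg hδ hδ1 t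

theorem R2_nonneg {δ : ℝ} (hδ : 0 < δ) (hδ1 : δ < 1) (t : ℝ) : 0 ≤ R2 δ t := by
  rcases le_total t (-δ) with h | h
  · rw [R2_zero hδ hδ1 h]
  · rw [← R2_zero hδ hδ1 (le_refl (-δ))]
    exact R2_mono hδ hδ1 h

theorem hasDerivAt_neg_comp {f f' : ℝ → ℝ} (hf : ∀ t, HasDerivAt f (f' t) t) (t : ℝ) :
    HasDerivAt (fun s => f (-s)) (-f' (-t)) t := by
  have h := (hf (-t)).comp t (hasDerivAt_neg t)
  have e : f' (-t) * -1 = -f' (-t) := by ring
  rw [e] at h
  exact h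

theorem R1_odd {δ : ℝ} (hδ : 0 < δ) (t : ℝ) : R1 δ t - R1 δ (-t) = t := by
  have hd : ∀ t, HasDerivAt (fun s => R1 δ s - R1 δ (-s) - s) 0 t := by
    intro t
    have h := ((R1_deriv δ t).sub (hasDerivAt_neg_comp (R1_deriv δ) t)).sub (hasDerivAt_id t)
    have e : H δ t - -H δ (-t) - 1 = 0 := by
      have := H_symm hδ t
      linarith
    rw [e] at h
    exact h
  have h := is_const_of_deriv_eq_zero (fun t => (hd t).differentiableAt)
    (fun t => (hd t).deriv) t 0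
  simp only [neg_zero, sub_self] at h
  linarith

theorem R2_even {δ : ℝ} (hδ : 0 < δ) (t : ℝ) : R2 δ t + R2 δ (-t) = t ^ 2 / 2 + 2 * R2 δ 0 := by
  have hd : ∀ t, HasDerivAt (fun s => R2 δ s + R2 δ (-s) - s ^ 2 / 2) 0 t := by
    intro t
    have h := ((R2_deriv δ t).add (hasDerivAt_neg_comp (R2_deriv δ) t)).sub
      ((hasDerivAt_pow 2 t).div_const 2)
    have e : R1 δ t + -R1 δ (-t) - (((2 : ℕ) : ℝ) * t ^ (2 - 1)) / 2 = 0 := by
      have := R1_odd hδ t
      norm_num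
      linarith
    rw [e] at h
    exact h
  have h := is_const_of_deriv_eq_zero (fun t => (hd t).differentiableAt)
    (fun t => (hd t).deriv) t 0
  simp only [neg_zero] at h
  linarith

theorem R1_id {δ t : ℝ} (hδ : 0 < δ) (hδ1 : δ < 1) (h : δ ≤ t) : R1 δ t = t := by
  have h1 := R1_odd hδ t
  rw [R1_zero hδ hδ1 (by linarith : -t ≤ -δ)] at h1
  linarith

theorem R2_sq {δ t : ℝ} (hδ : 0 < δ) (hδ1 : δ < 1) (h : δ ≤ t) :
    R2 δ t = t ^ 2 / 2 + 2 * R2 δ 0 := by
  have h1 := R2_even hδ t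
  rw [R2_zero hδ hδ1 (by linarith : -t ≤ -δ)] at h1
  linarith

theorem R1_le {δ t : ℝ} (hδ : 0 < δ) (hδ1 : δ < 1) (h : t ≤ δ) : R1 δ t ≤ δ := by
  have := R1_mono δ h
  rwa [R1_id hδ hδ1 le_rfl] at this

theorem R2_zero_le {δ : ℝ} (hδ : 0 < δ) (hδ1 : δ < 1) : R2 δ 0 ≤ δ := by
  have h : ‖∫ s in (-1 : ℝ)..0, R1 δ s‖ ≤ δ * |0 - (-1)| := by
    apply intervalIntegral.norm_integral_le_of_norm_le_const
    intro s hs
    rw [uIoc_of_le (by norm_num)] at hs
    rw [Real.norm_eq_abs, abs_of_nonneg (R1_nonneg hδ hδ1 s)]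
    exact R1_le hδ hδ1 (by linarith [hs.2])
  have h1 := (le_abs_self _).trans h
  have h2 : |(0 : ℝ) - (-1)| = 1 := by norm_num
  rw [h2, mul_one] at h1
  exact h1

/-- comparison with the piecewise quadratic function -/
theorem R2_close {δ : ℝ} (hδ : 0 < δ) (hδ1 : δ < 1) (t : ℝ) :
    |R2 δ t - max t 0 ^ 2 / 2| ≤ 3 * δ := by
  have h0 := R2_zero_le hδ hδ1
  have h0' := R2_nonneg hδ hδ1 0
  rcases le_total t (-δ) with h | h
  · rw [R2_zero hδ hδ1 h, max_eq_right (by linarith)]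
    norm_num
    linarith
  rcases le_total δ t with h' | h'
  · rw [R2_sq hδ hδ1 h', max_eq_left (by linarith), abs_le]
    constructor
    · linarith
    · linarith
  · have h1 := R2_mono hδ hδ1 h'
    rw [R2_sq hδ hδ1 le_rfl] at h1
    have h2 := R2_nonneg hδ hδ1 t
    have h3 : 0 ≤ max t 0 := le_max_right _ _
    have h4 : max t 0 ≤ δ := max_le h' hδ.le
    have h5 : max t 0 ^ 2 ≤ δ := by nlinarith
    have h6 : δ ^ 2 ≤ δ := by nlinarith
    have h7 := sq_nonneg (max t 0)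
    rw [abs_le]
    constructor
    · linarith
    · linarith

/-- the smooth ramp -/
noncomputable def u (δ t : ℝ) : ℝ :=
  12 * π * (R2 δ t - R2 δ (t - 1 / 12) - R2 δ (t - 1 / 6) + R2 δ (t - 1 / 4))

theorem u_contDiff (δ : ℝ) : ContDiff ℝ ∞ (u δ) := by
  have h : ∀ a : ℝ, ContDiff ℝ ∞ (fun t => R2 δ (t - a)) := fun a =>
    (R2_contDiff δ).comp (contDiff_id.sub contDiff_const)
  exact contDiff_const.mul ((((R2_contDiff δ).sub (h _)).sub (h _)).add (h _))

theorem u_deriv (δ t : ℝ) : HasDerivAt (u δ)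
    (12 * π * (R1 δ t - R1 δ (t - 1 / 12) - R1 δ (t - 1 / 6) + R1 δ (t - 1 / 4))) t := by
  have h : ∀ a : ℝ, HasDerivAt (fun t => R2 δ (t - a)) (R1 δ (t - a)) t := fun a =>
    (R2_deriv δ (t - a)).comp_sub_const t a
  exact ((((R2_deriv δ t).sub (h _)).sub (h _)).add (h _)).const_mul _

theorem deriv_u (δ : ℝ) : deriv (u δ) = fun t =>
    12 * π * (R1 δ t - R1 δ (t - 1 / 12) - R1 δ (t - 1 / 6) + R1 δ (t - 1 / 4)) :=
  funext fun t => (u_deriv δ t).deriv

theorem deriv2_u (δ t : ℝ) : deriv (deriv (u δ)) t =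
    12 * π * (H δ t - H δ (t - 1 / 12) - H δ (t - 1 / 6) + H δ (t - 1 / 4)) := by
  rw [deriv_u]
  have h : ∀ a : ℝ, HasDerivAt (fun t => R1 δ (t - a)) (H δ (t - a)) t := fun a =>
    (R1_deriv δ (t - a)).comp_sub_const t a
  exact (((((R1_deriv δ t).sub (h _)).sub (h _)).add (h _)).const_mul (12 * π)).deriv

theorem mono_diff {δ : ℝ} (hδ : 0 < δ) : Monotone (fun t => R1 δ t - R1 δ (t - 1 / 6)) := by
  have h : ∀ t, HasDerivAt (fun t => R1 δ t - R1 δ (t - 1 / 6)) (H δ t - H δ (t - 1 / 6)) t :=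
    fun t => (R1_deriv δ t).sub ((R1_deriv δ (t - 1 / 6)).comp_sub_const t (1 / 6))
  refine monotone_of_deriv_nonneg (fun t => (h t).differentiableAt) fun t => ?_
  rw [(h t).deriv]
  have := H_mono hδ (by linarith : t - 1 / 6 ≤ t)
  linarith

theorem mono_lip (δ : ℝ) : Monotone (fun t => t - R1 δ t) := by
  have h : ∀ t, HasDerivAt (fun t => t - R1 δ t) (1 - H δ t) t :=
    fun t => (hasDerivAt_id t).sub (R1_deriv δ t)
  refine monotone_of_deriv_nonneg (fun t => (h t).differentiableAt) fun t => ?_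
  rw [(h t).deriv]
  have := H_le_one δ t
  linarith

end J5a_

open J5a_ in
/-- J5a. The smooth ramp. -/
theorem j5a : T_ramp := by
  intro δ hδ hδ2
  have hδ1 : δ < 1 := by linarith
  have hπ := Real.pi_pos
  refine ⟨u δ, u_contDiff δ, ?_, ?_, ?_, ?_, ?_, ?_, ?_, ?_⟩
  · intro t ht
    unfold u
    rw [R2_zero hδ hδ1 ht, R2_zero hδ hδ1 (by linarith : t - 1 / 12 ≤ -δ),
      R2_zero hδ hδ1 (by linarith : t - 1 / 6 ≤ -δ), R2_zero hδ hδ1 (by linarith : t - 1 / 4 ≤ -δ)]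
    ring
  · intro t ht
    unfold u
    rw [R2_sq hδ hδ1 (by linarith : δ ≤ t), R2_sq hδ hδ1 (by linarith : δ ≤ t - 1 / 12),
      R2_sq hδ hδ1 (by linarith : δ ≤ t - 1 / 6), R2_sq hδ hδ1 (by linarith : δ ≤ t - 1 / 4)]
    ring
  · intro t
    rw [deriv_u]
    have h := mono_diff hδ (by linarith : t - 1 / 12 ≤ t)
    have e : t - 1 / 12 - 1 / 6 = t - 1 / 4 := by ring
    simp only [e] at h
    exact mul_nonneg (by positivity) (by linarith)
  · intro t
    rw [deriv_u]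
    have h1 := mono_lip δ (by linarith : t - 1 / 12 ≤ t)
    have h2 := R1_mono δ (by linarith : t - 1 / 4 ≤ t - 1 / 6)
    simp only at h1
    have h3 : R1 δ t - R1 δ (t - 1 / 12) - R1 δ (t - 1 / 6) + R1 δ (t - 1 / 4) ≤ 1 / 12 := by
      linarith
    have := mul_le_mul_of_nonneg_left h3 (by positivity : 0 ≤ 12 * π)
    calc _ ≤ 12 * π * (1 / 12) := this
      _ = π := by ring
  · intro t
    rw [deriv2_u, abs_mul, abs_of_pos (by positivity : 0 < 12 * π)]
    have h1 := H_mono hδ (by linarith : t - 1 / 12 ≤ t)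
    have h2 := H_mono hδ (by linarith : t - 1 / 4 ≤ t - 1 / 6)
    have h3 := H_nonneg δ (t - 1 / 12)
    have h4 := H_nonneg δ (t - 1 / 4)
    have h5 := H_le_one δ t
    have h6 := H_le_one δ (t - 1 / 6)
    have h7 : |H δ t - H δ (t - 1 / 12) - H δ (t - 1 / 6) + H δ (t - 1 / 4)| ≤ 1 := by
      rw [abs_le]
      constructor <;> linarith
    have := mul_le_mul_of_nonneg_left h7 (by positivity : 0 ≤ 12 * π)
    linarith
  · intro t ht
    rw [deriv2_u, H_zero hδ (by linarith : t - 1 / 6 ≤ -δ),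
      H_zero hδ (by linarith : t - 1 / 4 ≤ -δ)]
    have h1 := H_mono hδ (by linarith : t - 1 / 12 ≤ t)
    exact mul_nonneg (by positivity) (by linarith)
  · intro t ht
    rw [deriv2_u, H_one hδ (by linarith : δ ≤ t), H_one hδ (by linarith : δ ≤ t - 1 / 12)]
    have h2 := H_mono hδ (by linarith : t - 1 / 4 ≤ t - 1 / 6)
    exact mul_nonpos_of_nonneg_of_nonpos (by positivity) (by linarith)
  · intro t
    have h1 := abs_le.mp (R2_close hδ hδ1 t)
    have h2 := abs_le.mp (R2_close hδ hδ1 (t - 1 / 12))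
    have h3 := abs_le.mp (R2_close hδ hδ1 (t - 1 / 6))
    have h4 := abs_le.mp (R2_close hδ hδ1 (t - 1 / 4))
    have e : u δ t - ramp t = 12 * π * ((R2 δ t - max t 0 ^ 2 / 2)
        - (R2 δ (t - 1 / 12) - max (t - 1 / 12) 0 ^ 2 / 2)
        - (R2 δ (t - 1 / 6) - max (t - 1 / 6) 0 ^ 2 / 2)
        + (R2 δ (t - 1 / 4) - max (t - 1 / 4) 0 ^ 2 / 2)) := by
      unfold u ramp
      ring
    rw [e, abs_mul, abs_of_pos (by positivity : 0 < 12 * π)]
    have h5 : |(R2 δ t - max t 0 ^ 2 / 2)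
        - (R2 δ (t - 1 / 12) - max (t - 1 / 12) 0 ^ 2 / 2)
        - (R2 δ (t - 1 / 6) - max (t - 1 / 6) 0 ^ 2 / 2)
        + (R2 δ (t - 1 / 4) - max (t - 1 / 4) 0 ^ 2 / 2)| ≤ 12 * δ := by
      rw [abs_le]
      constructor <;> linarith [h1.1, h1.2, h2.1, h2.2, h3.1, h3.2, h4.1, h4.2]
    have h6 := mul_le_mul_of_nonneg_left h5 (by positivity : 0 ≤ 12 * π)
    have h7 : π < 4 := by
      have := Real.pi_lt_d2
      linarith
    nlinarith

end Pool.Agent.Emb
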