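import Pool.Agent.Emb.Targets

/-!
# J5b: smooth periodic profile
-/

namespace Pool.Agent.Emb

open scoped ContDiff Real Topology
open Set Real Filter

namespace J5b_

lemma ramp_nonpos {t : ℝ} (ht : t ≤ 0) : ramp t = 0 := by
  unfold ramp
  rw [max_eq_right ht, max_eq_right (by linarith), max_eq_right (by linarith),
    max_eq_right (by linarith)]
  ring

lemma ramp_big {t : ℝ} (ht : 1 / 4 ≤ t) : ramp t = π / 6 := by
  unfold ramp
  rw [max_eq_left (by linarith), max_eq_left (by linarith), max_eq_left (by linarith),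
    max_eq_left (by linarith)]
  ring

lemma ramp_lo {δ : ℝ} (h0 : 0 < δ) (h1 : δ < 1 / 1000) : ramp (1 / 12 + δ) = π / 24 + π * δ := by
  unfold ramp
  rw [max_eq_left (by linarith), max_eq_left (by linarith), max_eq_right (by linarith),
    max_eq_right (by linarith)]
  ring

lemma ramp_hi {δ : ℝ} (h0 : 0 < δ) (h1 : δ < 1 / 1000) : ramp (1 / 6 - δ) = π / 8 - π * δ := by
  unfold ramp
  rw [max_eq_left (by linarith), max_eq_left (by linarith), max_eq_right (by linarith),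
    max_eq_right (by linarith)]
  ring

lemma trig {θ : ℝ} (h0 : 0 ≤ θ) (h1 : θ ≤ 5 * π / 24 + 1 / 900) : 4 * sin θ ≤ π * cos θ := by
  have hp1 := Real.pi_gt_d2
  have hp2 := Real.pi_lt_d2
  obtain ⟨h, hh⟩ : ∃ h, h = π / 4 - θ := ⟨_, rfl⟩
  have hθ : θ = π / 4 - h := by rw [hh]; ring
  have h8 : 1 / 8 ≤ h := by rw [hh]; linarith
  have h9 : h ≤ π / 2 := by rw [hh]; linarith
  have hs : sin (1 / 8) ≤ sin h :=
    sin_le_sin_of_le_of_le_pi_div_two (by linarith) h9 h8
  have hs1 : (1 / 8 : ℝ) - (1 / 8) ^ 3 / 6 < sin (1 / 8) :=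
    Real.sin_gt_sub_cube (by norm_num)
  have hs2 : (0.1245 : ℝ) ≤ sin h := by
    have : (0.1245 : ℝ) ≤ (1 / 8 : ℝ) - (1 / 8) ^ 3 / 6 := by norm_num
    linarith
  have hc : cos h ≤ 1 := cos_le_one h
  have key : 4 * (cos h - sin h) ≤ π * (cos h + sin h) := by
    nlinarith
  have h2 : (0 : ℝ) < √2 / 2 := by positivity
  rw [hθ, sin_sub, cos_sub, sin_pi_div_four, cos_pi_div_four]
  nlinarith

/-- What is used of the ramp. -/
structure Rmp (δ : ℝ) (u : ℝ → ℝ) : Prop where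
  pos : 0 < δ
  sml : δ ≤ 1 / 1000000
  smooth : ContDiff ℝ ∞ u
  left : ∀ t ≤ -δ, u t = 0
  right : ∀ t ≥ 1 / 4 + δ, u t = π / 6
  dnn : ∀ t, 0 ≤ deriv u t
  dle : ∀ t, deriv u t ≤ π
  dd : ∀ t, |deriv (deriv u) t| ≤ 12 * π
  ddl : ∀ t ≤ 1 / 6 - δ, 0 ≤ deriv (deriv u) t
  ddr : ∀ t ≥ 1 / 12 + δ, deriv (deriv u) t ≤ 0
  close : ∀ t, |u t - ramp t| ≤ 1000 * δ

/-- One period. -/
noncomputable def ps (u : ℝ → ℝ) (s : ℝ) : ℝ := π / 6 + u s - u (s - 7 / 18)

section

variable {δ : ℝ} {u : ℝ → ℝ} (h : Rmp δ u)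
include h

lemma Rmp.diff : Differentiable ℝ u := h.smooth.differentiable (by simp)

lemma Rmp.mono : Monotone u :=
  monotone_of_deriv_nonneg h.diff h.dnn

lemma Rmp.nonneg (t : ℝ) : 0 ≤ u t := by
  rcases le_total t (-δ) with h1 | h1
  · rw [h.left t h1]
  · have := h.mono h1
    rwa [h.left (-δ) le_rfl] at this

lemma Rmp.le (t : ℝ) : u t ≤ π / 6 := by
  rcases le_total (1 / 4 + δ) t with h1 | h1
  · rw [h.right t h1]
  · have := h.mono h1
    rwa [h.right (1 / 4 + δ) le_rfl] at this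

lemma Rmp.dsmooth : ContDiff ℝ ∞ (deriv u) := by
  have := h.smooth
  rw [contDiff_infty_iff_deriv] at this
  exact this.2

lemma Rmp.ddiff : Differentiable ℝ (deriv u) := h.dsmooth.differentiable (by simp)

lemma Rmp.loc_left {t : ℝ} (ht : t < -δ) : u =ᶠ[𝓝 t] fun _ => 0 := by
  filter_upwards [Iio_mem_nhds ht] with x hx
  exact h.left x (le_of_lt hx)

lemma Rmp.loc_right {t : ℝ} (ht : 1 / 4 + δ < t) : u =ᶠ[𝓝 t] fun _ => π / 6 := by
  filter_upwards [Ioi_mem_nhds ht] with x hx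
  exact h.right x (le_of_lt hx)

lemma Rmp.dd_left {t : ℝ} (ht : t < -δ) : deriv (deriv u) t = 0 := by
  have := (h.loc_left ht).deriv.deriv_eq
  rw [this]
  simp

lemma Rmp.dd_right {t : ℝ} (ht : 1 / 4 + δ < t) : deriv (deriv u) t = 0 := by
  have := (h.loc_right ht).deriv.deriv_eq
  rw [this]
  simp

lemma Rmp.ps_smooth : ContDiff ℝ ∞ (ps u) := by
  unfold ps
  have h1 : ContDiff ℝ ∞ fun s : ℝ => u (s - 7 / 18) :=
    h.smooth.comp (contDiff_id.sub contDiff_const)
  exact (contDiff_const.add h.smooth).sub h1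

lemma Rmp.ps_deriv : deriv (ps u) = fun s => deriv u s - deriv u (s - 7 / 18) := by
  funext s
  have h1 : HasDerivAt u (deriv u s) s := (h.diff s).hasDerivAt
  have h2 : HasDerivAt (fun s : ℝ => u (s - 7 / 18)) (deriv u (s - 7 / 18)) s :=
    (h.diff (s - 7 / 18)).hasDerivAt.comp_sub_const s (7 / 18)
  exact ((h1.const_add (π / 6)).sub h2).deriv

lemma Rmp.ps_dd : deriv (deriv (ps u)) =
    fun s => deriv (deriv u) s - deriv (deriv u) (s - 7 / 18) := by
  rw [h.ps_deriv]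
  funext s
  have h1 : HasDerivAt (deriv u) (deriv (deriv u) s) s := (h.ddiff s).hasDerivAt
  have h2 : HasDerivAt (fun s : ℝ => deriv u (s - 7 / 18)) (deriv (deriv u) (s - 7 / 18)) s :=
    (h.ddiff (s - 7 / 18)).hasDerivAt.comp_sub_const s (7 / 18)
  exact (h1.sub h2).deriv

lemma Rmp.ps_lo (s : ℝ) : π / 6 ≤ ps u s := by
  unfold ps
  have := h.mono (by linarith : s - 7 / 18 ≤ s)
  linarith

lemma Rmp.ps_hi (s : ℝ) : ps u s ≤ π / 3 := by
  unfold ps
  have := h.le s
  have := h.nonneg (s - 7 / 18)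
  linarith

lemma Rmp.slope (s : ℝ) : |deriv (ps u) s| ≤ π := by
  rw [h.ps_deriv, abs_le]
  have h1 := h.dnn s
  have h2 := h.dle s
  have h3 := h.dnn (s - 7 / 18)
  have h4 := h.dle (s - 7 / 18)
  constructor <;> simp only <;> linarith

lemma Rmp.val_lo : u (1 / 12 + δ) ≤ π / 24 + 1 / 900 := by
  have h1 := (abs_le.1 (h.close (1 / 12 + δ))).2
  have h2 := ramp_lo h.pos (by linarith [h.sml] : δ < 1 / 1000)
  have h3 := Real.pi_lt_d2
  have h4 := h.sml
  have h5 := h.pos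
  nlinarith

lemma Rmp.val_hi : π / 8 - 1 / 900 ≤ u (1 / 6 - δ) := by
  have h1 := (abs_le.1 (h.close (1 / 6 - δ))).1
  have h2 := ramp_hi h.pos (by linarith [h.sml] : δ < 1 / 1000)
  have h3 := Real.pi_lt_d2
  have h4 := h.sml
  have h5 := h.pos
  nlinarith

lemma Rmp.low {s : ℝ} (hq : 0 < deriv (deriv (ps u)) s) : ps u s ≤ 5 * π / 24 + 1 / 900 := by
  rw [h.ps_dd] at hq
  simp only at hq
  have h4 := h.sml
  have h5 := h.pos
  have hv1 := h.val_lo
  have hv2 := h.val_hi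
  unfold ps
  rcases le_or_gt s (1 / 12 + δ) with h1 | h1
  · rw [h.left (s - 7 / 18) (by linarith)]
    have := h.mono h1
    linarith
  rcases le_or_gt s (1 / 4 + δ) with h2 | h2
  · rw [h.dd_left (by linarith : s - 7 / 18 < -δ)] at hq
    have := h.ddr s h1.le
    linarith
  · rw [h.dd_right h2] at hq
    rcases le_or_gt (s - 7 / 18) (1 / 6 - δ) with h3 | h3
    · have := h.ddl _ h3
      linarith
    · rw [h.right s h2.le]
      have := h.mono h3.le
      linarith

lemma Rmp.high {s : ℝ} (hq : deriv (deriv (ps u)) s < 0) : 7 * π / 24 - 1 / 900 ≤ ps u s := by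
  rw [h.ps_dd] at hq
  simp only at hq
  have h4 := h.sml
  have h5 := h.pos
  have hv1 := h.val_lo
  have hv2 := h.val_hi
  unfold ps
  rcases le_or_gt s (1 / 4 + δ) with h2 | h2
  · rw [h.dd_left (by linarith : s - 7 / 18 < -δ)] at hq
    rw [h.left (s - 7 / 18) (by linarith)]
    rcases le_or_gt s (1 / 6 - δ) with h3 | h3
    · have := h.ddl s h3
      linarith
    · have := h.mono h3.le
      linarith
  · rw [h.dd_right h2] at hq
    rw [h.right s h2.le]
    rcases le_or_gt (1 / 12 + δ) (s - 7 / 18) with h3 | h3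
    · have := h.ddr _ h3
      linarith
    · have := h.mono h3.le
      linarith

lemma Rmp.sq_le (s : ℝ) : deriv (ps u) s ^ 2 ≤ π ^ 2 := by
  have h1 := h.slope s
  rw [← sq_abs]
  exact pow_le_pow_left₀ (abs_nonneg _) h1 2

lemma Rmp.dd_abs (s : ℝ) : |deriv (deriv (ps u)) s| ≤ 12 * π := by
  rw [h.ps_dd]
  simp only
  have hp := Real.pi_pos
  have h4 := h.sml
  have h5 := h.pos
  rcases le_or_gt s (1 / 4 + δ) with h2 | h2
  · rw [h.dd_left (by linarith : s - 7 / 18 < -δ), sub_zero]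
    exact h.dd s
  · rw [h.dd_right h2, zero_sub, abs_neg]
    exact h.dd _

lemma Rmp.curvA (s : ℝ) : deriv (ps u) s ^ 2 * cos (ps u s) + sin (ps u s) *
    deriv (deriv (ps u)) s ≤ 4 * π ^ 2 * cos (ps u s) := by
  have hp := Real.pi_pos
  have hlo := h.ps_lo s
  have hhi := h.ps_hi s
  have hc : 0 < cos (ps u s) := cos_pos_of_mem_Ioo ⟨by linarith, by linarith⟩
  have hs : 0 < sin (ps u s) := sin_pos_of_pos_of_lt_pi (by linarith) (by linarith)
  have h1 : deriv (ps u) s ^ 2 * cos (ps u s) ≤ π ^ 2 * cos (ps u s) :=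
    mul_le_mul_of_nonneg_right (h.sq_le s) hc.le
  have h2 : sin (ps u s) * deriv (deriv (ps u)) s ≤ 3 * π ^ 2 * cos (ps u s) := by
    rcases le_or_gt (deriv (deriv (ps u)) s) 0 with h3 | h3
    · have : sin (ps u s) * deriv (deriv (ps u)) s ≤ 0 := mul_nonpos_of_nonneg_of_nonpos hs.le h3
      have : 0 ≤ 3 * π ^ 2 * cos (ps u s) := by positivity
      linarith
    · have h4 := trig (by linarith : 0 ≤ ps u s) (h.low h3)
      have h5 := (abs_le.1 (h.dd_abs s)).2
      calc sin (ps u s) * deriv (deriv (ps u)) s ≤ sin (ps u s) * (12 * π) :=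
            mul_le_mul_of_nonneg_left h5 hs.le
        _ = 3 * π * (4 * sin (ps u s)) := by ring
        _ ≤ 3 * π * (π * cos (ps u s)) := mul_le_mul_of_nonneg_left h4 (by positivity)
        _ = _ := by ring
  linarith

lemma Rmp.curvB (s : ℝ) : deriv (ps u) s ^ 2 * sin (ps u s) - cos (ps u s) *
    deriv (deriv (ps u)) s ≤ 4 * π ^ 2 * sin (ps u s) := by
  have hp := Real.pi_pos
  have hlo := h.ps_lo s
  have hhi := h.ps_hi s
  have hc : 0 < cos (ps u s) := cos_pos_of_mem_Ioo ⟨by linarith, by linarith⟩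
  have hs : 0 < sin (ps u s) := sin_pos_of_pos_of_lt_pi (by linarith) (by linarith)
  have h1 : deriv (ps u) s ^ 2 * sin (ps u s) ≤ π ^ 2 * sin (ps u s) :=
    mul_le_mul_of_nonneg_right (h.sq_le s) hs.le
  have h2 : - (cos (ps u s) * deriv (deriv (ps u)) s) ≤ 3 * π ^ 2 * sin (ps u s) := by
    rcases le_or_gt 0 (deriv (deriv (ps u)) s) with h3 | h3
    · have : 0 ≤ cos (ps u s) * deriv (deriv (ps u)) s := mul_nonneg hc.le h3
      have : 0 ≤ 3 * π ^ 2 * sin (ps u s) := by positivity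
      linarith
    · have h6 := h.high h3
      have h4 := trig (θ := π / 2 - ps u s) (by linarith) (by linarith)
      rw [sin_pi_div_two_sub, cos_pi_div_two_sub] at h4
      have h5 := (abs_le.1 (h.dd_abs s)).1
      calc - (cos (ps u s) * deriv (deriv (ps u)) s)
          = cos (ps u s) * (- deriv (deriv (ps u)) s) := by ring
        _ ≤ cos (ps u s) * (12 * π) := mul_le_mul_of_nonneg_left (by linarith) hc.le
        _ = 3 * π * (4 * cos (ps u s)) := by ring
        _ ≤ 3 * π * (π * sin (ps u s)) := mul_le_mul_of_nonneg_left h4 (by positivity)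
        _ = _ := by ring
  linarith

lemma Rmp.ps_left {s : ℝ} (hs : s ≤ -δ) : ps u s = π / 6 := by
  unfold ps
  rw [h.left s hs, h.left (s - 7 / 18) (by linarith)]
  ring

lemma Rmp.ps_right {s : ℝ} (hs : 13 / 20 ≤ s) : ps u s = π / 6 := by
  have h4 := h.sml
  unfold ps
  rw [h.right s (by linarith), h.right (s - 7 / 18) (by linarith)]
  ring

lemma Rmp.ps_close (s : ℝ) : |ps u s - psi0 s| ≤ 2000 * δ := by
  unfold ps psi0
  have h1 := abs_le.1 (h.close s)
  have h2 := abs_le.1 (h.close (s - 7 / 18))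
  rw [abs_le]
  constructor <;> linarith [h1.1, h1.2, h2.1, h2.2]

end

/-- The number of the period. -/
noncomputable def kk (t : ℝ) : ℤ := ⌊(t + 1 / 20) * (9 / 7)⌋

/-- The periodic extension. -/
noncomputable def pe (u : ℝ → ℝ) (t : ℝ) : ℝ := ps u (t - 7 / 9 * kk t)

lemma kk_le (t : ℝ) : -(1 / 20) ≤ t - 7 / 9 * kk t := by
  have h1 : (kk t : ℝ) ≤ (t + 1 / 20) * (9 / 7) := Int.floor_le _
  linarith

lemma lt_kk (t : ℝ) : t - 7 / 9 * kk t < 7 / 9 - 1 / 20 := by
  have h1 : (t + 1 / 20) * (9 / 7) < (kk t : ℝ) + 1 := Int.lt_floor_add_one _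
  linarith

lemma kk_eq {t : ℝ} {k : ℤ} (h1 : -(1 / 20) ≤ t - 7 / 9 * k)
    (h2 : t - 7 / 9 * k < 7 / 9 - 1 / 20) : kk t = k := by
  unfold kk
  rw [Int.floor_eq_iff]
  constructor <;> linarith

lemma pe_per (u : ℝ → ℝ) (t : ℝ) : pe u (t + 7 / 9) = pe u t := by
  have h1 : kk (t + 7 / 9) = kk t + 1 := by
    apply kk_eq
    · have := kk_le t
      push_cast
      linarith
    · have := lt_kk t
      push_cast
      linarith
  unfold pe
  rw [h1]
  push_cast
  congr 1
  ring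

lemma pe_eq {δ : ℝ} {u : ℝ → ℝ} (h : Rmp δ u) {t : ℝ} {k : ℤ} (h1 : -(1 / 10) < t - 7 / 9 * k)
    (h2 : t - 7 / 9 * k < 7 / 9 - 1 / 20) : pe u t = ps u (t - 7 / 9 * k) := by
  have h4 := h.sml
  rcases le_or_gt (-(1 / 20)) (t - 7 / 9 * k) with h3 | h3
  · unfold pe
    rw [kk_eq h3 h2]
  · have h5 : kk t = k - 1 := by
      apply kk_eq
      · push_cast
        linarith
      · push_cast
        linarith
    unfold pe
    rw [h5, h.ps_left (by linarith : t - 7 / 9 * (k : ℝ) ≤ -δ)]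
    apply h.ps_right
    push_cast
    linarith

lemma pe_loc {δ : ℝ} {u : ℝ → ℝ} (h : Rmp δ u) (t : ℝ) :
    pe u =ᶠ[𝓝 t] fun x => ps u (x - 7 / 9 * kk t) := by
  have h1 := kk_le t
  have h2 := lt_kk t
  have h3 : Ioo (7 / 9 * (kk t : ℝ) - 1 / 10) (7 / 9 * (kk t : ℝ) + 7 / 9 - 1 / 20) ∈ 𝓝 t :=
    Ioo_mem_nhds (by linarith) (by linarith)
  filter_upwards [h3] with x hx
  exact pe_eq h (by linarith [hx.1]) (by linarith [hx.2])

lemma pe_deriv {δ : ℝ} {u : ℝ → ℝ} (h : Rmp δ u) (t : ℝ) :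
    deriv (pe u) t = deriv (ps u) (t - 7 / 9 * kk t) := by
  rw [(pe_loc h t).deriv_eq]
  exact deriv_comp_sub_const _ _ _

lemma pe_dd {δ : ℝ} {u : ℝ → ℝ} (h : Rmp δ u) (t : ℝ) :
    deriv (deriv (pe u)) t = deriv (deriv (ps u)) (t - 7 / 9 * kk t) := by
  rw [(pe_loc h t).deriv.deriv_eq]
  have h1 : deriv (fun x => ps u (x - 7 / 9 * kk t)) =
      fun x => deriv (ps u) (x - 7 / 9 * kk t) := by
    funext x
    exact deriv_comp_sub_const _ _ _
  rw [h1]
  exact deriv_comp_sub_const _ _ _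

end J5b_

open J5b_

/-- J5b. -/
theorem j5b (h_ramp : T_ramp) : T_smooth := by
  intro ε hε
  obtain ⟨δ, hδ⟩ : ∃ δ, δ = min (1 / 1000000) (ε / 4000) := ⟨_, rfl⟩
  have hδ0 : 0 < δ := by rw [hδ]; positivity
  have hδ1 : δ ≤ 1 / 1000000 := by rw [hδ]; exact min_le_left _ _
  have hδ2 : δ ≤ ε / 4000 := by rw [hδ]; exact min_le_right _ _
  obtain ⟨u, h1, h2, h3, h4, h5, h6, h7, h8, h9⟩ := h_ramp δ hδ0 (by linarith)
  have h : Rmp δ u := ⟨hδ0, hδ1, h1, h2, h3, h4, h5, h6, h7, h8, h9⟩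
  have hp := Real.pi_pos
  refine ⟨pe u, ?_, pe_per u, ?_, ?_, ?_, ?_, ?_, ?_, ?_⟩
  · rw [contDiff_iff_contDiffAt]
    intro t
    have hs : ContDiff ℝ ∞ fun x => ps u (x - 7 / 9 * kk t) :=
      h.ps_smooth.comp (contDiff_id.sub contDiff_const)
    exact hs.contDiffAt.congr_of_eventuallyEq (pe_loc h t)
  · intro t
    exact h.ps_lo _
  · intro t
    exact h.ps_hi _
  · intro t
    rw [pe_deriv h]
    exact h.slope _
  · intro t
    rw [pe_deriv h, pe_dd h]
    exact h.curvA _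
  · intro t
    rw [pe_deriv h, pe_dd h]
    exact h.curvB _
  · refine ⟨-(1 / 30), ?_⟩
    have hk : kk (-(1 / 30)) = 0 := by
      apply kk_eq <;> norm_num
    rw [pe_deriv h, hk, h.ps_deriv]
    have e1 : deriv u (-(1 / 30)) = 0 := by
      rw [(h.loc_left (by linarith : -(1 / 30) < -δ)).deriv_eq]
      simp
    have e2 : deriv u (-(1 / 30) - 7 / 18) = 0 := by
      rw [(h.loc_left (by linarith : -(1 / 30) - 7 / 18 < -δ)).deriv_eq]
      simp
    simp only [Int.cast_zero, mul_zero, sub_zero]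
    rw [e1, e2, sub_zero]
  · intro t ht
    rcases lt_or_ge t (7 / 9 - 1 / 20) with h10 | h10
    · have : pe u t = ps u t := by
        have := pe_eq h (t := t) (k := 0) (by push_cast; linarith [ht.1]) (by push_cast; linarith)
        rw [this]
        simp
      rw [this]
      refine (h.ps_close t).trans ?_
      linarith
    · have e1 : pe u t = ps u (t - 7 / 9) := by
        have := pe_eq h (t := t) (k := 1) (by push_cast; linarith) (by push_cast; linarith [ht.2])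
        rw [this]
        simp
      have e2 : psi0 t = psi0 (t - 7 / 9) := by
        unfold psi0
        rw [ramp_big (by linarith : 1 / 4 ≤ t), ramp_big (by linarith : 1 / 4 ≤ t - 7 / 18),
          ramp_nonpos (by linarith [ht.2] : t - 7 / 9 ≤ 0),
          ramp_nonpos (by linarith [ht.2] : t - 7 / 9 - 7 / 18 ≤ 0)]
        ring
      rw [e1, e2]
      refine (h.ps_close _).trans ?_
      linarith

end Pool.Agent.Emb
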