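import Pool.Agent.Emb.Targets

/-!
# J6a: the volume of the piecewise smooth profile
-/

namespace Pool.Agent.Emb

open Set Real

namespace J6a_

lemma ramp_cont : Continuous ramp := by
  unfold ramp
  fun_prop

lemma psi0_cont : Continuous psi0 := by
  unfold psi0
  have h := ramp_cont
  fun_prop

lemma f_cont : Continuous fun t => sin (2 * psi0 t) := by
  have h := psi0_cont
  fun_prop

lemma ramp_neg {t : ℝ} (h : t ≤ 0) : ramp t = 0 := by
  unfold ramp
  rw [max_eq_right h, max_eq_right (by linarith), max_eq_right (by linarith),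
    max_eq_right (by linarith)]
  ring

lemma ramp_one {t : ℝ} (h : 0 ≤ t) (h' : t ≤ 1 / 12) : ramp t = 6 * π * t ^ 2 := by
  unfold ramp
  rw [max_eq_left h, max_eq_right (by linarith), max_eq_right (by linarith),
    max_eq_right (by linarith)]
  ring

lemma ramp_two {t : ℝ} (h : 1 / 12 ≤ t) (h' : t ≤ 1 / 6) : ramp t = π * t - π / 24 := by
  unfold ramp
  rw [max_eq_left (by linarith), max_eq_left (by linarith), max_eq_right (by linarith),
    max_eq_right (by linarith)]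
  ring

lemma ramp_three {t : ℝ} (h : 1 / 6 ≤ t) (h' : t ≤ 1 / 4) :
    ramp t = π / 6 - 6 * π * (1 / 4 - t) ^ 2 := by
  unfold ramp
  rw [max_eq_left (by linarith), max_eq_left (by linarith), max_eq_left (by linarith),
    max_eq_right (by linarith)]
  ring

lemma ramp_four {t : ℝ} (h : 1 / 4 ≤ t) : ramp t = π / 6 := by
  unfold ramp
  rw [max_eq_left (by linarith), max_eq_left (by linarith), max_eq_left (by linarith),
    max_eq_left (by linarith)]
  ring

lemma f_first {t : ℝ} (h' : t ≤ 7 / 18) :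
    sin (2 * psi0 t) = sin (π / 3 + 2 * ramp t) := by
  unfold psi0
  rw [ramp_neg (t := t - 7 / 18) (by linarith)]
  congr 1
  ring

lemma f_second {s : ℝ} (h : 0 ≤ s) (h' : s ≤ 7 / 18) :
    sin (2 * psi0 (s + 7 / 18)) = sin (2 * psi0 s) := by
  rw [f_first h']
  unfold psi0
  rw [ramp_four (t := s + 7 / 18) (by linarith), add_sub_cancel_right,
    show 2 * (π / 6 + π / 6 - ramp s) = π - (π / 3 + 2 * ramp s) by ring, sin_pi_sub]

/-- The upper bound of the integrand on `[0, 1/12]`. -/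
noncomputable def g (t : ℝ) : ℝ :=
  √3 / 2 * (1 - 72 * π ^ 2 * t ^ 4 + 1080 * π ^ 4 * t ^ 8) + 6 * π * t ^ 2

lemma g_cont : Continuous g := by
  unfold g
  fun_prop

lemma sin_le_g {t : ℝ} (h : 0 ≤ t) (h' : t ≤ 1 / 12) : sin (π / 3 + 12 * π * t ^ 2) ≤ g t := by
  have hpi : 0 < π := pi_pos
  have hpi4 : π < 4 := pi_lt_four
  have ht2 : t ^ 2 ≤ 1 / 144 := by nlinarith
  have ht0 : 0 ≤ t ^ 2 := sq_nonneg t
  have hth : 0 ≤ 12 * π * t ^ 2 := by positivity
  have hth1 : 12 * π * t ^ 2 ≤ 1 := by nlinarith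
  rw [sin_add, sin_pi_div_three, cos_pi_div_three]
  have h1 : sin (12 * π * t ^ 2) ≤ 12 * π * t ^ 2 := sin_le hth
  have h2 := cos_bound (x := 12 * π * t ^ 2) (by rw [abs_of_nonneg hth]; exact hth1)
  rw [abs_of_nonneg hth] at h2
  have h3 := (abs_le.mp h2).2
  have h4 : cos (12 * π * t ^ 2) ≤ 1 - 72 * π ^ 2 * t ^ 4 + 1080 * π ^ 4 * t ^ 8 := by
    calc cos (12 * π * t ^ 2)
        ≤ (1 - (12 * π * t ^ 2) ^ 2 / 2) + (12 * π * t ^ 2) ^ 4 * (5 / 96) := by linarith
      _ = 1 - 72 * π ^ 2 * t ^ 4 + 1080 * π ^ 4 * t ^ 8 := by ring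
  have h5 : (0 : ℝ) ≤ √3 / 2 := by positivity
  unfold g
  have h6 := mul_le_mul_of_nonneg_left h4 h5
  linarith

lemma int_g : ∫ t in (0 : ℝ)..(1 / 12), g t =
    √3 / 2 * (1 / 12 - π ^ 2 / 17280 + 5 * π ^ 4 / 214990848) + π / 864 := by
  have h : ∀ t ∈ uIcc (0 : ℝ) (1 / 12), HasDerivAt (fun t => √3 / 2 *
      (t - 72 / 5 * π ^ 2 * t ^ 5 + 120 * π ^ 4 * t ^ 9) + 2 * π * t ^ 3) (g t) t := by
    intro t _
    have e1 := hasDerivAt_id' t
    have e5 := (hasDerivAt_pow 5 t).const_mul (72 / 5 * π ^ 2)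
    have e9 := (hasDerivAt_pow 9 t).const_mul (120 * π ^ 4)
    have e3 := (hasDerivAt_pow 3 t).const_mul (2 * π)
    have e := (((e1.sub e5).add e9).const_mul (√3 / 2)).add e3
    refine e.congr_deriv ?_
    unfold g
    norm_num
    ring
  rw [intervalIntegral.integral_eq_sub_of_hasDerivAt h (g_cont.intervalIntegrable _ _)]
  ring

lemma int_one : ∫ t in (0 : ℝ)..(1 / 12), sin (2 * psi0 t) ≤
    √3 / 2 * (1 / 12 - π ^ 2 / 17280 + 5 * π ^ 4 / 214990848) + π / 864 := by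
  rw [← int_g]
  refine intervalIntegral.integral_mono_on (by norm_num) (f_cont.intervalIntegrable _ _)
    (g_cont.intervalIntegrable _ _) fun t ht => ?_
  rw [f_first (by linarith [ht.2]), ramp_one ht.1 ht.2,
    show π / 3 + 2 * (6 * π * t ^ 2) = π / 3 + 12 * π * t ^ 2 by ring]
  exact sin_le_g ht.1 ht.2

lemma int_three : ∫ t in (1 / 6 : ℝ)..(1 / 4), sin (2 * psi0 t) ≤
    √3 / 2 * (1 / 12 - π ^ 2 / 17280 + 5 * π ^ 4 / 214990848) + π / 864 := by
  have hg : ∫ t in (1 / 6 : ℝ)..(1 / 4), g (1 / 4 - t) = ∫ t in (0 : ℝ)..(1 / 12), g t := by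
    rw [intervalIntegral.integral_comp_sub_left (fun t => g t) (1 / 4)]
    norm_num
  rw [← int_g, ← hg]
  refine intervalIntegral.integral_mono_on (by norm_num) (f_cont.intervalIntegrable _ _)
    ((g_cont.comp (by fun_prop : Continuous fun t : ℝ => 1 / 4 - t)).intervalIntegrable _ _)
    fun t ht => ?_
  rw [f_first (by linarith [ht.2]), ramp_three ht.1 ht.2,
    show π / 3 + 2 * (π / 6 - 6 * π * (1 / 4 - t) ^ 2)
      = π - (π / 3 + 12 * π * (1 / 4 - t) ^ 2) by ring, sin_pi_sub]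
  exact sin_le_g (by linarith [ht.2]) (by linarith [ht.1])

lemma cos_value : cos (5 * π / 12) = √2 * (√3 - 1) / 4 := by
  rw [show 5 * π / 12 = π / 4 + π / 6 by ring, cos_add, cos_pi_div_four, sin_pi_div_four,
    cos_pi_div_six, sin_pi_div_six]
  ring

lemma int_two : ∫ t in (1 / 12 : ℝ)..(1 / 6), sin (2 * psi0 t) = √2 * (√3 - 1) / (4 * π) := by
  have hpi : π ≠ 0 := pi_ne_zero
  have h1 : ∫ t in (1 / 12 : ℝ)..(1 / 6), sin (2 * psi0 t)
      = ∫ t in (1 / 12 : ℝ)..(1 / 6), sin (π / 4 + 2 * π * t) := by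
    refine intervalIntegral.integral_congr fun t ht => ?_
    rw [uIcc_of_le (by norm_num)] at ht
    show sin (2 * psi0 t) = sin (π / 4 + 2 * π * t)
    rw [f_first (by linarith [ht.2]), ramp_two ht.1 ht.2]
    congr 1
    ring
  have h : ∀ t ∈ uIcc (1 / 12 : ℝ) (1 / 6), HasDerivAt
      (fun t => -cos (π / 4 + 2 * π * t) / (2 * π)) (sin (π / 4 + 2 * π * t)) t := by
    intro t _
    have e1 : HasDerivAt (fun t : ℝ => π / 4 + 2 * π * t) (2 * π) t := by
      simpa using ((hasDerivAt_id' t).const_mul (2 * π)).const_add (π / 4)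
    have e := (e1.cos.neg).div_const (2 * π)
    refine e.congr_deriv ?_
    field_simp
  rw [h1, intervalIntegral.integral_eq_sub_of_hasDerivAt h
    ((by fun_prop : Continuous fun t : ℝ => sin (π / 4 + 2 * π * t)).intervalIntegrable _ _),
    show π / 4 + 2 * π * (1 / 6) = π - 5 * π / 12 by ring,
    show π / 4 + 2 * π * (1 / 12) = 5 * π / 12 by ring, cos_pi_sub, cos_value]
  field_simp
  ring

lemma int_four : ∫ t in (1 / 4 : ℝ)..(7 / 18), sin (2 * psi0 t) = 5 / 72 * √3 := by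
  have h1 : ∫ t in (1 / 4 : ℝ)..(7 / 18), sin (2 * psi0 t)
      = ∫ _ in (1 / 4 : ℝ)..(7 / 18), √3 / 2 := by
    refine intervalIntegral.integral_congr fun t ht => ?_
    rw [uIcc_of_le (by norm_num)] at ht
    show sin (2 * psi0 t) = √3 / 2
    rw [f_first ht.2, ramp_four ht.1, show π / 3 + 2 * (π / 6) = π - π / 3 by ring, sin_pi_sub,
      sin_pi_div_three]
  rw [h1, intervalIntegral.integral_const, smul_eq_mul]
  ring

lemma int_half : ∫ t in (0 : ℝ)..(7 / 18), sin (2 * psi0 t) ≤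
    2 * (√3 / 2 * (1 / 12 - π ^ 2 / 17280 + 5 * π ^ 4 / 214990848) + π / 864)
      + √2 * (√3 - 1) / (4 * π) + 5 / 72 * √3 := by
  have i : ∀ a b : ℝ, IntervalIntegrable (fun t => sin (2 * psi0 t)) MeasureTheory.volume a b :=
    fun a b => f_cont.intervalIntegrable a b
  rw [← intervalIntegral.integral_add_adjacent_intervals (i 0 (1 / 4)) (i (1 / 4) (7 / 18)),
    ← intervalIntegral.integral_add_adjacent_intervals (i 0 (1 / 6)) (i (1 / 6) (1 / 4)),
    ← intervalIntegral.integral_add_adjacent_intervals (i 0 (1 / 12)) (i (1 / 12) (1 / 6)),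
    int_two, int_four]
  linarith [int_one, int_three]

lemma int_second : ∫ t in (7 / 18 : ℝ)..(7 / 9), sin (2 * psi0 t)
    = ∫ t in (0 : ℝ)..(7 / 18), sin (2 * psi0 t) := by
  have h1 : ∫ s in (0 : ℝ)..(7 / 18), sin (2 * psi0 (s + 7 / 18))
      = ∫ t in (7 / 18 : ℝ)..(7 / 9), sin (2 * psi0 t) := by
    rw [intervalIntegral.integral_comp_add_right (fun t => sin (2 * psi0 t)) (7 / 18)]
    norm_num
  rw [← h1]
  refine intervalIntegral.integral_congr fun s hs => ?_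
  rw [uIcc_of_le (by norm_num)] at hs
  exact f_second hs.1 hs.2

lemma numeric : 2 * (2 * (√3 / 2 * (1 / 12 - π ^ 2 / 17280 + 5 * π ^ 4 / 214990848) + π / 864)
      + √2 * (√3 - 1) / (4 * π) + 5 / 72 * √3) ≤ 1 / √2 - 1 / 1950 := by
  have p1 : 3.141592 < π := pi_gt_d6
  have p2 : π < 3.141593 := pi_lt_d6
  have a1 : √3 ≤ 1.732051 := sqrt_le_iff.mpr (by norm_num)
  have a0 : 1.73205 ≤ √3 := le_sqrt_of_sq_le (by norm_num)
  have b1 : √2 ≤ 1.414214 := sqrt_le_iff.mpr (by norm_num)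
  have b0 : 1.41421 ≤ √2 := le_sqrt_of_sq_le (by norm_num)
  have c1 : √2 * (√3 - 1) / (4 * π) ≤ 1.414214 * 0.732051 / (4 * 3.141592) := by
    apply div_le_div₀ (by norm_num) _ (by norm_num) (by linarith)
    apply mul_le_mul b1 (by linarith) (by linarith) (by norm_num)
  have c2 : (1 : ℝ) / 1.414214 ≤ 1 / √2 := one_div_le_one_div_of_le (by linarith) b1
  have q2 : 3.141592 ^ 2 ≤ π ^ 2 := pow_le_pow_left₀ (by norm_num) p1.le 2
  have q4 : π ^ 4 ≤ 3.141593 ^ 4 := pow_le_pow_left₀ (by linarith) p2.le 4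
  have c3 : 1 / 12 - π ^ 2 / 17280 + 5 * π ^ 4 / 214990848
      ≤ 1 / 12 - 3.141592 ^ 2 / 17280 + 5 * 3.141593 ^ 4 / 214990848 := by
    have := q2
    have := q4
    linarith
  have c4 : √3 / 2 * (1 / 12 - π ^ 2 / 17280 + 5 * π ^ 4 / 214990848)
      ≤ 1.732051 / 2 * (1 / 12 - 3.141592 ^ 2 / 17280 + 5 * 3.141593 ^ 4 / 214990848) := by
    refine (mul_le_mul_of_nonneg_left c3 (by positivity)).trans ?_
    exact mul_le_mul_of_nonneg_right (by linarith) (by norm_num)
  norm_num at c1 c2 c4 ⊢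
  linarith

end J6a_

theorem j6a : T_vol0 := by
  unfold T_vol0
  have i : ∀ a b : ℝ, IntervalIntegrable (fun t => sin (2 * psi0 t)) MeasureTheory.volume a b :=
    fun a b => J6a_.f_cont.intervalIntegrable a b
  rw [← intervalIntegral.integral_add_adjacent_intervals (i 0 (7 / 18)) (i (7 / 18) (7 / 9)),
    J6a_.int_second]
  linarith [J6a_.int_half, J6a_.numeric]

end Pool.Agent.Emb
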