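import Pool.Agent.Emb.Targets

/-!
# J6b: the length of the classes `(1; ±1, 0)` of the piecewise smooth profile
-/

namespace Pool.Agent.Emb

open scoped ContDiff Real
open Set Real

namespace J6b_

/-! ### Taylor bounds -/

theorem nonneg_of_deriv {f f' : ℝ → ℝ} (hf : ∀ x, HasDerivAt f (f' x) x) (h0 : f 0 = 0)
    (hp : ∀ x, 0 ≤ x → 0 ≤ f' x) (x : ℝ) (hx : 0 ≤ x) : 0 ≤ f x := by
  have hm : MonotoneOn f (Ici 0) := by
    apply monotoneOn_of_deriv_nonneg (convex_Ici 0)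
    · exact fun y _ => (hf y).continuousAt.continuousWithinAt
    · exact fun y _ => (hf y).differentiableAt.differentiableWithinAt
    · intro y hy
      rw [interior_Ici] at hy
      rw [(hf y).deriv]
      exact hp y (le_of_lt hy)
  have := hm (mem_Ici.2 le_rfl) (mem_Ici.2 hx) hx
  rwa [h0] at this

theorem s1 (x : ℝ) (hx : 0 ≤ x) : 0 ≤ x - sin x := by
  refine nonneg_of_deriv (f := fun x => x - sin x) (f' := fun x => 1 - cos x)
    (fun y => (hasDerivAt_id y).sub (Real.hasDerivAt_sin y)) (by simp) ?_ x hx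
  intro y _
  linarith [Real.cos_le_one y]

theorem c2 (x : ℝ) (hx : 0 ≤ x) : 0 ≤ cos x - (1 - x ^ 2 / 2) := by
  refine nonneg_of_deriv (f := fun x => cos x - (1 - x ^ 2 / 2)) (f' := fun x => x - sin x)
    (fun y => ?_) (by simp) s1 x hx
  have h := (Real.hasDerivAt_cos y).sub (((hasDerivAt_id y).pow 2).div_const 2 |>.const_sub 1)
  refine h.congr_deriv ?_
  simp
  ring

theorem s3 (x : ℝ) (hx : 0 ≤ x) : 0 ≤ sin x - (x - x ^ 3 / 6) := by
  refine nonneg_of_deriv (f := fun x => sin x - (x - x ^ 3 / 6))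
    (f' := fun x => cos x - (1 - x ^ 2 / 2)) (fun y => ?_) (by simp) c2 x hx
  have h := (Real.hasDerivAt_sin y).sub ((hasDerivAt_id y).sub
    (((hasDerivAt_id y).pow 3).div_const 6))
  refine h.congr_deriv ?_
  simp
  ring

theorem c4 (x : ℝ) (hx : 0 ≤ x) : 0 ≤ (1 - x ^ 2 / 2 + x ^ 4 / 24) - cos x := by
  refine nonneg_of_deriv (f := fun x => (1 - x ^ 2 / 2 + x ^ 4 / 24) - cos x)
    (f' := fun x => sin x - (x - x ^ 3 / 6)) (fun y => ?_) (by simp) s3 x hx
  have h := ((((hasDerivAt_id y).pow 2).div_const 2 |>.const_sub 1).add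
    (((hasDerivAt_id y).pow 4).div_const 24)).sub (Real.hasDerivAt_cos y)
  refine h.congr_deriv ?_
  simp
  ring

theorem s5 (x : ℝ) (hx : 0 ≤ x) : 0 ≤ (x - x ^ 3 / 6 + x ^ 5 / 120) - sin x := by
  refine nonneg_of_deriv (f := fun x => (x - x ^ 3 / 6 + x ^ 5 / 120) - sin x)
    (f' := fun x => (1 - x ^ 2 / 2 + x ^ 4 / 24) - cos x) (fun y => ?_) (by simp) c4 x hx
  have h := (((hasDerivAt_id y).sub (((hasDerivAt_id y).pow 3).div_const 6)).add
    (((hasDerivAt_id y).pow 5).div_const 120)).sub (Real.hasDerivAt_sin y)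
  refine h.congr_deriv ?_
  simp
  ring

theorem c6 (x : ℝ) (hx : 0 ≤ x) : 0 ≤ cos x - (1 - x ^ 2 / 2 + x ^ 4 / 24 - x ^ 6 / 720) := by
  refine nonneg_of_deriv (f := fun x => cos x - (1 - x ^ 2 / 2 + x ^ 4 / 24 - x ^ 6 / 720))
    (f' := fun x => (x - x ^ 3 / 6 + x ^ 5 / 120) - sin x) (fun y => ?_) (by simp) s5 x hx
  have h := (Real.hasDerivAt_cos y).sub (((((hasDerivAt_id y).pow 2).div_const 2 |>.const_sub 1).add
    (((hasDerivAt_id y).pow 4).div_const 24)).sub (((hasDerivAt_id y).pow 6).div_const 720))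
  refine h.congr_deriv ?_
  simp
  ring

theorem s7 (x : ℝ) (hx : 0 ≤ x) :
    0 ≤ sin x - (x - x ^ 3 / 6 + x ^ 5 / 120 - x ^ 7 / 5040) := by
  refine nonneg_of_deriv (f := fun x => sin x - (x - x ^ 3 / 6 + x ^ 5 / 120 - x ^ 7 / 5040))
    (f' := fun x => cos x - (1 - x ^ 2 / 2 + x ^ 4 / 24 - x ^ 6 / 720)) (fun y => ?_) (by simp)
    c6 x hx
  have h := (Real.hasDerivAt_sin y).sub (((((hasDerivAt_id y).sub
    (((hasDerivAt_id y).pow 3).div_const 6)).add
    (((hasDerivAt_id y).pow 5).div_const 120))).sub (((hasDerivAt_id y).pow 7).div_const 5040))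
  refine h.congr_deriv ?_
  simp
  ring

/-! ### Nodes and chords -/

/-- `c ≤ √(1 - (5/13)² / cos² (π x))`, without the root. -/
def Nd (x c : ℝ) : Prop := (5 / 13 : ℝ) ^ 2 ≤ (1 - c ^ 2) * cos (π * x) ^ 2

theorem nd_sqrt {x c : ℝ} (h : Nd x c) (hc : cos (π * x) ≠ 0) :
    c ≤ √(1 - (5 / 13) ^ 2 / cos (π * x) ^ 2) := by
  have hp : 0 < cos (π * x) ^ 2 := by positivity
  apply Real.le_sqrt_of_sq_le
  have : (5 / 13 : ℝ) ^ 2 / cos (π * x) ^ 2 ≤ 1 - c ^ 2 := by
    rw [div_le_iff₀ hp]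
    exact h
  linarith

theorem cos_pos' {x : ℝ} (h0 : 0 ≤ x) (h1 : x < 1 / 2) : 0 < cos (π * x) := by
  apply Real.cos_pos_of_mem_Ioo
  constructor <;> nlinarith [Real.pi_pos]

theorem nd_line {x₁ x₂ c₁ c₂ α β : ℝ} (h1 : Nd x₁ c₁) (h2 : Nd x₂ c₂) (hx1 : 0 ≤ x₁)
    (hx1' : x₁ < 1 / 2) (hx2 : 0 ≤ x₂) (hx2' : x₂ < 1 / 2) (hc1 : 0 ≤ c₁) (hc1' : c₁ < 1)
    (_ : 0 ≤ c₂) (hc2' : c₂ < 1) (hα : 0 ≤ α) (hβ : 0 ≤ β) (hab : α + β = 1) :
    Nd (α * x₁ + β * x₂) (α * c₁ + β * c₂) := by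
  have hπ := Real.pi_pos
  have hC1 := cos_pos' hx1 hx1'
  have hC2 := cos_pos' hx2 hx2'
  have hcc : α * cos (π * x₁) + β * cos (π * x₂) ≤ cos (π * (α * x₁ + β * x₂)) := by
    have h := strictConcaveOn_cos_Icc.concaveOn.2 (x := π * x₁) (y := π * x₂)
      (by constructor <;> nlinarith) (by constructor <;> nlinarith) hα hβ hab
    simp only [smul_eq_mul] at h
    rwa [show α * (π * x₁) + β * (π * x₂) = π * (α * x₁ + β * x₂) by ring] at h
  unfold Nd at h1 h2 ⊢
  set C₁ := cos (π * x₁)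
  set C₂ := cos (π * x₂)
  set C := cos (π * (α * x₁ + β * x₂))
  have he1 : 0 < 1 - c₁ ^ 2 := by nlinarith
  have he2 : 0 < 1 - c₂ ^ 2 := by nlinarith
  obtain ⟨d₁, hd1, hd1'⟩ : ∃ d, 0 ≤ d ∧ d ^ 2 = 1 - c₁ ^ 2 :=
    ⟨_, Real.sqrt_nonneg _, Real.sq_sqrt he1.le⟩
  obtain ⟨d₂, hd2, hd2'⟩ : ∃ d, 0 ≤ d ∧ d ^ 2 = 1 - c₂ ^ 2 :=
    ⟨_, Real.sqrt_nonneg _, Real.sq_sqrt he2.le⟩
  have k1 : 5 / 13 ≤ d₁ * C₁ := by
    apply le_of_sq_le_sq _ (by positivity)
    rw [mul_pow, hd1']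
    exact h1
  have k2 : 5 / 13 ≤ d₂ * C₂ := by
    apply le_of_sq_le_sq _ (by positivity)
    rw [mul_pow, hd2']
    exact h2
  have k3 : 2 * (5 / 13) ≤ d₁ * C₂ + d₂ * C₁ := by
    apply le_of_sq_le_sq _ (by positivity)
    have : (5 / 13) * (5 / 13) ≤ (d₁ * C₁) * (d₂ * C₂) :=
      mul_le_mul k1 k2 (by norm_num) (by positivity)
    nlinarith [sq_nonneg (d₁ * C₂ - d₂ * C₁)]
  have k4 : d₁ * d₂ ≤ 1 - c₁ * c₂ := by
    apply le_of_sq_le_sq _ (by nlinarith)
    rw [mul_pow, hd1', hd2']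
    nlinarith [sq_nonneg (c₁ - c₂)]
  have k5 : (α * d₁ + β * d₂) ^ 2 ≤ 1 - (α * c₁ + β * c₂) ^ 2 := by
    have : 1 - (α * c₁ + β * c₂) ^ 2 - (α * d₁ + β * d₂) ^ 2
        = 2 * (α * β) * (1 - c₁ * c₂ - d₁ * d₂) := by
      have e1 : (α + β) ^ 2 = 1 := by rw [hab]; norm_num
      linear_combination -e1 - α ^ 2 * hd1' - β ^ 2 * hd2'
    have : 0 ≤ 2 * (α * β) * (1 - c₁ * c₂ - d₁ * d₂) := by
      apply mul_nonneg (by positivity)
      linarith
    linarith
  have k6 : 5 / 13 ≤ (α * d₁ + β * d₂) * (α * C₁ + β * C₂) := by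
    have e : (α * d₁ + β * d₂) * (α * C₁ + β * C₂)
        = α ^ 2 * (d₁ * C₁) + β ^ 2 * (d₂ * C₂) + α * β * (d₁ * C₂ + d₂ * C₁) := by ring
    have e2 : (5 / 13 : ℝ) = α ^ 2 * (5 / 13) + β ^ 2 * (5 / 13) + α * β * (2 * (5 / 13)) := by
      have e1 : (α + β) ^ 2 = 1 := by rw [hab]; norm_num
      linear_combination -(5 / 13) * e1
    rw [e, e2]
    gcongr
  have k7 : 0 ≤ α * C₁ + β * C₂ := by positivity
  have k8 : 0 ≤ α * d₁ + β * d₂ := by positivity
  calc (5 / 13 : ℝ) ^ 2 ≤ ((α * d₁ + β * d₂) * (α * C₁ + β * C₂)) ^ 2 := by gcongr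
    _ = (α * d₁ + β * d₂) ^ 2 * (α * C₁ + β * C₂) ^ 2 := by ring
    _ ≤ (1 - (α * c₁ + β * c₂) ^ 2) * C ^ 2 := by
        apply mul_le_mul k5 _ (by positivity) (le_trans (by positivity) k5)
        gcongr

/-- A node in `[1/4, 1/2)`. -/
theorem nd_hi {x c w : ℝ} (hx : 1 / 4 ≤ x) (hw : 2 * 3.1415927 * (x - 1 / 4) ≤ w) (hw1 : w ≤ 1)
    (h0 : 0 ≤ c) (hc : c ≤ 1)
    (h : 50 / 169 ≤ (1 - c ^ 2) * (1 - (w - w ^ 3 / 6 + w ^ 5 / 120))) : Nd x c := by
  have hπ' := Real.pi_gt_three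
  have e : cos (π * x) ^ 2 = (1 - sin (2 * π * (x - 1 / 4))) / 2 := by
    have e1 := Real.cos_sq (π * x)
    have e2 : cos (2 * (π * x)) = - sin (2 * π * (x - 1 / 4)) := by
      rw [show 2 * (π * x) = 2 * π * (x - 1 / 4) + π / 2 by ring, Real.cos_add_pi_div_two]
    rw [e1, e2]
    ring
  have hw0 : 2 * π * (x - 1 / 4) ≤ w := by
    refine le_trans ?_ hw
    have : π ≤ 3.1415927 := by linarith [Real.pi_lt_d20]
    nlinarith
  have h2 : 0 ≤ 2 * π * (x - 1 / 4) := by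
    apply mul_nonneg (by positivity)
    linarith
  have hs : sin (2 * π * (x - 1 / 4)) ≤ sin w :=
    Real.sin_le_sin_of_le_of_le_pi_div_two (by linarith) (by linarith) hw0
  have h5 := s5 w (by linarith)
  unfold Nd
  rw [e]
  have : 0 ≤ 1 - c ^ 2 := by nlinarith
  nlinarith [mul_nonneg this (by linarith :
    0 ≤ (w - w ^ 3 / 6 + w ^ 5 / 120) - sin (2 * π * (x - 1 / 4)))]

/-- A node in `[0, 1/4]`. -/
theorem nd_lo {x c v : ℝ} (hx0 : 0 ≤ x) (hx : x ≤ 1 / 4)
    (hv : v ≤ 2 * 3.1415926 * (1 / 4 - x)) (hv0 : 0 ≤ v) (h0 : 0 ≤ c) (hc : c ≤ 1)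
    (h : 50 / 169 ≤ (1 - c ^ 2) * (1 + (v - v ^ 3 / 6 + v ^ 5 / 120 - v ^ 7 / 5040))) :
    Nd x c := by
  have e : cos (π * x) ^ 2 = (1 + sin (2 * π * (1 / 4 - x))) / 2 := by
    have e1 := Real.cos_sq (π * x)
    have e2 : cos (2 * (π * x)) = sin (2 * π * (1 / 4 - x)) := by
      rw [show 2 * (π * x) = π / 2 - 2 * π * (1 / 4 - x) by ring, Real.cos_pi_div_two_sub]
    rw [e1, e2]
    ring
  have hw0 : v ≤ 2 * π * (1 / 4 - x) := by
    refine le_trans hv ?_
    have : 3.1415926 ≤ π := by linarith [Real.pi_gt_d20]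
    nlinarith
  have hs : sin v ≤ sin (2 * π * (1 / 4 - x)) :=
    Real.sin_le_sin_of_le_of_le_pi_div_two (by linarith [Real.pi_pos])
      (by nlinarith [Real.pi_pos]) hw0
  have h7 := s7 v hv0
  unfold Nd
  rw [e]
  have : 0 ≤ 1 - c ^ 2 := by nlinarith
  nlinarith [mul_nonneg this (by linarith :
    0 ≤ sin (2 * π * (1 / 4 - x)) - (v - v ^ 3 / 6 + v ^ 5 / 120 - v ^ 7 / 5040))]

/-! ### The ramp -/

theorem ramp_neg {t : ℝ} (h : t ≤ 0) : ramp t = 0 := by
  unfold ramp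
  rw [max_eq_right h, max_eq_right (by linarith : t - 1 / 12 ≤ 0),
    max_eq_right (by linarith : t - 1 / 6 ≤ 0), max_eq_right (by linarith : t - 1 / 4 ≤ 0)]
  ring

theorem ramp_a {t : ℝ} (h0 : 0 ≤ t) (h1 : t ≤ 1 / 12) : ramp t = 6 * π * t ^ 2 := by
  unfold ramp
  rw [max_eq_left h0, max_eq_right (by linarith : t - 1 / 12 ≤ 0),
    max_eq_right (by linarith : t - 1 / 6 ≤ 0), max_eq_right (by linarith : t - 1 / 4 ≤ 0)]
  ring

theorem ramp_b {t : ℝ} (h0 : 1 / 12 ≤ t) (h1 : t ≤ 1 / 6) : ramp t = π * t - π / 24 := by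
  unfold ramp
  rw [max_eq_left (by linarith : 0 ≤ t), max_eq_left (by linarith : 0 ≤ t - 1 / 12),
    max_eq_right (by linarith : t - 1 / 6 ≤ 0), max_eq_right (by linarith : t - 1 / 4 ≤ 0)]
  ring

theorem ramp_c {t : ℝ} (h0 : 1 / 6 ≤ t) (h1 : t ≤ 1 / 4) :
    ramp t = π / 6 - 6 * π * (1 / 4 - t) ^ 2 := by
  unfold ramp
  rw [max_eq_left (by linarith : 0 ≤ t), max_eq_left (by linarith : 0 ≤ t - 1 / 12),
    max_eq_left (by linarith : 0 ≤ t - 1 / 6), max_eq_right (by linarith : t - 1 / 4 ≤ 0)]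
  ring

theorem ramp_d {t : ℝ} (h0 : 1 / 4 ≤ t) : ramp t = π / 6 := by
  unfold ramp
  rw [max_eq_left (by linarith : 0 ≤ t), max_eq_left (by linarith : 0 ≤ t - 1 / 12),
    max_eq_left (by linarith : 0 ≤ t - 1 / 6), max_eq_left (by linarith : 0 ≤ t - 1 / 4)]
  ring

theorem ramp_symm (t : ℝ) : ramp (1 / 4 - t) = π / 6 - ramp t := by
  rcases le_total t 0 with h | h0
  · rw [ramp_neg h, ramp_d (by linarith)]
    ring
  rcases le_total t (1 / 12) with h1 | h1
  · rw [ramp_a h0 h1, ramp_c (by linarith) (by linarith)]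
    ring
  rcases le_total t (1 / 6) with h2 | h2
  · rw [ramp_b h1 h2, ramp_b (by linarith) (by linarith)]
    ring
  rcases le_total t (1 / 4) with h3 | h3
  · rw [ramp_c h2 h3, ramp_a (by linarith) (by linarith)]
    ring
  · rw [ramp_d h3, ramp_neg (by linarith)]
    ring

theorem ramp_mem (t : ℝ) : 0 ≤ ramp t ∧ ramp t ≤ π / 6 := by
  have hπ := Real.pi_pos
  rcases le_total t 0 with h | h0
  · rw [ramp_neg h]
    constructor <;> linarith
  rcases le_total t (1 / 12) with h1 | h1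
  · rw [ramp_a h0 h1]
    constructor
    · positivity
    · nlinarith [mul_nonneg h0 (by linarith : 0 ≤ 1 / 12 - t)]
  rcases le_total t (1 / 6) with h2 | h2
  · rw [ramp_b h1 h2]
    constructor <;> nlinarith
  rcases le_total t (1 / 4) with h3 | h3
  · rw [ramp_c h2 h3]
    have : 0 ≤ (1 / 4 - t) ^ 2 := sq_nonneg _
    have h4 : (1 / 4 - t) ^ 2 ≤ (1 / 12) ^ 2 := by
      apply pow_le_pow_left₀ <;> linarith
    constructor <;> nlinarith
  · rw [ramp_d h3]
    constructor <;> linarith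

theorem ramp_cont : Continuous ramp := by
  unfold ramp
  fun_prop

/-- The integrand along the ramp. -/
noncomputable def g (t : ℝ) : ℝ := √(1 - (5 / 13) ^ 2 / cos (π / 6 + ramp t) ^ 2)

theorem g_cont : Continuous g := by
  unfold g
  have h := ramp_cont
  apply Continuous.sqrt
  apply continuous_const.sub
  apply continuous_const.div
  · fun_prop
  · intro t
    obtain ⟨h0, h1⟩ := ramp_mem t
    have hπ := Real.pi_pos
    have : 0 < cos (π / 6 + ramp t) := by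
      apply Real.cos_pos_of_mem_Ioo
      constructor <;> linarith
    positivity

theorem int_quad (p q r a b : ℝ) : ∫ t in a..b, (p + q * t + r * t ^ 2)
    = p * (b - a) + q * (b ^ 2 - a ^ 2) / 2 + r * (b ^ 3 - a ^ 3) / 3 := by
  have h : ∀ t ∈ uIcc a b, HasDerivAt (fun t => p * t + q * t ^ 2 / 2 + r * t ^ 3 / 3)
      (p + q * t + r * t ^ 2) t := by
    intro t _
    have h := (((hasDerivAt_id t).const_mul p).add
      ((((hasDerivAt_id t).pow 2).const_mul q).div_const 2)).add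
      ((((hasDerivAt_id t).pow 3).const_mul r).div_const 3)
    refine h.congr_deriv ?_
    simp
    ring
  rw [intervalIntegral.integral_eq_sub_of_hasDerivAt h
    (Continuous.intervalIntegrable (by fun_prop) _ _)]
  ring

theorem piece {t₁ t₂ x₁ x₂ c₁ c₂ r₀ r₁ r₂ : ℝ} (ht : t₁ ≤ t₂) (hx : x₁ < x₂) (hx1 : 0 ≤ x₁)
    (hx2 : x₂ < 1 / 2) (hc1 : 0 ≤ c₁) (hc1' : c₁ < 1) (hc2 : 0 ≤ c₂) (hc2' : c₂ < 1)
    (n1 : Nd x₁ c₁) (n2 : Nd x₂ c₂)
    (hr : ∀ t ∈ Icc t₁ t₂, π / 6 + ramp t = π * (r₀ + r₁ * t + r₂ * t ^ 2))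
    (hX : ∀ t ∈ Icc t₁ t₂, r₀ + r₁ * t + r₂ * t ^ 2 ∈ Icc x₁ x₂) :
    (c₁ - (c₂ - c₁) / (x₂ - x₁) * x₁ + (c₂ - c₁) / (x₂ - x₁) * r₀) * (t₂ - t₁)
      + ((c₂ - c₁) / (x₂ - x₁) * r₁) * (t₂ ^ 2 - t₁ ^ 2) / 2
      + ((c₂ - c₁) / (x₂ - x₁) * r₂) * (t₂ ^ 3 - t₁ ^ 3) / 3 ≤ ∫ t in t₁..t₂, g t := by
  rw [← int_quad]
  apply intervalIntegral.integral_mono_on ht (Continuous.intervalIntegrable (by fun_prop) _ _)
    (g_cont.intervalIntegrable _ _)
  intro t h
  have hd : 0 < x₂ - x₁ := by linarith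
  have e := hr t h
  obtain ⟨hX1, hX2⟩ := hX t h
  unfold g
  rw [e]
  set X := r₀ + r₁ * t + r₂ * t ^ 2 with hXd
  have hn := nd_line n1 n2 hx1 (by linarith) (by linarith) hx2 hc1 hc1' hc2 hc2'
    (α := (x₂ - X) / (x₂ - x₁)) (β := (X - x₁) / (x₂ - x₁))
    (div_nonneg (by linarith) hd.le) (div_nonneg (by linarith) hd.le)
    (by field_simp; ring)
  have e1 : (x₂ - X) / (x₂ - x₁) * x₁ + (X - x₁) / (x₂ - x₁) * x₂ = X := by
    field_simp
    ring
  have e2 : (x₂ - X) / (x₂ - x₁) * c₁ + (X - x₁) / (x₂ - x₁) * c₂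
      = c₁ - (c₂ - c₁) / (x₂ - x₁) * x₁ + (c₂ - c₁) / (x₂ - x₁) * r₀
      + ((c₂ - c₁) / (x₂ - x₁) * r₁) * t + ((c₂ - c₁) / (x₂ - x₁) * r₂) * t ^ 2 := by
    rw [hXd]
    field_simp
    ring
  rw [e1, e2] at hn
  exact nd_sqrt hn (cos_pos' (by linarith) (by linarith)).ne'

/-! ### The nodes and the pieces -/

theorem n0 : Nd (1 / 6) (22399 / 25000) := by
  apply nd_lo (v := 5235987 / 10000000) <;> norm_num

theorem n1 : Nd (5 / 27) (88773 / 100000) := by
  apply nd_lo (v := 2036217 / 5000000) <;> norm_num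

theorem n2 : Nd (5 / 24) (43731 / 50000) := by
  apply nd_lo (v := 2617993 / 10000000) <;> norm_num

theorem n3 : Nd (11 / 48) (21481 / 25000) := by
  apply nd_lo (v := 327249 / 2500000) <;> norm_num

theorem n4 : Nd (1 / 4) (83913 / 100000) := by
  apply nd_lo (v := 0) <;> norm_num

theorem n5 : Nd (13 / 48) (81223 / 100000) := by
  apply nd_hi (w := 1308997 / 10000000) <;> norm_num

theorem n6 : Nd (7 / 24) (77513 / 100000) := by
  apply nd_hi (w := 1308997 / 5000000) <;> norm_num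

theorem n7 : Nd (263 / 864) (74497 / 100000) := by
  apply nd_hi (w := 3417937 / 10000000) <;> norm_num

theorem n8 : Nd (17 / 54) (71421 / 100000) := by
  apply nd_hi (w := 814487 / 2000000) <;> norm_num

theorem n9 : Nd (1127 / 3456) (67229 / 100000) := by
  apply nd_hi (w := 1195369 / 2500000) <;> norm_num

theorem n10 : Nd (1 / 3) (7987 / 12500) := by
  apply nd_hi (w := 1308997 / 2500000) <;> norm_num

theorem p0 : 2481157 / 50000000 ≤ ∫ t in (0 : ℝ)..(1 / 18), g t := by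
  have h := piece (t₁ := 0) (t₂ := 1 / 18) (r₀ := 1 / 6) (r₁ := 0) (r₂ := 6)
    (by norm_num) (by norm_num) (by norm_num) (by norm_num) (by norm_num) (by norm_num)
    (by norm_num) (by norm_num) n0 n1 ?_ ?_
  · refine le_trans ?_ h
    norm_num
  · rintro t ⟨h1, h2⟩
    rw [ramp_a (by linarith) (by linarith)]
    ring
  · rintro t ⟨h1, h2⟩
    constructor <;> nlinarith

theorem p1 : 1224461 / 50000000 ≤ ∫ t in (1 / 18 : ℝ)..(1 / 12), g t := by
  have h := piece (t₁ := 1 / 18) (t₂ := 1 / 12) (r₀ := 1 / 6) (r₁ := 0) (r₂ := 6)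
    (by norm_num) (by norm_num) (by norm_num) (by norm_num) (by norm_num) (by norm_num)
    (by norm_num) (by norm_num) n1 n2 ?_ ?_
  · refine le_trans ?_ h
    norm_num
  · rintro t ⟨h1, h2⟩
    rw [ramp_a (by linarith) (by linarith)]
    ring
  · rintro t ⟨h1, h2⟩
    constructor <;> nlinarith

theorem p2 : 225763 / 12500000 ≤ ∫ t in (1 / 12 : ℝ)..(5 / 48), g t := by
  have h := piece (t₁ := 1 / 12) (t₂ := 5 / 48) (r₀ := 1 / 8) (r₁ := 1) (r₂ := 0)
    (by norm_num) (by norm_num) (by norm_num) (by norm_num) (by norm_num) (by norm_num)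
    (by norm_num) (by norm_num) n2 n3 ?_ ?_
  · refine le_trans ?_ h
    norm_num
  · rintro t ⟨h1, h2⟩
    rw [ramp_b (by linarith) (by linarith)]
    ring
  · rintro t ⟨h1, h2⟩
    constructor <;> nlinarith

theorem p3 : 353827 / 20000000 ≤ ∫ t in (5 / 48 : ℝ)..(1 / 8), g t := by
  have h := piece (t₁ := 5 / 48) (t₂ := 1 / 8) (r₀ := 1 / 8) (r₁ := 1) (r₂ := 0)
    (by norm_num) (by norm_num) (by norm_num) (by norm_num) (by norm_num) (by norm_num)
    (by norm_num) (by norm_num) n3 n4 ?_ ?_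
  · refine le_trans ?_ h
    norm_num
  · rintro t ⟨h1, h2⟩
    rw [ramp_b (by linarith) (by linarith)]
    ring
  · rintro t ⟨h1, h2⟩
    constructor <;> nlinarith

theorem p4 : 860083 / 50000000 ≤ ∫ t in (1 / 8 : ℝ)..(7 / 48), g t := by
  have h := piece (t₁ := 1 / 8) (t₂ := 7 / 48) (r₀ := 1 / 8) (r₁ := 1) (r₂ := 0)
    (by norm_num) (by norm_num) (by norm_num) (by norm_num) (by norm_num) (by norm_num)
    (by norm_num) (by norm_num) n4 n5 ?_ ?_
  · refine le_trans ?_ h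
    norm_num
  · rintro t ⟨h1, h2⟩
    rw [ramp_b (by linarith) (by linarith)]
    ring
  · rintro t ⟨h1, h2⟩
    constructor <;> nlinarith

theorem p5 : 3307 / 200000 ≤ ∫ t in (7 / 48 : ℝ)..(1 / 6), g t := by
  have h := piece (t₁ := 7 / 48) (t₂ := 1 / 6) (r₀ := 1 / 8) (r₁ := 1) (r₂ := 0)
    (by norm_num) (by norm_num) (by norm_num) (by norm_num) (by norm_num) (by norm_num)
    (by norm_num) (by norm_num) n5 n6 ?_ ?_
  · refine le_trans ?_ h
    norm_num
  · rintro t ⟨h1, h2⟩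
    rw [ramp_b (by linarith) (by linarith)]
    ring
  · rintro t ⟨h1, h2⟩
    constructor <;> nlinarith

theorem p6 : 105499 / 10000000 ≤ ∫ t in (1 / 6 : ℝ)..(13 / 72), g t := by
  have h := piece (t₁ := 1 / 6) (t₂ := 13 / 72) (r₀ := -1 / 24) (r₁ := 3) (r₂ := -6)
    (by norm_num) (by norm_num) (by norm_num) (by norm_num) (by norm_num) (by norm_num)
    (by norm_num) (by norm_num) n6 n7 ?_ ?_
  · refine le_trans ?_ h
    norm_num
  · rintro t ⟨h1, h2⟩
    rw [ramp_c (by linarith) (by linarith)]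
    ring
  · rintro t ⟨h1, h2⟩
    constructor <;> nlinarith

theorem p7 : 63283 / 6250000 ≤ ∫ t in (13 / 72 : ℝ)..(7 / 36), g t := by
  have h := piece (t₁ := 13 / 72) (t₂ := 7 / 36) (r₀ := -1 / 24) (r₁ := 3) (r₂ := -6)
    (by norm_num) (by norm_num) (by norm_num) (by norm_num) (by norm_num) (by norm_num)
    (by norm_num) (by norm_num) n7 n8 ?_ ?_
  · refine le_trans ?_ h
    norm_num
  · rintro t ⟨h1, h2⟩
    rw [ramp_c (by linarith) (by linarith)]
    ring
  · rintro t ⟨h1, h2⟩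
    constructor <;> nlinarith

theorem p8 : 1440911 / 100000000 ≤ ∫ t in (7 / 36 : ℝ)..(31 / 144), g t := by
  have h := piece (t₁ := 7 / 36) (t₂ := 31 / 144) (r₀ := -1 / 24) (r₁ := 3) (r₂ := -6)
    (by norm_num) (by norm_num) (by norm_num) (by norm_num) (by norm_num) (by norm_num)
    (by norm_num) (by norm_num) n8 n9 ?_ ?_
  · refine le_trans ?_ h
    norm_num
  · rintro t ⟨h1, h2⟩
    rw [ramp_c (by linarith) (by linarith)]
    ring
  · rintro t ⟨h1, h2⟩
    constructor <;> nlinarith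

theorem p9 : 2257187 / 100000000 ≤ ∫ t in (31 / 144 : ℝ)..(1 / 4), g t := by
  have h := piece (t₁ := 31 / 144) (t₂ := 1 / 4) (r₀ := -1 / 24) (r₁ := 3) (r₂ := -6)
    (by norm_num) (by norm_num) (by norm_num) (by norm_num) (by norm_num) (by norm_num)
    (by norm_num) (by norm_num) n9 n10 ?_ ?_
  · refine le_trans ?_ h
    norm_num
  · rintro t ⟨h1, h2⟩
    rw [ramp_c (by linarith) (by linarith)]
    ring
  · rintro t ⟨h1, h2⟩
    constructor <;> nlinarith

theorem J_ge : 80503 / 400000 ≤ ∫ t in (0 : ℝ)..(1 / 4), g t := by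
  have hi : ∀ a b : ℝ, IntervalIntegrable g MeasureTheory.volume a b :=
    fun a b => g_cont.intervalIntegrable a b
  have e1 := intervalIntegral.integral_add_adjacent_intervals (hi 0 (1 / 18))
    (hi (1 / 18) (1 / 12))
  have e2 := intervalIntegral.integral_add_adjacent_intervals (hi 0 (1 / 12))
    (hi (1 / 12) (5 / 48))
  have e3 := intervalIntegral.integral_add_adjacent_intervals (hi 0 (5 / 48))
    (hi (5 / 48) (1 / 8))
  have e4 := intervalIntegral.integral_add_adjacent_intervals (hi 0 (1 / 8))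
    (hi (1 / 8) (7 / 48))
  have e5 := intervalIntegral.integral_add_adjacent_intervals (hi 0 (7 / 48))
    (hi (7 / 48) (1 / 6))
  have e6 := intervalIntegral.integral_add_adjacent_intervals (hi 0 (1 / 6))
    (hi (1 / 6) (13 / 72))
  have e7 := intervalIntegral.integral_add_adjacent_intervals (hi 0 (13 / 72))
    (hi (13 / 72) (7 / 36))
  have e8 := intervalIntegral.integral_add_adjacent_intervals (hi 0 (7 / 36))
    (hi (7 / 36) (31 / 144))
  have e9 := intervalIntegral.integral_add_adjacent_intervals (hi 0 (31 / 144))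
    (hi (31 / 144) (1 / 4))
  linarith [p0, p1, p2, p3, p4, p5, p6, p7, p8, p9]

theorem low_ge : 22399 / 25000 * (5 / 36) ≤ ∫ t in (-5 / 36 : ℝ)..0, g t := by
  have h : ∫ _t in (-5 / 36 : ℝ)..0, (22399 / 25000 : ℝ) ≤ ∫ t in (-5 / 36 : ℝ)..0, g t := by
    apply intervalIntegral.integral_mono_on (by norm_num)
      (continuous_const.intervalIntegrable _ _) (g_cont.intervalIntegrable _ _)
    rintro t ⟨_, h2⟩
    unfold g
    rw [ramp_neg h2, show π / 6 + 0 = π * (1 / 6) by ring]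
    exact nd_sqrt n0 (cos_pos' (by norm_num) (by norm_num)).ne'
  refine le_trans (le_of_eq ?_) h
  rw [intervalIntegral.integral_const, smul_eq_mul]
  norm_num

theorem high_ge : 7987 / 12500 * (5 / 36) ≤ ∫ t in (1 / 4 : ℝ)..(7 / 18), g t := by
  have h : ∫ _t in (1 / 4 : ℝ)..(7 / 18), (7987 / 12500 : ℝ)
      ≤ ∫ t in (1 / 4 : ℝ)..(7 / 18), g t := by
    apply intervalIntegral.integral_mono_on (by norm_num)
      (continuous_const.intervalIntegrable _ _) (g_cont.intervalIntegrable _ _)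
    rintro t ⟨h1, _⟩
    unfold g
    rw [ramp_d h1, show π / 6 + π / 6 = π * (1 / 3) by ring]
    exact nd_sqrt n10 (cos_pos' (by norm_num) (by norm_num)).ne'
  refine le_trans (le_of_eq ?_) h
  rw [intervalIntegral.integral_const, smul_eq_mul]
  norm_num

theorem total_ge : 1 + 1 / 4000 ≤
    5 / 13 + ((∫ t in (0 : ℝ)..(7 / 18), g t) + ∫ t in (-5 / 36 : ℝ)..(1 / 4), g t) := by
  have hi : ∀ a b : ℝ, IntervalIntegrable g MeasureTheory.volume a b :=
    fun a b => g_cont.intervalIntegrable a b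
  have e1 := intervalIntegral.integral_add_adjacent_intervals (hi 0 (1 / 4))
    (hi (1 / 4) (7 / 18))
  have e2 := intervalIntegral.integral_add_adjacent_intervals (hi (-5 / 36) 0) (hi 0 (1 / 4))
  rw [← e1, ← e2]
  have := J_ge
  have := low_ge
  have := high_ge
  norm_num at *
  linarith

theorem psi_lo {t : ℝ} (h : t ≤ 7 / 18) : psi0 t = π / 6 + ramp t := by
  unfold psi0
  rw [ramp_neg (by linarith : t - 7 / 18 ≤ 0)]
  ring

theorem psi_hi {t : ℝ} (h : 7 / 18 ≤ t) : psi0 t = π / 3 - ramp (t - 7 / 18) := by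
  unfold psi0
  rw [ramp_d (by linarith : 1 / 4 ≤ t)]
  ring

theorem psi_mem (t : ℝ) : π / 6 ≤ psi0 t ∧ psi0 t ≤ π / 3 := by
  rcases le_total t (7 / 18) with h | h
  · rw [psi_lo h]
    have := ramp_mem t
    constructor <;> linarith
  · rw [psi_hi h]
    have := ramp_mem (t - 7 / 18)
    constructor <;> linarith

theorem psi_cont : Continuous psi0 := by
  unfold psi0
  have h := ramp_cont
  fun_prop

theorem contA : Continuous fun t => √(1 - (5 / 13) ^ 2 / cos (psi0 t) ^ 2) := by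
  have h := psi_cont
  apply Continuous.sqrt
  apply continuous_const.sub
  apply continuous_const.div
  · fun_prop
  · intro t
    obtain ⟨h0, h1⟩ := psi_mem t
    have hπ := Real.pi_pos
    have : 0 < cos (psi0 t) := by
      apply Real.cos_pos_of_mem_Ioo
      constructor <;> linarith
    positivity

theorem contB : Continuous fun t => √(1 - (5 / 13) ^ 2 / sin (psi0 t) ^ 2) := by
  have h := psi_cont
  apply Continuous.sqrt
  apply continuous_const.sub
  apply continuous_const.div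
  · fun_prop
  · intro t
    obtain ⟨h0, h1⟩ := psi_mem t
    have hπ := Real.pi_pos
    have : 0 < sin (psi0 t) := Real.sin_pos_of_pos_of_lt_pi (by linarith) (by linarith)
    positivity

end J6b_

open J6b_ in
theorem j6b : T_lam0 := by
  constructor
  · have e := intervalIntegral.integral_add_adjacent_intervals
      (contA.intervalIntegrable 0 (7 / 18)) (contA.intervalIntegrable (7 / 18) (7 / 9))
      (μ := MeasureTheory.volume)
    have eA : ∫ t in (0 : ℝ)..(7 / 18), √(1 - (5 / 13) ^ 2 / cos (psi0 t) ^ 2)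
        = ∫ t in (0 : ℝ)..(7 / 18), g t := by
      apply intervalIntegral.integral_congr
      intro t ht
      rw [uIcc_of_le (by norm_num)] at ht
      simp only [g]
      rw [psi_lo ht.2]
    have eB : ∫ t in (7 / 18 : ℝ)..(7 / 9), √(1 - (5 / 13) ^ 2 / cos (psi0 t) ^ 2)
        = ∫ t in (7 / 18 : ℝ)..(7 / 9), g (23 / 36 - t) := by
      apply intervalIntegral.integral_congr
      intro t ht
      rw [uIcc_of_le (by norm_num)] at ht
      simp only [g]
      rw [psi_hi ht.1, show (23 / 36 - t : ℝ) = 1 / 4 - (t - 7 / 18) by ring, ramp_symm]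
      congr 5
      ring
    rw [← e, eA, eB, intervalIntegral.integral_comp_sub_left g (23 / 36),
      show (23 / 36 - 7 / 9 : ℝ) = -5 / 36 by norm_num,
      show (23 / 36 - 7 / 18 : ℝ) = 1 / 4 by norm_num]
    exact total_ge
  · have e := intervalIntegral.integral_add_adjacent_intervals
      (contB.intervalIntegrable 0 (7 / 18)) (contB.intervalIntegrable (7 / 18) (7 / 9))
      (μ := MeasureTheory.volume)
    have eA : ∫ t in (0 : ℝ)..(7 / 18), √(1 - (5 / 13) ^ 2 / sin (psi0 t) ^ 2)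
        = ∫ t in (0 : ℝ)..(7 / 18), g (1 / 4 - t) := by
      apply intervalIntegral.integral_congr
      intro t ht
      rw [uIcc_of_le (by norm_num)] at ht
      simp only [g]
      rw [psi_lo ht.2, ramp_symm, ← Real.cos_pi_div_two_sub]
      congr 5
      ring
    have eB : ∫ t in (7 / 18 : ℝ)..(7 / 9), √(1 - (5 / 13) ^ 2 / sin (psi0 t) ^ 2)
        = ∫ t in (7 / 18 : ℝ)..(7 / 9), g (t - 7 / 18) := by
      apply intervalIntegral.integral_congr
      intro t ht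
      rw [uIcc_of_le (by norm_num)] at ht
      simp only [g]
      rw [psi_hi ht.1, ← Real.cos_pi_div_two_sub]
      congr 5
      ring
    rw [← e, eA, eB, intervalIntegral.integral_comp_sub_left g (1 / 4),
      intervalIntegral.integral_comp_sub_right g (7 / 18),
      show (1 / 4 - 7 / 18 : ℝ) = -5 / 36 by norm_num,
      show (1 / 4 - 0 : ℝ) = 1 / 4 by norm_num,
      show (7 / 18 - 7 / 18 : ℝ) = 0 by norm_num,
      show (7 / 9 - 7 / 18 : ℝ) = 7 / 18 by norm_num,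
      add_comm (∫ t in (-5 / 36 : ℝ)..(1 / 4), g t)]
    exact total_ge

end Pool.Agent.Emb
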