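import Pool.Agent.Emb.Targets

/-!
# The profile exists: perturbation of the piecewise smooth profile
-/

namespace Pool.Agent.Emb

open scoped ContDiff Real
open Set Real

namespace J6c_

lemma ramp_of_nonpos {t : ℝ} (h : t ≤ 0) : ramp t = 0 := by
  unfold ramp
  rw [max_eq_right h, max_eq_right (by linarith), max_eq_right (by linarith),
    max_eq_right (by linarith)]
  ring

lemma ramp_of_ge {t : ℝ} (h : 1 / 4 ≤ t) : ramp t = π / 6 := by
  unfold ramp
  rw [max_eq_left (by linarith), max_eq_left (by linarith), max_eq_left (by linarith),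
    max_eq_left (by linarith)]
  ring

lemma ramp_nonneg (t : ℝ) : 0 ≤ ramp t := by
  have hπ := Real.pi_pos
  rcases le_or_gt t 0 with h0 | h0
  · rw [ramp_of_nonpos h0]
  rcases le_or_gt (1 / 4) t with h4 | h4
  · rw [ramp_of_ge h4]; positivity
  unfold ramp
  apply mul_nonneg (by positivity)
  rw [max_eq_left h0.le, max_eq_right (by linarith : t - 1 / 4 ≤ 0)]
  rcases le_or_gt t (1 / 12) with h1 | h1
  · rw [max_eq_right (by linarith), max_eq_right (by linarith)]
    nlinarith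
  · rw [max_eq_left (by linarith)]
    rcases le_or_gt t (1 / 6) with h2 | h2
    · rw [max_eq_right (by linarith)]
      nlinarith
    · rw [max_eq_left (by linarith)]
      nlinarith

lemma ramp_le (t : ℝ) : ramp t ≤ π / 6 := by
  have hπ := Real.pi_pos
  rcases le_or_gt t 0 with h0 | h0
  · rw [ramp_of_nonpos h0]; positivity
  rcases le_or_gt (1 / 4) t with h4 | h4
  · rw [ramp_of_ge h4]
  unfold ramp
  rw [max_eq_left h0.le, max_eq_right (by linarith : t - 1 / 4 ≤ 0)]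
  have key : t ^ 2 - max (t - 1 / 12) 0 ^ 2 - max (t - 1 / 6) 0 ^ 2 + (0 : ℝ) ^ 2 ≤ 1 / 36 := by
    rcases le_or_gt t (1 / 12) with h1 | h1
    · rw [max_eq_right (by linarith), max_eq_right (by linarith)]
      nlinarith
    · rw [max_eq_left (by linarith)]
      rcases le_or_gt t (1 / 6) with h2 | h2
      · rw [max_eq_right (by linarith)]
        nlinarith
      · rw [max_eq_left (by linarith)]
        nlinarith [sq_nonneg (t - 1 / 4)]
  calc 6 * π * (t ^ 2 - max (t - 1 / 12) 0 ^ 2 - max (t - 1 / 6) 0 ^ 2 + (0 : ℝ) ^ 2)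
      ≤ 6 * π * (1 / 36) := mul_le_mul_of_nonneg_left key (by positivity)
    _ = π / 6 := by ring

lemma psi0_mem (t : ℝ) : π / 6 ≤ psi0 t ∧ psi0 t ≤ π / 3 := by
  unfold psi0
  rcases le_or_gt t (7 / 18) with h | h
  · rw [ramp_of_nonpos (by linarith : t - 7 / 18 ≤ 0)]
    have h1 := ramp_nonneg t
    have h2 := ramp_le t
    constructor <;> linarith
  · rw [ramp_of_ge (by linarith : 1 / 4 ≤ t)]
    have h1 := ramp_nonneg (t - 7 / 18)
    have h2 := ramp_le (t - 7 / 18)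
    constructor <;> linarith

lemma ramp_continuous : Continuous ramp := by
  unfold ramp
  fun_prop

lemma psi0_continuous : Continuous psi0 := by
  unfold psi0
  exact (continuous_const.add ramp_continuous).sub
    (ramp_continuous.comp (continuous_id.sub continuous_const))

lemma cos_ge {t : ℝ} (h1 : π / 6 ≤ t) (h2 : t ≤ π / 3) : 1 / 2 ≤ cos t := by
  have hπ := Real.pi_pos
  rw [← Real.cos_pi_div_three]
  exact Real.cos_le_cos_of_nonneg_of_le_pi (by linarith) (by linarith) h2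

lemma sin_ge {t : ℝ} (h1 : π / 6 ≤ t) (h2 : t ≤ π / 3) : 1 / 2 ≤ sin t := by
  have hπ := Real.pi_pos
  rw [← Real.sin_pi_div_six]
  exact Real.sin_le_sin_of_le_of_le_pi_div_two (by linarith) (by linarith) h1

lemma cos_sq_sub (s t : ℝ) : |cos s ^ 2 - cos t ^ 2| ≤ |s - t| := by
  have h1 := Real.cos_sq s
  have h2 := Real.cos_sq t
  have h3 := Real.abs_cos_sub_cos_le (2 * s) (2 * t)
  have h4 : |2 * s - 2 * t| = 2 * |s - t| := by
    rw [← mul_sub, abs_mul, abs_two]
  rw [h1, h2]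
  have h5 : 1 / 2 + cos (2 * s) / 2 - (1 / 2 + cos (2 * t) / 2) =
      (cos (2 * s) - cos (2 * t)) / 2 := by ring
  rw [h5, abs_div, abs_two]
  linarith

lemma sin_sq_sub (s t : ℝ) : |sin s ^ 2 - sin t ^ 2| ≤ |s - t| := by
  have h1 := Real.sin_sq s
  have h2 := Real.sin_sq t
  have h3 := cos_sq_sub t s
  rw [h1, h2]
  have h5 : 1 - cos s ^ 2 - (1 - cos t ^ 2) = cos t ^ 2 - cos s ^ 2 := by ring
  rw [h5, abs_sub_comm s t]
  exact h3

/-- The function `x ↦ √(1 - a² / x²)` is Lipschitz in `x²`. -/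
lemma sqrt_lip {x y δ : ℝ} (hx : 1 / 2 ≤ x) (hy : 1 / 2 ≤ y) (h : |x ^ 2 - y ^ 2| ≤ δ) :
    √(1 - (5 / 13) ^ 2 / x ^ 2) - 2 * δ ≤ √(1 - (5 / 13) ^ 2 / y ^ 2) := by
  have hx0 : 0 < x := by linarith
  have hy0 : 0 < y := by linarith
  have hδ : 0 ≤ δ := (abs_nonneg _).trans h
  have hx2 : 1 / 4 ≤ x ^ 2 := by nlinarith
  have hy2 : 1 / 4 ≤ y ^ 2 := by nlinarith
  set X := 1 - (5 / 13 : ℝ) ^ 2 / x ^ 2 with hX
  set Y := 1 - (5 / 13 : ℝ) ^ 2 / y ^ 2 with hY
  have hXge : (8 / 13 : ℝ) ^ 2 ≤ X := by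
    have : (5 / 13 : ℝ) ^ 2 / x ^ 2 ≤ (5 / 13) ^ 2 / (1 / 4) := by gcongr
    rw [hX]; norm_num at this ⊢; linarith
  have hYge : (8 / 13 : ℝ) ^ 2 ≤ Y := by
    have : (5 / 13 : ℝ) ^ 2 / y ^ 2 ≤ (5 / 13) ^ 2 / (1 / 4) := by gcongr
    rw [hY]; norm_num at this ⊢; linarith
  have hX1 : 8 / 13 ≤ √X := Real.le_sqrt_of_sq_le hXge
  have hY1 : 8 / 13 ≤ √Y := Real.le_sqrt_of_sq_le hYge
  have h00 : (0 : ℝ) ≤ (8 / 13) ^ 2 := by positivity
  have hXs : √X * √X = X := Real.mul_self_sqrt (h00.trans hXge)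
  have hYs : √Y * √Y = Y := Real.mul_self_sqrt (h00.trans hYge)
  have hdiff : X - Y ≤ 400 / 169 * δ := by
    have h1 : X - Y = (5 / 13) ^ 2 * (x ^ 2 - y ^ 2) / (x ^ 2 * y ^ 2) := by
      rw [hX, hY]; field_simp; ring
    have h2 : x ^ 2 - y ^ 2 ≤ δ := (le_abs_self _).trans h
    have h3 : (1 : ℝ) / 16 ≤ x ^ 2 * y ^ 2 := by nlinarith
    rw [h1, div_le_iff₀ (by positivity)]
    have h4 : 400 / 169 * δ * (1 / 16) ≤ 400 / 169 * δ * (x ^ 2 * y ^ 2) :=
      mul_le_mul_of_nonneg_left h3 (by positivity)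
    nlinarith
  by_contra hcon
  push Not at hcon
  have h1 : 2 * δ < √X - √Y := by linarith
  have h2 : X - Y = (√X - √Y) * (√X + √Y) := by
    have : (√X - √Y) * (√X + √Y) = √X * √X - √Y * √Y := by ring
    rw [this, hXs, hYs]
  have h3 : 2 * δ * (16 / 13) ≤ (√X - √Y) * (√X + √Y) := by
    apply mul_le_mul h1.le (by linarith) (by norm_num) (by linarith)
  have h4 : 0 ≤ √X - √Y := by linarith
  have h5 : 0 < √X - √Y := by linarith
  have h6 : (√X - √Y) * (16 / 13) ≤ (√X - √Y) * (√X + √Y) :=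
    mul_le_mul_of_nonneg_left (by linarith) h4
  nlinarith

/-- Comparison of the integrals. -/
lemma int_le {f g : ℝ → ℝ} (hf : Continuous f) (hg : Continuous g) {c : ℝ}
    (h : ∀ t ∈ Icc (0 : ℝ) (7 / 9), f t - c ≤ g t) :
    (∫ t in (0 : ℝ)..(7 / 9), f t) - c * (7 / 9) ≤ ∫ t in (0 : ℝ)..(7 / 9), g t := by
  have h1 : ∫ t in (0 : ℝ)..(7 / 9), (f t - c) =
      (∫ t in (0 : ℝ)..(7 / 9), f t) - c * (7 / 9) := by
    rw [intervalIntegral.integral_sub (hf.intervalIntegrable _ _)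
      (continuous_const.intervalIntegrable _ _), intervalIntegral.integral_const, smul_eq_mul]
    ring
  rw [← h1]
  exact intervalIntegral.integral_mono_on (by norm_num)
    ((hf.sub continuous_const).intervalIntegrable _ _) (hg.intervalIntegrable _ _) h

lemma cont_sqrt {φ : ℝ → ℝ} (hφ : Continuous φ) (hpos : ∀ t, 1 / 2 ≤ φ t) :
    Continuous fun t => √(1 - (5 / 13) ^ 2 / φ t ^ 2) := by
  apply Real.continuous_sqrt.comp
  apply continuous_const.sub
  apply continuous_const.div (hφ.pow 2)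
  intro t
  have h1 : 0 < φ t := lt_of_lt_of_le (by norm_num) (hpos t)
  exact (pow_pos h1 2).ne'

end J6c_

open J6c_

/-- J6c. -/
theorem j6c (h_smooth : T_smooth) (h_vol : T_vol0) (h_lam : T_lam0) : T_profile := by
  obtain ⟨ψ, hsm, hper, hlo, hhi, hsl, hcA, hcB, ⟨t₀, ht₀⟩, happ⟩ :=
    h_smooth (1 / 200000) (by norm_num)
  have hcont : Continuous ψ := hsm.continuous
  have h0 := psi0_continuous
  refine ⟨⟨7 / 9, ψ, by norm_num, hsm, hper, hlo, hhi, hsl, hcA, hcB, t₀, ht₀, 5 / 13,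
    by norm_num, by norm_num, ?_, ?_, ?_⟩⟩
  · have h1 := int_le (f := fun t => √(1 - (5 / 13) ^ 2 / cos (psi0 t) ^ 2))
      (g := fun t => √(1 - (5 / 13) ^ 2 / cos (ψ t) ^ 2)) (c := 2 * (1 / 200000))
      (cont_sqrt (Real.continuous_cos.comp h0)
        (fun t => cos_ge (psi0_mem t).1 (psi0_mem t).2))
      (cont_sqrt (Real.continuous_cos.comp hcont) (fun t => cos_ge (hlo t) (hhi t)))
      (fun t ht => by
        apply sqrt_lip (cos_ge (psi0_mem t).1 (psi0_mem t).2) (cos_ge (hlo t) (hhi t))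
        refine (cos_sq_sub _ _).trans ?_
        rw [abs_sub_comm]
        exact happ t ht)
    have h2 := h_lam.1
    linarith
  · have h1 := int_le (f := fun t => √(1 - (5 / 13) ^ 2 / sin (psi0 t) ^ 2))
      (g := fun t => √(1 - (5 / 13) ^ 2 / sin (ψ t) ^ 2)) (c := 2 * (1 / 200000))
      (cont_sqrt (Real.continuous_sin.comp h0)
        (fun t => sin_ge (psi0_mem t).1 (psi0_mem t).2))
      (cont_sqrt (Real.continuous_sin.comp hcont) (fun t => sin_ge (hlo t) (hhi t)))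
      (fun t ht => by
        apply sqrt_lip (sin_ge (psi0_mem t).1 (psi0_mem t).2) (sin_ge (hlo t) (hhi t))
        refine (sin_sq_sub _ _).trans ?_
        rw [abs_sub_comm]
        exact happ t ht)
    have h2 := h_lam.2
    linarith
  · have h1 := int_le (f := fun t => sin (2 * ψ t)) (g := fun t => sin (2 * psi0 t))
      (c := 2 * (1 / 200000))
      (Real.continuous_sin.comp (continuous_const.mul hcont))
      (Real.continuous_sin.comp (continuous_const.mul h0))
      (fun t ht => by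
        have h3 := Real.abs_sin_sub_sin_le (2 * ψ t) (2 * psi0 t)
        have h4 : |2 * ψ t - 2 * psi0 t| = 2 * |ψ t - psi0 t| := by
          rw [← mul_sub, abs_mul, abs_two]
        have h5 := happ t ht
        have h6 := le_abs_self (sin (2 * ψ t) - sin (2 * psi0 t))
        linarith)
    have h2 : ∫ t in (0 : ℝ)..(7 / 9), sin (2 * psi0 t) ≤ 1 / √2 - 1 / 1950 := h_vol
    show ∫ t in (0 : ℝ)..(7 / 9), sin (2 * ψ t) ≤ 1 / √2 - 1 / 2000
    linarith

end Pool.Agent.Emb
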