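import Pool.Agent.Emb.Targets

/-!
# J7: Gauss' inequality for positive definite ternary forms
-/

namespace Pool.Agent.Emb

namespace J7_

open Matrix

/-- The form of the matrix. -/
noncomputable def Q (G : Matrix (Fin 3) (Fin 3) ℝ) (x : Fin 3 → ℝ) : ℝ :=
  ∑ i, ∑ j, G i j * x i * x j

lemma Q_eq (G : Matrix (Fin 3) (Fin 3) ℝ) (x : Fin 3 → ℝ) :
    Q G x = star x ⬝ᵥ (G *ᵥ x) := by
  simp only [Q, dotProduct, mulVec, Fin.sum_univ_three, Pi.star_apply, star_trivial]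
  ring

lemma Q_pos {G : Matrix (Fin 3) (Fin 3) ℝ} (hG : G.PosDef) {x : Fin 3 → ℝ} (hx : x ≠ 0) :
    0 < Q G x := by
  rw [Q_eq]
  exact hG.dotProduct_mulVec_pos hx

lemma Q_smul (G : Matrix (Fin 3) (Fin 3) ℝ) (c : ℝ) (x : Fin 3 → ℝ) :
    Q G (c • x) = c ^ 2 * Q G x := by
  simp only [Q, Fin.sum_univ_three, Pi.smul_apply, smul_eq_mul]
  ring

lemma Q_lower {G : Matrix (Fin 3) (Fin 3) ℝ} (hG : G.PosDef) :
    ∃ c > 0, ∀ x, c * ‖x‖ ^ 2 ≤ Q G x := by
  have hcont : Continuous (Q G) := by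
    unfold Q
    fun_prop
  have hne : (Metric.sphere (0 : Fin 3 → ℝ) 1).Nonempty := by
    refine ⟨fun _ => 1, ?_⟩
    simp
  obtain ⟨y, hy, hmin⟩ :=
    (isCompact_sphere (0 : Fin 3 → ℝ) 1).exists_isMinOn hne hcont.continuousOn
  have hy0 : y ≠ 0 := by
    rintro rfl
    simp at hy
  refine ⟨Q G y, Q_pos hG hy0, fun x => ?_⟩
  by_cases hx : x = 0
  · subst hx
    simp [Q]
  · have hn : 0 < ‖x‖ := norm_pos_iff.mpr hx
    have h1 : ‖x‖⁻¹ • x ∈ Metric.sphere (0 : Fin 3 → ℝ) 1 := by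
      simp [norm_smul, hn.ne']
    have h2 : Q G y ≤ Q G (‖x‖⁻¹ • x) := hmin h1
    rw [Q_smul] at h2
    calc Q G y * ‖x‖ ^ 2 ≤ (‖x‖⁻¹ ^ 2 * Q G x) * ‖x‖ ^ 2 := by gcongr
      _ = Q G x := by
        field_simp

/-- The real vector of an integer vector. -/
def cv (n : Fin 3 → ℤ) : Fin 3 → ℝ := fun i => (n i : ℝ)

lemma finite_le {G : Matrix (Fin 3) (Fin 3) ℝ} (hG : G.PosDef) (C : ℝ) :
    {n : Fin 3 → ℤ | Q G (cv n) ≤ C}.Finite := by
  obtain ⟨c, hc, hle⟩ := Q_lower hG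
  obtain ⟨M, hM⟩ := exists_nat_ge (1 + C / c)
  refine (Set.finite_Icc (fun _ : Fin 3 => -(M : ℤ)) (fun _ => (M : ℤ))).subset ?_
  intro n hn
  have h1 : c * ‖cv n‖ ^ 2 ≤ C := (hle _).trans hn
  have h2 : ‖cv n‖ ^ 2 ≤ C / c := by
    rw [le_div_iff₀ hc]
    linarith
  have h3 : ‖cv n‖ ≤ M := by
    have h4 : 0 ≤ C / c := (sq_nonneg _).trans h2
    nlinarith [norm_nonneg (cv n)]
  have h5 : ∀ i, |(n i : ℝ)| ≤ M := fun i => by
    have := (norm_le_pi_norm (cv n) i).trans h3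
    simpa [cv] using this
  constructor
  · intro i
    have := (abs_le.mp (h5 i)).1
    exact_mod_cast this
  · intro i
    have := (abs_le.mp (h5 i)).2
    exact_mod_cast this

/-- Sum of the diagonal values. -/
noncomputable def tot (G : Matrix (Fin 3) (Fin 3) ℝ) (U : Matrix (Fin 3) (Fin 3) ℤ) : ℝ :=
  ∑ i, Q G (cv (U i))

lemma exists_min {G : Matrix (Fin 3) (Fin 3) ℝ} (hG : G.PosDef) :
    ∃ U : Matrix (Fin 3) (Fin 3) ℤ, (U.det = 1 ∨ U.det = -1) ∧
      ∀ V : Matrix (Fin 3) (Fin 3) ℤ, (V.det = 1 ∨ V.det = -1) → tot G U ≤ tot G V := by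
  set s : Set (Matrix (Fin 3) (Fin 3) ℤ) :=
    {U | (U.det = 1 ∨ U.det = -1) ∧ tot G U ≤ tot G 1} with hs
  have hnn : ∀ x, 0 ≤ Q G x := fun x => by
    by_cases hx : x = 0
    · subst hx
      simp [Q]
    · exact (Q_pos hG hx).le
  have hfin : s.Finite := by
    have h1 : (Set.pi Set.univ (fun _ : Fin 3 => {n : Fin 3 → ℤ | Q G (cv n) ≤ tot G 1})).Finite :=
      Set.Finite.pi' (fun _ => finite_le hG _) |>.subset (by intro x hx i; exact hx i trivial)
    refine h1.subset ?_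
    intro U hU i _
    have h2 : Q G (cv (U i)) ≤ tot G U :=
      Finset.single_le_sum (f := fun i => Q G (cv (U i))) (fun j _ => hnn _) (Finset.mem_univ i)
    exact h2.trans hU.2
  obtain ⟨U, hU, hmin⟩ := Set.exists_min_image s (tot G) hfin ⟨1, by simp [hs]⟩
  refine ⟨U, hU.1, fun V hV => ?_⟩
  by_cases h : tot G V ≤ tot G 1
  · exact hmin V ⟨hV, h⟩
  · exact hU.2.trans (not_le.mp h).le

/-- The reduced matrix. -/
noncomputable def red (G : Matrix (Fin 3) (Fin 3) ℝ) (U : Matrix (Fin 3) (Fin 3) ℤ) :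
    Matrix (Fin 3) (Fin 3) ℝ := fun i j => ∑ k, ∑ l, G k l * cv (U i) k * cv (U j) l

lemma key {G : Matrix (Fin 3) (Fin 3) ℝ} (U : Matrix (Fin 3) (Fin 3) ℤ)
    (hdet : U.det = 1 ∨ U.det = -1)
    (hmin : ∀ V : Matrix (Fin 3) (Fin 3) ℤ, (V.det = 1 ∨ V.det = -1) → tot G U ≤ tot G V)
    (k : Fin 3) (c : Fin 3 → ℤ) (hc : c k = 1 ∨ c k = -1) :
    red G U k k ≤ ∑ i, ∑ j, red G U i j * c i * c j := by
  set V := U.updateRow k (∑ i, c i • U i) with hV
  have h1 : V.det = c k • U.det := det_updateRow_sum U k c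
  have h2 : V.det = 1 ∨ V.det = -1 := by
    rw [h1]
    rcases hc with h | h <;> rcases hdet with h' | h' <;> simp [h, h']
  have h3 := hmin V h2
  have h4 : Q G (cv (∑ i, c i • U i)) = ∑ i, ∑ j, red G U i j * c i * c j := by
    simp only [Q, red, cv, Fin.sum_univ_three, Pi.add_apply, Pi.smul_apply, smul_eq_mul]
    push_cast
    ring
  have h5 : red G U k k = Q G (cv (U k)) := rfl
  rw [← h4, h5]
  have hk : V k = ∑ i, c i • U i := by
    rw [hV]
    exact updateRow_self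
  have hne : ∀ j, j ≠ k → V j = U j := fun j hj => by
    rw [hV]
    exact updateRow_ne hj
  unfold tot at h3
  rw [← hk]
  fin_cases k
  · have e1 := hne 1 (by decide)
    have e2 := hne 2 (by decide)
    simp only [Fin.sum_univ_three, e1, e2] at h3
    change Q G (cv (U 0)) ≤ Q G (cv (V 0))
    linarith
  · have e1 := hne 0 (by decide)
    have e2 := hne 2 (by decide)
    simp only [Fin.sum_univ_three, e1, e2] at h3
    change Q G (cv (U 1)) ≤ Q G (cv (V 1))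
    linarith
  · have e1 := hne 0 (by decide)
    have e2 := hne 1 (by decide)
    simp only [Fin.sum_univ_three, e1, e2] at h3
    change Q G (cv (U 2)) ≤ Q G (cv (V 2))
    linarith

lemma det_red (G : Matrix (Fin 3) (Fin 3) ℝ) (U : Matrix (Fin 3) (Fin 3) ℤ)
    (hdet : U.det = 1 ∨ U.det = -1) : (red G U).det = G.det := by
  have h1 : red G U = (U.map (Int.cast : ℤ → ℝ)) * G * (U.map (Int.cast : ℤ → ℝ))ᵀ := by
    ext i j
    simp only [red, cv, mul_apply, transpose_apply, map_apply, Fin.sum_univ_three]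
    ring
  have h2 : (U.map (Int.cast : ℤ → ℝ)).det = (U.det : ℝ) := (Int.cast_det U).symm
  rw [h1, det_mul, det_mul, det_transpose, h2]
  rcases hdet with h | h <;> simp [h]

/-- A concave quadratic that is nonnegative at the ends of `[l, m]`. -/
lemma conc {p q r l m x : ℝ} (hr : 0 ≤ r) (hl : l ≤ x) (hm : x ≤ m)
    (hp : 0 ≤ p + q * l - r * l ^ 2) (hq : 0 ≤ p + q * m - r * m ^ 2) :
    0 ≤ p + q * x - r * x ^ 2 := by
  rcases (hl.trans hm).eq_or_lt with h | h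
  · have : x = l := by linarith
    subst this
    exact hp
  · have h1 : (m - l) * (p + q * x - r * x ^ 2) =
        (m - x) * (p + q * l - r * l ^ 2) + (x - l) * (p + q * m - r * m ^ 2)
          + r * (m - l) * (x - l) * (m - x) := by ring
    have h2 : 0 ≤ (m - l) * (p + q * x - r * x ^ 2) := by
      rw [h1]
      have := mul_nonneg (sub_nonneg.mpr hm) hp
      have := mul_nonneg (sub_nonneg.mpr hl) hq
      have := mul_nonneg (mul_nonneg (mul_nonneg hr (sub_nonneg.mpr h.le))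
        (sub_nonneg.mpr hl)) (sub_nonneg.mpr hm)
      linarith
    exact nonneg_of_mul_nonneg_right h2 (sub_pos.mpr h)

lemma pos_case {a b c x y z : ℝ} (ha : 0 ≤ a) (hab : a ≤ b) (hbc : b ≤ c)
    (hx : 0 ≤ x) (hy : 0 ≤ y) (hz : 0 ≤ z) (hxb : x ≤ b) (hya : y ≤ a) (hza : z ≤ a) :
    0 ≤ a * b * c + x * y * z / 2 - (a * x ^ 2 + b * y ^ 2 + c * z ^ 2) / 2 := by
  have hb : 0 ≤ b := ha.trans hab
  have hc : 0 ≤ c := hb.trans hbc
  have hy2 : y ^ 2 ≤ a ^ 2 := by gcongr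
  have hz2 : z ^ 2 ≤ a ^ 2 := by gcongr
  have m1 : b * y ^ 2 ≤ b * a ^ 2 := by gcongr
  have m2 : c * z ^ 2 ≤ c * a ^ 2 := by gcongr
  have t1 : 0 ≤ a * (b * (c - a)) := mul_nonneg ha (mul_nonneg hb (by linarith))
  have t2 : 0 ≤ a * (c * (b - a)) := mul_nonneg ha (mul_nonneg hc (by linarith))
  have t3 : 0 ≤ a * (b * (c - b)) := mul_nonneg ha (mul_nonneg hb (by linarith))
  have key := conc (p := a * b * c - (b * y ^ 2 + c * z ^ 2) / 2) (q := y * z / 2) (r := a / 2)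
    (l := 0) (m := b) (x := x) (by linarith) hx hxb (by nlinarith) ?_
  · linarith
  have k2 := conc (p := a * b * c - a * b ^ 2 / 2 - c * z ^ 2 / 2) (q := b * z / 2) (r := b / 2)
    (l := 0) (m := a) (x := y) (by linarith) hy hya (by nlinarith) ?_
  · linarith
  have k3 := conc (p := a * b * c - a * b ^ 2 / 2 - b * a ^ 2 / 2) (q := a * b / 2) (r := c / 2)
    (l := 0) (m := a) (x := z) (by linarith) hz hza (by nlinarith) (by nlinarith)
  linarith

lemma neg_case {a b c x y z : ℝ} (ha : 0 ≤ a) (hab : a ≤ b) (hbc : b ≤ c)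
    (hx : 0 ≤ x) (hy : 0 ≤ y) (hz : 0 ≤ z) (hxb : x ≤ b) (hya : y ≤ a) (hza : z ≤ a)
    (hs : x + y + z ≤ a + b) :
    0 ≤ a * b * c - x * y * z / 2 - (a * x ^ 2 + b * y ^ 2 + c * z ^ 2) / 2 := by
  have hb : 0 ≤ b := ha.trans hab
  have hc : 0 ≤ c := hb.trans hbc
  have t1 : 0 ≤ a * (b * (c - a)) := mul_nonneg ha (mul_nonneg hb (by linarith))
  have t2 : 0 ≤ a * (c * (b - a)) := mul_nonneg ha (mul_nonneg hc (by linarith))
  have t3 : 0 ≤ a * (b * (c - b)) := mul_nonneg ha (mul_nonneg hb (by linarith))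
  have mono : ∀ X, x ≤ X →
      0 ≤ a * b * c - X * y * z / 2 - (a * X ^ 2 + b * y ^ 2 + c * z ^ 2) / 2 →
      0 ≤ a * b * c - x * y * z / 2 - (a * x ^ 2 + b * y ^ 2 + c * z ^ 2) / 2 := by
    intro X hX h
    have e1 : x * y * z ≤ X * y * z := by gcongr
    have e2 : a * x ^ 2 ≤ a * X ^ 2 := by gcongr
    linarith
  -- the value at `(b, a - z, z)`
  have v1 := conc (p := a * b * c - a * b ^ 2 / 2 - b * a ^ 2 / 2) (q := a * b / 2) (r := c / 2)
    (l := 0) (m := a) (x := z) (by linarith) hz hza (by nlinarith) (by nlinarith)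
  by_cases hyz : y + z ≤ a
  · refine mono b hxb ?_
    have e1 : b * (y * z) ≤ b * ((a - z) * z) := by
      gcongr
      linarith
    have e2 : b * y ^ 2 ≤ b * (a - z) ^ 2 := by
      gcongr
      linarith
    nlinarith
  · push Not at hyz
    refine mono (a + b - y - z) (by linarith) ?_
    -- the value at `(b - z, a, z)`
    have v2 := conc (p := a * b * c - a * b ^ 2 / 2 - b * a ^ 2 / 2) (q := a * b / 2)
      (r := c / 2) (l := 0) (m := a) (x := z) (by linarith) hz hza (by nlinarith) (by nlinarith)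
    have k := conc (p := a * b * c - a * (a + b - z) ^ 2 / 2 - c * z ^ 2 / 2)
      (q := - (a + b - z) * z / 2 + a * (a + b - z)) (r := (a + b - z) / 2)
      (l := a - z) (m := a) (x := y) (by linarith) (by linarith) hya ?_ ?_
    · linarith
    · nlinarith
    · nlinarith

lemma sorted {a b c x y z s : ℝ} (ha : 0 ≤ a) (hab : a ≤ b) (hbc : b ≤ c)
    (hx : 0 ≤ x) (hy : 0 ≤ y) (hz : 0 ≤ z) (hxb : x ≤ b) (hya : y ≤ a) (hza : z ≤ a)
    (hs : s = x * y * z ∨ (s = -(x * y * z) ∧ x + y + z ≤ a + b)) :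
    0 ≤ a * b * c + s / 2 - (a * x ^ 2 + b * y ^ 2 + c * z ^ 2) / 2 := by
  rcases hs with rfl | ⟨rfl, hs⟩
  · exact pos_case ha hab hbc hx hy hz hxb hya hza
  · have := neg_case ha hab hbc hx hy hz hxb hya hza hs
    linarith

lemma unsorted {a b c x y z s : ℝ} (ha : 0 ≤ a) (hb : 0 ≤ b) (hc : 0 ≤ c)
    (hx : 0 ≤ x) (hy : 0 ≤ y) (hz : 0 ≤ z) (hxb : x ≤ b) (hxc : x ≤ c) (hya : y ≤ a)
    (hyc : y ≤ c) (hza : z ≤ a) (hzb : z ≤ b)
    (hs : s = x * y * z ∨ (s = -(x * y * z) ∧ x + y + z ≤ a + b ∧ x + y + z ≤ a + c ∧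
      x + y + z ≤ b + c)) :
    0 ≤ a * b * c + s / 2 - (a * x ^ 2 + b * y ^ 2 + c * z ^ 2) / 2 := by
  rcases le_total a b with h1 | h1 <;> rcases le_total b c with h2 | h2 <;>
    rcases le_total a c with h3 | h3
  · -- a ≤ b ≤ c
    exact sorted ha h1 h2 hx hy hz hxb hya hza (hs.imp id fun h => ⟨h.1, h.2.1⟩)
  · -- a ≤ b ≤ c ≤ a
    exact sorted ha h1 h2 hx hy hz hxb hya hza (hs.imp id fun h => ⟨h.1, h.2.1⟩)
  · -- a ≤ c ≤ b
    have := sorted (a := a) (b := c) (c := b) (x := x) (y := z) (z := y) (s := s) ha h3 h2 hx hz hy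
      hxc hza hya (hs.imp (fun h => by rw [h]; ring) fun h => ⟨by rw [h.1]; ring, by linarith⟩)
    linarith
  · -- c ≤ a ≤ b
    have := sorted (a := c) (b := a) (c := b) (x := z) (y := x) (z := y) (s := s) hc h3 h1 hz hx hy
      hza hxc hyc (hs.imp (fun h => by rw [h]; ring) fun h => ⟨by rw [h.1]; ring, by linarith⟩)
    linarith
  · -- b ≤ a ≤ c
    have := sorted (a := b) (b := a) (c := c) (x := y) (y := x) (z := z) (s := s) hb h1 h3 hy hx hz
      hya hxb hzb (hs.imp (fun h => by rw [h]; ring) fun h => ⟨by rw [h.1]; ring, by linarith⟩)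
    linarith
  · -- b ≤ c ≤ a
    have := sorted (a := b) (b := c) (c := a) (x := y) (y := z) (z := x) (s := s) hb h2 h3 hy hz hx
      hyc hzb hxb (hs.imp (fun h => by rw [h]; ring) fun h => ⟨by rw [h.1]; ring, by linarith⟩)
    linarith
  · -- c ≤ b ≤ a ≤ c
    have := sorted (a := c) (b := b) (c := a) (x := z) (y := y) (z := x) (s := s) hc h2 h1 hz hy hx
      hzb hyc hxc (hs.imp (fun h => by rw [h]; ring) fun h => ⟨by rw [h.1]; ring, by linarith⟩)
    linarith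
  · -- c ≤ b ≤ a
    have := sorted (a := c) (b := b) (c := a) (x := z) (y := y) (z := x) (s := s) hc h2 h1 hz hy hx
      hzb hyc hxc (hs.imp (fun h => by rw [h]; ring) fun h => ⟨by rw [h.1]; ring, by linarith⟩)
    linarith

/-- The inequality for a reduced symmetric matrix. -/
lemma reduced {H : Matrix (Fin 3) (Fin 3) ℝ} (hsym : ∀ i j, H i j = H j i)
    (hH : ∀ i, 0 ≤ H i i)
    (hkey : ∀ (k : Fin 3) (c : Fin 3 → ℤ), (c k = 1 ∨ c k = -1) →
      H k k ≤ ∑ i, ∑ j, H i j * c i * c j) :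
    H 0 0 * H 1 1 * H 2 2 ≤ 2 * H.det := by
  have s10 := hsym 1 0
  have s20 := hsym 2 0
  have s21 := hsym 2 1
  have p01 := hkey 0 ![1, 1, 0] (by simp)
  have q01 := hkey 0 ![1, -1, 0] (by simp)
  have p10 := hkey 1 ![1, 1, 0] (by simp)
  have q10 := hkey 1 ![1, -1, 0] (by simp)
  have p02 := hkey 0 ![1, 0, 1] (by simp)
  have q02 := hkey 0 ![1, 0, -1] (by simp)
  have p20 := hkey 2 ![1, 0, 1] (by simp)
  have q20 := hkey 2 ![1, 0, -1] (by simp)
  have p12 := hkey 1 ![0, 1, 1] (by simp)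
  have q12 := hkey 1 ![0, 1, -1] (by simp)
  have p21 := hkey 2 ![0, 1, 1] (by simp)
  have q21 := hkey 2 ![0, 1, -1] (by simp)
  have u0 := fun k => hkey k ![1, 1, 1] (by fin_cases k <;> simp)
  have u1 := fun k => hkey k ![-1, 1, 1] (by fin_cases k <;> simp)
  have u2 := fun k => hkey k ![1, -1, 1] (by fin_cases k <;> simp)
  have u3 := fun k => hkey k ![1, 1, -1] (by fin_cases k <;> simp)
  have u00 := u0 0
  have u01 := u0 1
  have u02 := u0 2
  have u10 := u1 0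
  have u11 := u1 1
  have u12 := u1 2
  have u20 := u2 0
  have u21 := u2 1
  have u22 := u2 2
  have u30 := u3 0
  have u31 := u3 1
  have u32 := u3 2
  clear u0 u1 u2 u3
  have h0 := hH 0
  have h1 := hH 1
  have h2 := hH 2
  simp only [Fin.sum_univ_three, Matrix.cons_val_zero, Matrix.cons_val_one, Matrix.cons_val,
    Int.cast_one, Int.cast_zero, Int.cast_neg, mul_one, mul_zero, mul_neg, neg_neg, neg_zero,
    add_zero, zero_add] at p01 q01 p10 q10 p02 q02 p20 q20 p12 q12 p21 q21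
  simp only [Fin.sum_univ_three, Matrix.cons_val_zero, Matrix.cons_val_one, Matrix.cons_val,
    Int.cast_one, Int.cast_neg, mul_one, mul_neg,
    neg_neg] at u00 u01 u02 u10 u11 u12 u20 u21 u22 u30 u31 u32
  have hdet : H.det = H 0 0 * H 1 1 * H 2 2 + 2 * (H 1 2 * H 0 2 * H 0 1) - H 0 0 * H 1 2 ^ 2
      - H 1 1 * H 0 2 ^ 2 - H 2 2 * H 0 1 ^ 2 := by
    rw [det_fin_three, s10, s20, s21]
    ring
  have main := unsorted (a := H 0 0) (b := H 1 1) (c := H 2 2) (x := |2 * H 1 2|)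
    (y := |2 * H 0 2|) (z := |2 * H 0 1|) (s := 8 * (H 1 2 * H 0 2 * H 0 1)) h0 h1 h2
    (abs_nonneg _) (abs_nonneg _) (abs_nonneg _)
    (abs_le.mpr ⟨by linarith, by linarith⟩) (abs_le.mpr ⟨by linarith, by linarith⟩)
    (abs_le.mpr ⟨by linarith, by linarith⟩) (abs_le.mpr ⟨by linarith, by linarith⟩)
    (abs_le.mpr ⟨by linarith, by linarith⟩) (abs_le.mpr ⟨by linarith, by linarith⟩) ?_
  · rw [hdet]
    rw [sq_abs, sq_abs, sq_abs] at main
    nlinarith
  · rcases abs_cases (2 * H 1 2) with ⟨e1, _⟩ | ⟨e1, _⟩ <;>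
      rcases abs_cases (2 * H 0 2) with ⟨e2, _⟩ | ⟨e2, _⟩ <;>
      rcases abs_cases (2 * H 0 1) with ⟨e3, _⟩ | ⟨e3, _⟩ <;>
      rw [e1, e2, e3] <;>
      first
      | (left; ring; done)
      | (right
         refine ⟨by ring, by linarith, by linarith, by linarith⟩)

end J7_

open J7_ in
/-- J7. Gauss' inequality for ternary forms. -/
theorem j7 : T_gauss := by
  intro G hG μ hμ hmin
  obtain ⟨U, hdet, hU⟩ := exists_min hG
  have hGs : ∀ i j, G i j = G j i := fun i j => by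
    have := hG.isHermitian.apply j i
    simpa using this
  have hsym : ∀ i j, red G U i j = red G U j i := fun i j => by
    simp only [red, Fin.sum_univ_three]
    rw [hGs 1 0, hGs 2 0, hGs 2 1]
    ring
  have hrow : ∀ i, U i ≠ 0 := fun i h => by
    have : U.det = 0 := Matrix.det_eq_zero_of_row_eq_zero i (fun j => by rw [h]; rfl)
    rcases hdet with h' | h' <;> omega
  have hμi : ∀ i, μ ≤ red G U i i := fun i => hmin (U i) (hrow i)
  have h1 := reduced hsym (fun i => hμ.trans (hμi i)) (fun k c hc => key U hdet hU k c hc)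
  rw [det_red G U hdet] at h1
  refine le_trans ?_ h1
  have h2 : μ * μ ≤ red G U 0 0 * red G U 1 1 :=
    mul_le_mul (hμi 0) (hμi 1) hμ (hμ.trans (hμi 0))
  have h3 : μ * μ * μ ≤ red G U 0 0 * red G U 1 1 * red G U 2 2 :=
    mul_le_mul h2 (hμi 2) hμ (mul_nonneg (hμ.trans (hμi 0)) (hμ.trans (hμi 1)))
  calc μ ^ 3 = μ * μ * μ := by ring
    _ ≤ _ := h3

end Pool.Agent.Emb
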