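import Pool.Agent.Emb.Targets

/-!
# J8a: the metric of the torus defined by a profile
-/

namespace Pool.Agent.Emb

open scoped ContDiff Real Topology
open Set Real

namespace J8a_

theorem cos_pos' (F : Profile) (t : ℝ) : 0 < cos (F.psi t) :=
  cos_pos_of_mem_Ioo ⟨by linarith [F.lo t, pi_pos], by linarith [F.hi t, pi_pos]⟩

theorem sin_pos' (F : Profile) (t : ℝ) : 0 < sin (F.psi t) :=
  sin_pos_of_pos_of_lt_pi (by linarith [F.lo t, pi_pos]) (by linarith [F.hi t, pi_pos])

theorem hd (F : Profile) (t : ℝ) : HasDerivAt F.psi (deriv F.psi t) t :=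
  ((F.smooth.differentiable (by simp)) t).hasDerivAt

theorem hdd (F : Profile) (t : ℝ) : HasDerivAt (deriv F.psi) (deriv (deriv F.psi) t) t := by
  have h : ContDiff ℝ ∞ (deriv F.psi) := ((contDiff_infty_iff_deriv).1 F.smooth).2
  exact ((h.differentiable (by simp)) t).hasDerivAt

theorem deriv_cos_psi (F : Profile) :
    deriv (fun t => cos (F.psi t)) = fun t => -sin (F.psi t) * deriv F.psi t := by
  funext t
  exact ((hd F t).cos).deriv

theorem deriv_sin_psi (F : Profile) :
    deriv (fun t => sin (F.psi t)) = fun t => cos (F.psi t) * deriv F.psi t := by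
  funext t
  exact ((hd F t).sin).deriv

/-- The warped metric of a profile. -/
noncomputable def warp (F : Profile) : Warp where
  ell := F.ell
  A := fun t => cos (F.psi t)
  B := fun t => sin (F.psi t)
  ell_pos := by linarith [F.ell_gt]
  A_smooth := Real.contDiff_cos.comp F.smooth
  B_smooth := Real.contDiff_sin.comp F.smooth
  A_per := fun t => by simp only [F.per]
  B_per := fun t => by simp only [F.per]
  A_pos := cos_pos' F
  B_pos := sin_pos' F
  curvA := fun t => by
    rw [deriv_cos_psi]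
    have h : HasDerivAt (fun t => -sin (F.psi t) * deriv F.psi t)
        (-(cos (F.psi t) * deriv F.psi t) * deriv F.psi t
          + -sin (F.psi t) * deriv (deriv F.psi) t) t :=
      ((hd F t).sin.neg).mul (hdd F t)
    rw [h.deriv]
    have := F.curvA t
    nlinarith
  curvB := fun t => by
    rw [deriv_sin_psi]
    have h : HasDerivAt (fun t => cos (F.psi t) * deriv F.psi t)
        ((-sin (F.psi t) * deriv F.psi t) * deriv F.psi t
          + cos (F.psi t) * deriv (deriv F.psi) t) t :=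
      ((hd F t).cos).mul (hdd F t)
    rw [h.deriv]
    have := F.curvB t
    nlinarith
  curvAB := fun t => by
    rw [deriv_cos_psi, deriv_sin_psi]
    have h1 := cos_pos' F t
    have h2 := sin_pos' F t
    have h3 : deriv F.psi t ^ 2 ≤ π ^ 2 := by
      rw [← sq_abs]
      exact pow_le_pow_left₀ (abs_nonneg _) (F.slope t) 2
    have h4 : 0 < cos (F.psi t) * sin (F.psi t) := mul_pos h1 h2
    have h5 : deriv F.psi t ^ 2 * (cos (F.psi t) * sin (F.psi t))
        ≤ π ^ 2 * (cos (F.psi t) * sin (F.psi t)) := by gcongr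
    have h6 : 0 ≤ π ^ 2 * (cos (F.psi t) * sin (F.psi t)) := by positivity
    simp only
    nlinarith

theorem per_int (F : Profile) (t : ℝ) (n : ℤ) : F.psi (t + n * F.ell) = F.psi t := by
  have h : Function.Periodic F.psi F.ell := F.per
  simpa using h.int_mul n t

/-- The matrix of the metric in the lattice coordinates. -/
noncomputable def gm (F : Profile) (x : V) : Matrix (Fin 3) (Fin 3) ℝ :=
  !![F.ell ^ 2 + cos (F.psi (F.ell * x 0)) ^ 2, cos (F.psi (F.ell * x 0)) ^ 2,
      cos (F.psi (F.ell * x 0)) ^ 2;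
    cos (F.psi (F.ell * x 0)) ^ 2, 1,
      cos (F.psi (F.ell * x 0)) ^ 2 - sin (F.psi (F.ell * x 0)) ^ 2;
    cos (F.psi (F.ell * x 0)) ^ 2, cos (F.psi (F.ell * x 0)) ^ 2 - sin (F.psi (F.ell * x 0)) ^ 2,
      1]

theorem quad (F : Profile) (x v : V) : ∑ j, ∑ k, gm F x j k * v j * v k =
    F.ell ^ 2 * v 0 ^ 2 + cos (F.psi (F.ell * x 0)) ^ 2 * (v 0 + v 1 + v 2) ^ 2
      + sin (F.psi (F.ell * x 0)) ^ 2 * (v 1 - v 2) ^ 2 := by
  have h := sin_sq_add_cos_sq (F.psi (F.ell * x 0))
  simp only [gm, Fin.sum_univ_three, Matrix.of_apply, Matrix.cons_val', Matrix.cons_val_zero,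
    Matrix.cons_val_one, Matrix.cons_val]
  linear_combination (-(v 1 ^ 2 + v 2 ^ 2)) * h

theorem quad_pos (F : Profile) (x v : V) (hv : v ≠ 0) :
    0 < ∑ j, ∑ k, gm F x j k * v j * v k := by
  rw [quad]
  have hl : 0 < F.ell := by linarith [F.ell_gt]
  have ha : 0 < cos (F.psi (F.ell * x 0)) ^ 2 := pow_pos (cos_pos' F _) 2
  have hb : 0 < sin (F.psi (F.ell * x 0)) ^ 2 := pow_pos (sin_pos' F _) 2
  by_contra hn
  push Not at hn
  have h1 : 0 ≤ F.ell ^ 2 * v 0 ^ 2 := by positivity
  have h2 : 0 ≤ cos (F.psi (F.ell * x 0)) ^ 2 * (v 0 + v 1 + v 2) ^ 2 := by positivity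
  have h3 : 0 ≤ sin (F.psi (F.ell * x 0)) ^ 2 * (v 1 - v 2) ^ 2 := by positivity
  have e1 : F.ell ^ 2 * v 0 ^ 2 = 0 := by linarith
  have e2 : cos (F.psi (F.ell * x 0)) ^ 2 * (v 0 + v 1 + v 2) ^ 2 = 0 := by linarith
  have e3 : sin (F.psi (F.ell * x 0)) ^ 2 * (v 1 - v 2) ^ 2 = 0 := by linarith
  have f1 : v 0 = 0 := by
    rcases mul_eq_zero.1 e1 with h | h
    · exact absurd h (by positivity)
    · exact pow_eq_zero_iff (two_ne_zero) |>.1 h
  have f2 : v 0 + v 1 + v 2 = 0 := by
    rcases mul_eq_zero.1 e2 with h | h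
    · exact absurd h ha.ne'
    · exact pow_eq_zero_iff (two_ne_zero) |>.1 h
  have f3 : v 1 - v 2 = 0 := by
    rcases mul_eq_zero.1 e3 with h | h
    · exact absurd h hb.ne'
    · exact pow_eq_zero_iff (two_ne_zero) |>.1 h
  apply hv
  funext i
  fin_cases i <;> simp <;> linarith

theorem gm_posDef (F : Profile) (x : V) : (gm F x).PosDef := by
  refine Matrix.PosDef.of_dotProduct_mulVec_pos ?_ fun v hv => ?_
  · ext i j
    fin_cases i <;> fin_cases j <;> simp [gm]
  · have h := quad_pos F x v hv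
    refine h.trans_eq ?_
    simp only [dotProduct, Matrix.mulVec, Pi.star_apply, star_trivial, Finset.mul_sum]
    refine Finset.sum_congr rfl fun j _ => Finset.sum_congr rfl fun k _ => ?_
    ring

theorem gm_smooth (F : Profile) (i j : Fin 3) : ContDiff ℝ ∞ fun x => gm F x i j := by
  have h0 : ContDiff ℝ ∞ fun x : V => F.psi (F.ell * x 0) :=
    F.smooth.comp (contDiff_const.mul (contDiff_apply ℝ ℝ 0))
  have h1 : ContDiff ℝ ∞ fun x : V => cos (F.psi (F.ell * x 0)) ^ 2 :=
    (Real.contDiff_cos.comp h0).pow 2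
  have h2 : ContDiff ℝ ∞ fun x : V => sin (F.psi (F.ell * x 0)) ^ 2 :=
    (Real.contDiff_sin.comp h0).pow 2
  fin_cases i <;> fin_cases j <;> simp [gm]
  all_goals first | exact contDiff_const | exact h1 | exact h1.sub h2 | exact contDiff_const.add h1

theorem gm_per (F : Profile) (x : V) (n : Fin 3 → ℤ) :
    gm F (fun i => x i + n i) = gm F x := by
  have h : F.psi (F.ell * (x 0 + n 0)) = F.psi (F.ell * x 0) := by
    rw [mul_add, mul_comm F.ell (n 0 : ℝ)]
    exact per_int F _ _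
  simp only [gm, h]

/-- The metric of the torus. -/
noncomputable def met (F : Profile) : Metric where
  g := gm F
  smooth := gm_smooth F
  posDef := gm_posDef F
  periodic := gm_per F

theorem det_gm (F : Profile) (x : V) : (gm F x).det = (F.ell * sin (2 * F.psi (F.ell * x 0))) ^ 2 := by
  have h := sin_sq_add_cos_sq (F.psi (F.ell * x 0))
  rw [sin_two_mul]
  simp only [gm, Matrix.det_fin_three, Matrix.of_apply, Matrix.cons_val', Matrix.cons_val_zero,
    Matrix.cons_val_one, Matrix.cons_val]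
  generalize sin (F.psi (F.ell * x 0)) = b at *
  generalize cos (F.psi (F.ell * x 0)) = a at *
  have e : b ^ 2 = 1 - a ^ 2 := by linarith
  have e4 : b ^ 4 = (1 - a ^ 2) ^ 2 := by rw [← e]; ring
  ring_nf
  rw [e4, e]
  ring

theorem vol_met (F : Profile) : (met F).vol = ∫ t in (0 : ℝ)..F.ell, sin (2 * F.psi t) := by
  have hl : 0 < F.ell := by linarith [F.ell_gt]
  have h1 : ∀ a b c : ℝ, √((met F).g ![a, b, c]).det = F.ell * sin (2 * F.psi (F.ell * a)) := by
    intro a b c
    show √(gm F ![a, b, c]).det = _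
    rw [det_gm, sqrt_sq]
    · simp
    · have : 0 ≤ sin (2 * F.psi (F.ell * (![a, b, c] : V) 0)) := by
        rw [sin_two_mul]
        have := cos_pos' F (F.ell * (![a, b, c] : V) 0)
        have := sin_pos' F (F.ell * (![a, b, c] : V) 0)
        positivity
      positivity
  simp only [Metric.vol, h1, intervalIntegral.integral_const, smul_eq_mul, sub_zero, one_mul]
  rw [intervalIntegral.integral_const_mul]
  have := intervalIntegral.integral_comp_mul_left (a := (0 : ℝ)) (b := 1)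
    (fun t => sin (2 * F.psi t)) hl.ne'
  rw [this]
  simp only [mul_zero, mul_one, smul_eq_mul]
  field_simp

theorem fderiv_coord {f : ℝ → ℝ} (hf : Differentiable ℝ f) (y : V) (i : Fin 3) :
    fderiv ℝ (fun x : V => f (x 0)) y (Pi.single i 1) = if i = 0 then deriv f (y 0) else 0 := by
  have h : HasFDerivAt (fun x : V => f (x 0))
      ((deriv f (y 0)) • (ContinuousLinearMap.proj (R := ℝ) (φ := fun _ : Fin 3 => ℝ) 0)) y := by
    have h1 := ((hf (y 0)).hasDerivAt).comp_hasFDerivAt y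
      ((ContinuousLinearMap.proj (R := ℝ) (φ := fun _ : Fin 3 => ℝ) 0).hasFDerivAt (x := y))
    exact h1
  rw [h.fderiv]
  fin_cases i <;> simp

/-- The function `cos² ψ(ℓ x₀)`. -/
noncomputable def aa (F : Profile) (x : ℝ) : ℝ := cos (F.psi (F.ell * x)) ^ 2

theorem aa_hasDerivAt (F : Profile) (x : ℝ) : HasDerivAt (aa F)
    (-(2 * cos (F.psi (F.ell * x)) * sin (F.psi (F.ell * x)) * deriv F.psi (F.ell * x) * F.ell))
    x := by
  have h1 : HasDerivAt (fun x : ℝ => F.ell * x) F.ell x := by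
    simpa using (hasDerivAt_id x).const_mul F.ell
  have h2 : HasDerivAt (fun x : ℝ => F.psi (F.ell * x)) (deriv F.psi (F.ell * x) * F.ell) x :=
    (hd F (F.ell * x)).comp x h1
  have h3 := (h2.cos).pow 2
  refine h3.congr_deriv ?_
  push_cast
  ring

theorem gm_eq (F : Profile) (x : V) : gm F x =
    !![F.ell ^ 2 + aa F (x 0), aa F (x 0), aa F (x 0);
      aa F (x 0), 1, 2 * aa F (x 0) - 1;
      aa F (x 0), 2 * aa F (x 0) - 1, 1] := by
  have h := sin_sq_add_cos_sq (F.psi (F.ell * x 0))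
  have e : cos (F.psi (F.ell * x 0)) ^ 2 - sin (F.psi (F.ell * x 0)) ^ 2
      = 2 * aa F (x 0) - 1 := by
    unfold aa; linarith
  simp only [gm, e]
  rfl

theorem fderiv_gm (F : Profile) (y v : V) (i : Fin 3) :
    ∑ j, ∑ k, fderiv ℝ (fun x => gm F x j k) y (Pi.single i 1) * v j * v k =
      if i = 0 then -(2 * cos (F.psi (F.ell * y 0)) * sin (F.psi (F.ell * y 0))
        * deriv F.psi (F.ell * y 0) * F.ell) * ((v 0 + v 1 + v 2) ^ 2 - (v 1 - v 2) ^ 2)
      else 0 := by
  have hD : ∀ f : ℝ → ℝ, ∀ D : ℝ, (HasDerivAt f D (y 0)) → Differentiable ℝ f →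
      fderiv ℝ (fun x : V => f (x 0)) y (Pi.single i 1) = if i = 0 then D else 0 := by
    intro f D hf hf'
    rw [fderiv_coord hf' y i, hf.deriv]
  have ha := aa_hasDerivAt F (y 0)
  have hda : Differentiable ℝ (aa F) := fun x => (aa_hasDerivAt F x).differentiableAt
  have e1 := hD (aa F) _ ha hda
  have e2 := hD (fun x => F.ell ^ 2 + aa F x) _ (ha.const_add _) (hda.const_add _)
  have e3 := hD (fun x => 2 * aa F x - 1) _ ((ha.const_mul 2).sub_const 1)
    ((hda.const_mul 2).sub_const 1)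
  have e4 : fderiv ℝ (fun _ : V => (1 : ℝ)) y (Pi.single i 1) = 0 := by simp
  simp only [gm_eq, Fin.sum_univ_three, Matrix.of_apply, Matrix.cons_val', Matrix.cons_val_zero,
    Matrix.cons_val_one, Matrix.cons_val]
  try simp only at e2 e3
  rw [e1, e2, e3, e4]
  split_ifs <;> ring

/-- Conversion of a geodesic of the torus. -/
theorem isGeo_of_isGeodesic (F : Profile) (c : ℝ → V) (hc : (met F).IsGeodesic c) :
    ∃ P Q : ℝ, (warp F).IsGeo P Q (fun s => F.ell * c s 0) (fun s => F.ell * deriv c s 0)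
      (fun s => c s 0 + c s 1 + c s 2) (fun s => c s 1 - c s 2) ∧
      (∀ s, P = cos (F.psi (F.ell * c s 0)) ^ 2
        * (deriv c s 0 + deriv c s 1 + deriv c s 2)) ∧
      ∀ s, Q = sin (F.psi (F.ell * c s 0)) ^ 2 * (deriv c s 1 - deriv c s 2) := by
  have hl : 0 < F.ell := by linarith [F.ell_gt]
  have hc1 : ∀ s, HasDerivAt c (deriv c s) s := fun s =>
    (hc.smooth.differentiable (by simp) s).hasDerivAt
  have hcj : ∀ (j : Fin 3) (s : ℝ), HasDerivAt (fun u => c u j) (deriv c s j) s := fun j s =>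
    (hasDerivAt_pi.1 (hc1 s)) j
  have hsm : ContDiff ℝ ∞ (deriv c) := ((contDiff_infty_iff_deriv).1 hc.smooth).2
  have hdc : ∀ s, HasDerivAt (deriv c) (deriv (deriv c) s) s := fun s =>
    (hsm.differentiable (by simp) s).hasDerivAt
  have hdj : ∀ (j : Fin 3) (s : ℝ), HasDerivAt (fun u => deriv c u j) (deriv (deriv c) s j) s :=
    fun j s => (hasDerivAt_pi.1 (hdc s)) j
  have hsc : ∀ s, sin (F.psi (F.ell * c s 0)) ^ 2 + cos (F.psi (F.ell * c s 0)) ^ 2 = 1 :=
    fun s => sin_sq_add_cos_sq _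
  set a : ℝ → ℝ := fun s => cos (F.psi (F.ell * c s 0)) ^ 2 with ha
  set b : ℝ → ℝ := fun s => sin (F.psi (F.ell * c s 0)) ^ 2 with hb
  set pp : ℝ → ℝ := fun s => deriv c s 0 + deriv c s 1 + deriv c s 2 with hpp
  set qq : ℝ → ℝ := fun s => deriv c s 1 - deriv c s 2 with hqq
  have hder : ∀ s, HasDerivAt (fun u => F.psi (F.ell * c u 0))
      (deriv F.psi (F.ell * c s 0) * (F.ell * deriv c s 0)) s := fun s =>
    (hd F (F.ell * c s 0)).comp s ((hcj 0 s).const_mul F.ell)
  have hda : Differentiable ℝ a := fun s => (((hder s).cos).pow 2).differentiableAt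
  have hdb : Differentiable ℝ b := fun s => (((hder s).sin).pow 2).differentiableAt
  have hdp : Differentiable ℝ pp := fun s =>
    (((hdj 0 s).add (hdj 1 s)).add (hdj 2 s)).differentiableAt
  have hdq : Differentiable ℝ qq := fun s => ((hdj 1 s).sub (hdj 2 s)).differentiableAt
  -- the three equations
  have e1 : ∀ s, deriv (fun u => a u * pp u + b u * qq u) s = 0 := by
    intro s
    have h := hc.eq s 1
    have hr := fderiv_gm F (c s) (deriv c s) 1
    rw [if_neg (by decide)] at hr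
    have h' : (fun u => ∑ j, (met F).g (c u) 1 j * deriv c u j)
        = fun u => a u * pp u + b u * qq u := by
      funext u
      have := hsc u
      show ∑ j, gm F (c u) 1 j * deriv c u j = _
      simp only [gm, Fin.sum_univ_three, Matrix.of_apply, Matrix.cons_val', Matrix.cons_val_zero,
        Matrix.cons_val_one, Matrix.cons_val, ha, hb, hpp, hqq]
      linear_combination (-(deriv c u 1)) * this
    rw [h'] at h
    rw [h]
    show 1 / 2 * ∑ j, ∑ k, fderiv ℝ (fun x => gm F x j k) (c s) (Pi.single 1 1) *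
      deriv c s j * deriv c s k = 0
    rw [hr, mul_zero]
  have e2 : ∀ s, deriv (fun u => a u * pp u - b u * qq u) s = 0 := by
    intro s
    have h := hc.eq s 2
    have hr := fderiv_gm F (c s) (deriv c s) 2
    rw [if_neg (by decide)] at hr
    have h' : (fun u => ∑ j, (met F).g (c u) 2 j * deriv c u j)
        = fun u => a u * pp u - b u * qq u := by
      funext u
      have := hsc u
      show ∑ j, gm F (c u) 2 j * deriv c u j = _
      simp only [gm, Fin.sum_univ_three, Matrix.of_apply, Matrix.cons_val', Matrix.cons_val_zero,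
        Matrix.cons_val_one, Matrix.cons_val, ha, hb, hpp, hqq]
      linear_combination (-(deriv c u 2)) * this
    rw [h'] at h
    rw [h]
    show 1 / 2 * ∑ j, ∑ k, fderiv ℝ (fun x => gm F x j k) (c s) (Pi.single 2 1) *
      deriv c s j * deriv c s k = 0
    rw [hr, mul_zero]
  have e0 : ∀ s, deriv (fun u => F.ell ^ 2 * deriv c u 0 + a u * pp u) s =
      -(cos (F.psi (F.ell * c s 0)) * sin (F.psi (F.ell * c s 0))
        * deriv F.psi (F.ell * c s 0) * F.ell) * (pp s ^ 2 - qq s ^ 2) := by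
    intro s
    have h := hc.eq s 0
    have hr := fderiv_gm F (c s) (deriv c s) 0
    rw [if_pos rfl] at hr
    have h' : (fun u => ∑ j, (met F).g (c u) 0 j * deriv c u j)
        = fun u => F.ell ^ 2 * deriv c u 0 + a u * pp u := by
      funext u
      show ∑ j, gm F (c u) 0 j * deriv c u j = _
      simp only [gm, Fin.sum_univ_three, Matrix.of_apply, Matrix.cons_val', Matrix.cons_val_zero,
        Matrix.cons_val_one, Matrix.cons_val, ha, hpp]
      ring
    rw [h'] at h
    rw [h]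
    show 1 / 2 * ∑ j, ∑ k, fderiv ℝ (fun x => gm F x j k) (c s) (Pi.single 0 1) *
      deriv c s j * deriv c s k = _
    rw [hr]
    simp only [hpp, hqq]
    ring
  have c1 : ∀ s, a s * pp s + b s * qq s = a 0 * pp 0 + b 0 * qq 0 := fun s =>
    is_const_of_deriv_eq_zero ((hda.mul hdp).add (hdb.mul hdq)) e1 s 0
  have c2 : ∀ s, a s * pp s - b s * qq s = a 0 * pp 0 - b 0 * qq 0 := fun s =>
    is_const_of_deriv_eq_zero ((hda.mul hdp).sub (hdb.mul hdq)) e2 s 0
  have cP : ∀ s, a 0 * pp 0 = a s * pp s := fun s => by linarith [c1 s, c2 s]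
  have cQ : ∀ s, b 0 * qq 0 = b s * qq s := fun s => by linarith [c1 s, c2 s]
  refine ⟨a 0 * pp 0, b 0 * qq 0, ⟨fun s => ?_, fun s => ?_, fun s => ?_, fun s => ?_⟩,
    fun s => cP s, fun s => cQ s⟩
  · exact (hcj 0 s).const_mul F.ell
  · have h1 : (fun u => F.ell ^ 2 * deriv c u 0 + a u * pp u)
        = fun u => F.ell ^ 2 * deriv c u 0 + a 0 * pp 0 := by
      funext u; rw [← cP u]
    have h2 := e0 s
    rw [h1] at h2
    have h3 : HasDerivAt (fun u => F.ell ^ 2 * deriv c u 0 + a 0 * pp 0)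
        (F.ell ^ 2 * deriv (deriv c) s 0) s := ((hdj 0 s).const_mul _).add_const _
    rw [h3.deriv] at h2
    refine ((hdj 0 s).const_mul F.ell).congr_deriv ?_
    have hcp := cos_pos' F (F.ell * c s 0)
    have hsp := sin_pos' F (F.ell * c s 0)
    rw [cP s, cQ s]
    simp only [Warp.force, warp, deriv_cos_psi, deriv_sin_psi]
    simp only [ha, hb]
    have h4 : F.ell * deriv (deriv c) s 0 =
        -(cos (F.psi (F.ell * c s 0)) * sin (F.psi (F.ell * c s 0))
        * deriv F.psi (F.ell * c s 0)) * (pp s ^ 2 - qq s ^ 2) := by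
      have : F.ell * (F.ell * deriv (deriv c) s 0) =
        F.ell * (-(cos (F.psi (F.ell * c s 0)) * sin (F.psi (F.ell * c s 0))
        * deriv F.psi (F.ell * c s 0)) * (pp s ^ 2 - qq s ^ 2)) := by
        linear_combination h2
      exact mul_left_cancel₀ hl.ne' this
    rw [h4]
    field_simp
    ring
  · rw [cP s]
    have hcp := cos_pos' F (F.ell * c s 0)
    refine (((hcj 0 s).add (hcj 1 s)).add (hcj 2 s)).congr_deriv ?_
    simp only [warp, ha, hpp]
    field_simp
  · rw [cQ s]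
    have hsp := sin_pos' F (F.ell * c s 0)
    refine ((hcj 1 s).sub (hcj 2 s)).congr_deriv ?_
    simp only [warp, hb, hqq]
    field_simp

theorem nrg_eq (F : Profile) (c : ℝ → V) (P Q : ℝ) (s : ℝ)
    (hP : P = cos (F.psi (F.ell * c s 0)) ^ 2 * (deriv c s 0 + deriv c s 1 + deriv c s 2))
    (hQ : Q = sin (F.psi (F.ell * c s 0)) ^ 2 * (deriv c s 1 - deriv c s 2)) :
    (warp F).nrg (F.ell * c s 0) (F.ell * deriv c s 0) P Q
      = (met F).normSq (c s) (deriv c s) := by
  have hcp := cos_pos' F (F.ell * c s 0)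
  have hsp := sin_pos' F (F.ell * c s 0)
  show _ = ∑ j, ∑ k, gm F (c s) j k * deriv c s j * deriv c s k
  rw [quad, hP, hQ]
  simp only [Warp.nrg, warp]
  field_simp

theorem normSq_nonneg (F : Profile) (x v : V) : 0 ≤ (met F).normSq x v := by
  show 0 ≤ ∑ j, ∑ k, gm F x j k * v j * v k
  rw [quad]; positivity

theorem expInjective_half (F : Profile) (h_short : T_short) (h_classes : T_classes) :
    (met F).ExpInjective (1 / 2) := by
  intro c d hc hd h0 hnc hnd ⟨n, hn⟩
  have hl : 0 < F.ell := by linarith [F.ell_gt]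
  obtain ⟨P₁, Q₁, g₁, hP₁, hQ₁⟩ := isGeo_of_isGeodesic F d hd
  obtain ⟨P₂, Q₂, g₂, hP₂, hQ₂⟩ := isGeo_of_isGeodesic F c hc
  have n₁ := nrg_eq F d P₁ Q₁ 0 (hP₁ 0) (hQ₁ 0)
  have n₂ := nrg_eq F c P₂ Q₂ 0 (hP₂ 0) (hQ₂ 0)
  have sq : ∀ y : ℝ, 0 ≤ y → √y < 1 / 2 → y < 1 / 4 := by
    intro y hy h
    have := (Real.sqrt_lt' (by norm_num : (0 : ℝ) < 1 / 2)).1 h
    norm_num at this ⊢
    exact this
  have m₁ : (warp F).nrg (F.ell * d 0 0) (F.ell * deriv d 0 0) P₁ Q₁ < 1 / 4 := by
    rw [n₁]; exact sq _ (normSq_nonneg F _ _) hnd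
  have m₂ : (warp F).nrg (F.ell * c 0 0) (F.ell * deriv c 0 0) P₂ Q₂ < 1 / 4 := by
    rw [n₂]; exact sq _ (normSq_nonneg F _ _) hnc
  have h00 : d 0 0 = c 0 0 := by rw [h0]
  have h01 : d 0 1 = c 0 1 := by rw [h0]
  have h02 : d 0 2 = c 0 2 := by rw [h0]
  have k := h_classes F (warp F) rfl (fun _ => rfl) (fun _ => rfl) P₁ Q₁ P₂ Q₂ _ _ _ _ _ _ _ _
    g₁ g₂ m₁ m₂ (by simp only [h00]) (by simp only [h00, h01, h02]) (by simp only [h01, h02])
    (n 0) (n 0 + n 1 + n 2) (n 1 - n 2) ⟨n 0 + n 1, by ring⟩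
    (by
      show F.ell * c 1 0 = F.ell * d 1 0 + n 0 * F.ell
      rw [hn 0]; ring)
    (by
      show c 1 0 + c 1 1 + c 1 2 = d 1 0 + d 1 1 + d 1 2 + ((n 0 + n 1 + n 2 : ℤ) : ℝ)
      rw [hn 0, hn 1, hn 2]; push_cast; ring)
    (by
      show c 1 1 - c 1 2 = d 1 1 - d 1 2 + ((n 1 - n 2 : ℤ) : ℝ)
      rw [hn 1, hn 2]; push_cast; ring)
  obtain ⟨k0, k1, k2⟩ := k
  have z0 : n 0 = 0 := k0
  have z1 : n 1 = 0 := by omega
  have z2 : n 2 = 0 := by omega
  have e0 := hn 0
  have e1 := hn 1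
  have e2 := hn 2
  rw [z0, Int.cast_zero, add_zero] at e0
  rw [z1, Int.cast_zero, add_zero] at e1
  rw [z2, Int.cast_zero, add_zero] at e2
  obtain ⟨r0, r1, r2⟩ := h_short (warp F) P₁ Q₁ P₂ Q₂ _ _ _ _ _ _ _ _ g₁ g₂ m₁ m₂
    (by simp only [h00]) (by simp only [h00, h01, h02]) (by simp only [h01, h02])
    (by simp only [e0]) (by simp only [e0, e1, e2]) (by simp only [e1, e2])
  have v0 : deriv d 0 0 = deriv c 0 0 := mul_left_cancel₀ hl.ne' r0
  have hcp := cos_pos' F (F.ell * c 0 0)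
  have hsp := sin_pos' F (F.ell * c 0 0)
  have u1 : deriv d 0 0 + deriv d 0 1 + deriv d 0 2 = deriv c 0 0 + deriv c 0 1 + deriv c 0 2 := by
    have h := hP₁ 0
    rw [r1, hP₂ 0, h00] at h
    exact (mul_left_cancel₀ (pow_pos hcp 2).ne' h).symm
  have u2 : deriv d 0 1 - deriv d 0 2 = deriv c 0 1 - deriv c 0 2 := by
    have h := hQ₁ 0
    rw [r2, hQ₂ 0, h00] at h
    exact (mul_left_cancel₀ (pow_pos hsp 2).ne' h).symm
  funext i
  fin_cases i
  · exact v0.symm
  · show deriv c 0 1 = deriv d 0 1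
    linarith
  · show deriv c 0 2 = deriv d 0 2
    linarith

/-- The closed geodesics of length `1` in the direction `e₁`. -/
theorem line_isGeodesic (F : Profile) (y : ℝ) :
    (met F).IsGeodesic (fun s : ℝ => s • (Pi.single 1 y : V)) := by
  have hder : ∀ s : ℝ, deriv (fun s : ℝ => s • (Pi.single 1 y : V)) s = Pi.single 1 y := by
    intro s
    have h : HasDerivAt (fun s : ℝ => s • (Pi.single 1 y : V)) ((1 : ℝ) • Pi.single 1 y) s :=
      (hasDerivAt_id s).smul_const _
    rw [h.deriv, one_smul]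
  refine ⟨contDiff_id.smul contDiff_const, fun s i => ?_⟩
  have hr := fderiv_gm F (s • (Pi.single 1 y : V)) (Pi.single 1 y) i
  show deriv (fun u => ∑ j, gm F (u • (Pi.single 1 y : V)) i j
    * deriv (fun s : ℝ => s • (Pi.single 1 y : V)) u j) s = 1 / 2 * ∑ j, ∑ k,
      fderiv ℝ (fun x => gm F x j k) (s • (Pi.single 1 y : V)) (Pi.single i 1) *
      deriv (fun s : ℝ => s • (Pi.single 1 y : V)) s j *
      deriv (fun s : ℝ => s • (Pi.single 1 y : V)) s k
  simp only [hder]
  rw [hr]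
  have h1 : (fun u : ℝ => ∑ j, gm F (u • (Pi.single 1 y : V)) i j * (Pi.single 1 y : V) j)
      = fun _ => gm F 0 i 1 * y := by
    funext u
    have : gm F (u • (Pi.single 1 y : V)) = gm F 0 := by
      simp only [gm]
      simp
    rw [this]
    simp [Fin.sum_univ_three]
  rw [h1]
  simp

theorem le_half (F : Profile) (r : ℝ) (h : (met F).ExpInjective r) : r ≤ 1 / 2 := by
  by_contra hr
  push Not at hr
  have hder : ∀ (y : ℝ) (s : ℝ), deriv (fun s : ℝ => s • (Pi.single 1 y : V)) s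
      = Pi.single 1 y := by
    intro y s
    have h : HasDerivAt (fun s : ℝ => s • (Pi.single 1 y : V)) ((1 : ℝ) • Pi.single 1 y) s :=
      (hasDerivAt_id s).smul_const _
    rw [h.deriv, one_smul]
  have hn : ∀ (x : V) (y : ℝ), (met F).normSq x (Pi.single 1 y) = y ^ 2 := by
    intro x y
    show ∑ j, ∑ k, gm F x j k * (Pi.single 1 y : V) j * (Pi.single 1 y : V) k = _
    rw [quad]
    have := sin_sq_add_cos_sq (F.psi (F.ell * x 0))
    simp
    linear_combination y ^ 2 * this
  have hs : ∀ y : ℝ, y ^ 2 = (1 / 2) ^ 2 → √(y ^ 2) < r := by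
    intro y hy
    rw [hy, sqrt_sq (by norm_num)]; exact hr
  have k := h _ _ (line_isGeodesic F (1 / 2)) (line_isGeodesic F (-(1 / 2)))
    (by simp) (by rw [hder, hn]; exact hs _ (by norm_num))
    (by rw [hder, hn]; exact hs _ (by norm_num)) ⟨Pi.single 1 1, fun i => by
      fin_cases i <;> simp
      norm_num⟩
  rw [hder, hder] at k
  have := congrFun k 1
  simp at this
  norm_num at this

theorem inj_met (F : Profile) (h_short : T_short) (h_classes : T_classes) :
    (met F).inj = 1 / 2 :=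
  IsGreatest.csSup_eq ⟨expInjective_half F h_short h_classes, fun r hr => le_half F r hr⟩

end J8a_

theorem j8a (h_short : T_short) (h_classes : T_classes) : T_metric := by
  intro F
  refine ⟨J8a_.met F, J8a_.inj_met F h_short h_classes, ?_⟩
  rw [J8a_.vol_met]
  exact F.vol_le

end Pool.Agent.Emb
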