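import Pool.Agent.Emb.Targets

/-!
# J8b. The flat bound
-/

namespace Pool.Agent.Emb

open scoped ContDiff Real
open Set Real

namespace J8b_

theorem geo (m : Metric) (hm : m.IsFlat) (v : V) : m.IsGeodesic (fun s => s • v) := by
  have hg : ∀ x, m.g x = m.g 0 := fun x => hm x 0
  have hd : ∀ s : ℝ, HasDerivAt (fun s : ℝ => s • v) v s := by
    intro s
    simpa using (hasDerivAt_id s).smul_const v
  refine ⟨contDiff_id.smul contDiff_const, ?_⟩
  intro s i
  have h1 : (fun u : ℝ => ∑ j, m.g (u • v) i j * deriv (fun s : ℝ => s • v) u j)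
      = fun _ => ∑ j, m.g 0 i j * v j := by
    funext u
    rw [(hd u).deriv]
    simp only [hg]
  have h2 : ∀ j k, fderiv ℝ (fun x => m.g x j k) (s • v) = 0 := by
    intro j k
    have h3 : (fun x => m.g x j k) = fun _ => m.g 0 j k := by
      funext x
      rw [hg x]
    rw [h3]
    simp
  rw [h1, deriv_const]
  simp [h2]

theorem deriv_geo (v : V) : deriv (fun s : ℝ => s • v) 0 = v := by
  have h : HasDerivAt (fun s : ℝ => s • v) v 0 := by
    simpa using (hasDerivAt_id (0 : ℝ)).smul_const v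
  exact h.deriv

theorem key (m : Metric) (hm : m.IsFlat) (r : ℝ) (hr : 0 < r) (h : m.ExpInjective r)
    (n : Fin 3 → ℤ) (hn : n ≠ 0) : 4 * r ^ 2 ≤ ∑ i, ∑ j, m.g 0 i j * n i * n j := by
  by_contra hlt
  push Not at hlt
  have hv : m.normSq 0 (fun i => (n i : ℝ) / 2) < r ^ 2 := by
    have h1 : m.normSq 0 (fun i => (n i : ℝ) / 2)
        = (∑ i, ∑ j, m.g 0 i j * n i * n j) / 4 := by
      unfold Metric.normSq
      simp only [Fin.sum_univ_three]
      ring
    rw [h1]
    linarith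
  have hw : m.normSq 0 (fun i => -((n i : ℝ) / 2)) < r ^ 2 := by
    have h1 : m.normSq 0 (fun i => -((n i : ℝ) / 2))
        = m.normSq 0 (fun i => (n i : ℝ) / 2) := by
      unfold Metric.normSq
      simp only [Fin.sum_univ_three]
      ring
    rw [h1]
    exact hv
  have h2 := h _ _ (geo m hm fun i => (n i : ℝ) / 2) (geo m hm fun i => -((n i : ℝ) / 2))
    (by simp) (by simpa only [deriv_geo, zero_smul, Real.sqrt_lt' hr] using hv)
    (by simpa only [deriv_geo, zero_smul, Real.sqrt_lt' hr] using hw)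
    ⟨n, fun i => by simp; ring⟩
  rw [deriv_geo, deriv_geo] at h2
  apply hn
  funext i
  have h3 := congrFun h2 i
  have h4 : (n i : ℝ) = 0 := by
    linarith
  exact_mod_cast h4

theorem vol_eq (m : Metric) (hm : m.IsFlat) : m.vol = √(m.g 0).det := by
  unfold Metric.vol
  have h : ∀ a b c : ℝ, √(m.g ![a, b, c]).det = √(m.g 0).det :=
    fun a b c => by rw [hm ![a, b, c] 0]
  simp [h]

theorem cube (h_gauss : T_gauss) (m : Metric) (hm : m.IsFlat) (r : ℝ) (hr : 0 < r)
    (h : m.ExpInjective r) : 4 * √2 * r ^ 3 ≤ √(m.g 0).det := by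
  have h1 := h_gauss (m.g 0) (m.posDef 0) (4 * r ^ 2) (by positivity) (key m hm r hr h)
  apply Real.le_sqrt_of_sq_le
  have h2 : (4 * √2 * r ^ 3) ^ 2 = 32 * r ^ 6 := by
    have h3 : √2 ^ 2 = (2 : ℝ) := Real.sq_sqrt (by norm_num)
    calc (4 * √2 * r ^ 3) ^ 2 = 16 * √2 ^ 2 * r ^ 6 := by ring
      _ = 32 * r ^ 6 := by rw [h3]; ring
  rw [h2]
  nlinarith [h1]

end J8b_

open J8b_ in
theorem j8b (h_gauss : T_gauss) : T_flat := by
  intro m hm
  have hpos : 0 < 4 * √2 := by positivity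
  set R : ℝ := (m.vol / (4 * √2)) ^ ((1 : ℝ) / 3) with hR
  have hvol : 0 ≤ m.vol := by
    rw [vol_eq m hm]
    exact Real.sqrt_nonneg _
  have hR0 : 0 ≤ R := Real.rpow_nonneg (by positivity) _
  have hR3 : R ^ 3 = m.vol / (4 * √2) := by
    rw [hR, ← Real.rpow_natCast, ← Real.rpow_mul (by positivity)]
    norm_num
  have hle : m.inj ≤ R := by
    apply csSup_le
    · refine ⟨0, ?_⟩
      intro c d _ _ _ h1
      exact absurd h1 (not_lt.mpr (Real.sqrt_nonneg _))
    · intro r hr
      by_contra hlt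
      push Not at hlt
      have hr0 : 0 < r := lt_of_le_of_lt hR0 hlt
      have h1 := cube h_gauss m hm r hr0 hr
      rw [← vol_eq m hm] at h1
      have h2 : R ^ 3 < r ^ 3 := pow_lt_pow_left₀ hlt hR0 (by norm_num)
      rw [hR3, div_lt_iff₀ hpos] at h2
      linarith
  have h3 : m.inj ^ 3 ≤ R ^ 3 := by
    have hodd : Odd 3 := by decide
    exact hodd.strictMono_pow.monotone hle
  rw [hR3, le_div_iff₀ hpos] at h3
  linarith

end Pool.Agent.Emb
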