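import Pool.Agent.Emb.J8b

/-!
# J9: the flat metric of the face-centred cubic lattice
-/

namespace Pool.Agent.Emb

open scoped ContDiff Real
open Set Real

namespace J9_

noncomputable def G : Matrix (Fin 3) (Fin 3) ℝ := !![1, 1 / 2, 1 / 2; 1 / 2, 1, 1 / 2; 1 / 2, 1 / 2, 1]

theorem quad (v : V) : ∑ j, ∑ k, G j k * v j * v k =
    v 0 ^ 2 + v 1 ^ 2 + v 2 ^ 2 + v 0 * v 1 + v 0 * v 2 + v 1 * v 2 := by
  simp only [G, Fin.sum_univ_three, Matrix.of_apply, Matrix.cons_val', Matrix.cons_val_zero,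
    Matrix.cons_val_one, Matrix.cons_val]
  ring

theorem sos (v : V) : v 0 ^ 2 + v 1 ^ 2 + v 2 ^ 2 + v 0 * v 1 + v 0 * v 2 + v 1 * v 2 =
    ((v 0 + v 1) ^ 2 + (v 0 + v 2) ^ 2 + (v 1 + v 2) ^ 2) / 2 := by
  ring

theorem eq_zero (a b c : ℝ) (h : (a + b) ^ 2 + (a + c) ^ 2 + (b + c) ^ 2 ≤ 0) :
    a = 0 ∧ b = 0 ∧ c = 0 := by
  have h1 : a + b = 0 := by
    have : (a + b) ^ 2 = 0 := le_antisymm (by nlinarith [sq_nonneg (a + c), sq_nonneg (b + c)])
      (sq_nonneg _)
    exact pow_eq_zero_iff (two_ne_zero) |>.1 this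
  have h2 : a + c = 0 := by
    have : (a + c) ^ 2 = 0 := le_antisymm (by nlinarith [sq_nonneg (a + b), sq_nonneg (b + c)])
      (sq_nonneg _)
    exact pow_eq_zero_iff (two_ne_zero) |>.1 this
  have h3 : b + c = 0 := by
    have : (b + c) ^ 2 = 0 := le_antisymm (by nlinarith [sq_nonneg (a + b), sq_nonneg (a + c)])
      (sq_nonneg _)
    exact pow_eq_zero_iff (two_ne_zero) |>.1 this
  refine ⟨by linarith, by linarith, by linarith⟩

theorem posDef : G.PosDef := by
  rw [Matrix.posDef_iff_dotProduct_mulVec]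
  refine ⟨?_, ?_⟩
  · ext i j
    fin_cases i <;> fin_cases j <;> simp [G]
  · intro v hv
    have h1 : star v ⬝ᵥ (G.mulVec v) = ∑ j, ∑ k, G j k * v j * v k := by
      simp only [dotProduct, Matrix.mulVec, star_trivial, Finset.mul_sum]
      exact Finset.sum_congr rfl fun i _ => Finset.sum_congr rfl fun j _ => by ring
    rw [h1, quad, sos]
    by_contra hlt
    push Not at hlt
    obtain ⟨a, b, c⟩ := eq_zero (v 0) (v 1) (v 2) (by linarith)
    apply hv
    funext i
    fin_cases i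
    · exact a
    · exact b
    · exact c

/-- The fcc metric. -/
noncomputable def fcc : Metric where
  g _ := G
  smooth _ _ := contDiff_const
  posDef _ := posDef
  periodic _ _ := rfl

theorem geo_end (c : ℝ → V) (hc : fcc.IsGeodesic c) (i : Fin 3) :
    c 1 i = c 0 i + deriv c 0 i := by
  have hd : ∀ s, HasDerivAt c (deriv c s) s := fun s =>
    (hc.smooth.differentiable (by simp) s).hasDerivAt
  have hdi : ∀ (i : Fin 3) s, HasDerivAt (fun u => c u i) (deriv c s i) s := fun i s =>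
    (hasDerivAt_pi.1 (hd s)) i
  have hd2 : ∀ s, HasDerivAt (deriv c) (deriv (deriv c) s) s := by
    intro s
    exact ((contDiff_infty_iff_deriv.1 hc.smooth).2.differentiable (by simp) s).hasDerivAt
  have hd2i : ∀ (i : Fin 3) s, HasDerivAt (fun u => deriv c u i) (deriv (deriv c) s i) s :=
    fun i s => (hasDerivAt_pi.1 (hd2 s)) i
  have heq : ∀ (s : ℝ) (i : Fin 3), deriv (fun u => ∑ j, G i j * deriv c u j) s = 0 := by
    intro s i
    have h := hc.eq s i
    have h2 : ∀ j k, fderiv ℝ (fun x => fcc.g x j k) (c s) = 0 := by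
      intro j k
      have h3 : (fun x : V => fcc.g x j k) = fun _ => G j k := rfl
      rw [h3]
      simp
    simp only [h2] at h
    have h3 : deriv (fun u => ∑ j, G i j * deriv c u j) s =
        1 / 2 * ∑ j, ∑ k, (0 : V →L[ℝ] ℝ) (Pi.single i 1) * deriv c s j * deriv c s k := h
    rw [h3]
    simp
  have hconst : ∀ (s : ℝ) (i : Fin 3),
      ∑ j, G i j * deriv c s j = ∑ j, G i j * deriv c 0 j := by
    intro s i
    have hdf : Differentiable ℝ (fun u => ∑ j, G i j * deriv c u j) := by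
      intro u
      apply DifferentiableAt.fun_sum
      intro j _
      exact (hd2i j u).differentiableAt.const_mul _
    exact is_const_of_deriv_eq_zero hdf (fun s => heq s i) s 0
  have hlin : ∀ i : Fin 3, (∑ j, G i j * c 1 j) = (∑ j, G i j * c 0 j) +
      ∑ j, G i j * deriv c 0 j := by
    intro i
    have h1 : ∀ s, HasDerivAt (fun u => (∑ j, G i j * c u j) - u * ∑ j, G i j * deriv c 0 j) 0 s := by
      intro s
      have h2 : HasDerivAt (fun u => ∑ j, G i j * c u j) (∑ j, G i j * deriv c s j) s :=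
        HasDerivAt.fun_sum fun j _ => (hdi j s).const_mul _
      have h3 : HasDerivAt (fun u : ℝ => u * ∑ j, G i j * deriv c 0 j)
          (1 * ∑ j, G i j * deriv c 0 j) s := (hasDerivAt_id' s).mul_const _
      have h4 := h2.sub h3
      rw [hconst s i, one_mul, sub_self] at h4
      exact h4
    have h5 := is_const_of_deriv_eq_zero (fun s => (h1 s).differentiableAt)
      (fun s => (h1 s).deriv) 1 0
    simp only [one_mul, zero_mul, sub_zero] at h5
    linarith
  have e0 := hlin 0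
  have e1 := hlin 1
  have e2 := hlin 2
  simp only [G, Fin.sum_univ_three, Matrix.of_apply, Matrix.cons_val', Matrix.cons_val_zero,
    Matrix.cons_val_one, Matrix.cons_val] at e0 e1 e2
  fin_cases i
  · show c 1 0 = c 0 0 + deriv c 0 0
    linarith
  · show c 1 1 = c 0 1 + deriv c 0 1
    linarith
  · show c 1 2 = c 0 2 + deriv c 0 2
    linarith

theorem half : fcc.ExpInjective (1 / 2) := by
  intro c d hc hd h0 hnc hnd hn
  obtain ⟨n, hn⟩ := hn
  have hc2 : ∑ j, ∑ k, G j k * deriv c 0 j * deriv c 0 k < 1 / 4 := by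
    have h := (Real.sqrt_lt' (by norm_num)).1 hnc
    have : fcc.normSq (c 0) (deriv c 0) = ∑ j, ∑ k, G j k * deriv c 0 j * deriv c 0 k := rfl
    rw [this] at h
    linarith
  have hd2 : ∑ j, ∑ k, G j k * deriv d 0 j * deriv d 0 k < 1 / 4 := by
    have h := (Real.sqrt_lt' (by norm_num)).1 hnd
    have : fcc.normSq (d 0) (deriv d 0) = ∑ j, ∑ k, G j k * deriv d 0 j * deriv d 0 k := rfl
    rw [this] at h
    linarith
  rw [quad, sos] at hc2 hd2
  have hdiff : ∀ i, (n i : ℝ) = deriv c 0 i - deriv d 0 i := by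
    intro i
    have h1 := geo_end c hc i
    have h2 := geo_end d hd i
    have h3 := hn i
    have h4 : c 0 i = d 0 i := congrFun h0 i
    linarith
  have hlt : ((n 0 : ℝ) + n 1) ^ 2 + ((n 0 : ℝ) + n 2) ^ 2 + ((n 1 : ℝ) + n 2) ^ 2 < 2 := by
    rw [hdiff 0, hdiff 1, hdiff 2]
    nlinarith [sq_nonneg (deriv c 0 0 + deriv d 0 0 + (deriv c 0 1 + deriv d 0 1)),
      sq_nonneg (deriv c 0 0 + deriv d 0 0 + (deriv c 0 2 + deriv d 0 2)),
      sq_nonneg (deriv c 0 1 + deriv d 0 1 + (deriv c 0 2 + deriv d 0 2))]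
  have hint : (n 0 + n 1) ^ 2 + (n 0 + n 2) ^ 2 + (n 1 + n 2) ^ 2 < 2 := by
    exact_mod_cast hlt
  have heven : (n 0 + n 1) ^ 2 + (n 0 + n 2) ^ 2 + (n 1 + n 2) ^ 2 =
      2 * (n 0 ^ 2 + n 1 ^ 2 + n 2 ^ 2 + n 0 * n 1 + n 0 * n 2 + n 1 * n 2) := by ring
  have hz : (n 0 + n 1) ^ 2 + (n 0 + n 2) ^ 2 + (n 1 + n 2) ^ 2 ≤ 0 := by omega
  obtain ⟨a, b, c'⟩ := eq_zero (n 0 : ℝ) (n 1) (n 2) (by exact_mod_cast hz)
  funext i
  have h1 := hdiff i
  fin_cases i
  · have : (n 0 : ℝ) = deriv c 0 0 - deriv d 0 0 := h1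
    show deriv c 0 0 = deriv d 0 0
    linarith
  · have : (n 1 : ℝ) = deriv c 0 1 - deriv d 0 1 := h1
    show deriv c 0 1 = deriv d 0 1
    linarith
  · have : (n 2 : ℝ) = deriv c 0 2 - deriv d 0 2 := h1
    show deriv c 0 2 = deriv d 0 2
    linarith

theorem flat : fcc.IsFlat := fun _ _ => rfl

theorem inj_fcc : fcc.inj = 1 / 2 := by
  refine IsGreatest.csSup_eq ⟨half, ?_⟩
  intro r hr
  by_contra hlt
  push Not at hlt
  have h := J8b_.key fcc flat r (by linarith) hr (Pi.single 0 1) (by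
    intro h
    have := congrFun h 0
    simp at this)
  have h2 : ∑ i, ∑ j, fcc.g 0 i j * ((Pi.single 0 1 : Fin 3 → ℤ) i : ℝ) *
      ((Pi.single 0 1 : Fin 3 → ℤ) j : ℝ) = 1 := by
    show ∑ i, ∑ j, G i j * ((Pi.single 0 1 : Fin 3 → ℤ) i : ℝ) *
      ((Pi.single 0 1 : Fin 3 → ℤ) j : ℝ) = 1
    simp [Fin.sum_univ_three, G]
  rw [h2] at h
  nlinarith

theorem vol_fcc : fcc.vol = 1 / √2 := by
  rw [J8b_.vol_eq fcc flat]
  have h : (fcc.g 0).det = 1 / 2 := by
    show G.det = 1 / 2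
    simp only [G, Matrix.det_fin_three, Matrix.of_apply, Matrix.cons_val', Matrix.cons_val_zero,
      Matrix.cons_val_one, Matrix.cons_val]
    norm_num
  rw [h, Real.sqrt_div (by norm_num), Real.sqrt_one]

end J9_

theorem j9 : ∃ m : Metric, m.IsFlat ∧ m.inj = 1 / 2 ∧ m.vol = 1 / √2 :=
  ⟨J9_.fcc, J9_.flat, J9_.inj_fcc, J9_.vol_fcc⟩

end Pool.Agent.Emb
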