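import Pool.Agent.Emb.Targets

/-!
# J0a and J4a: conservation of the speed, calibrations
-/

namespace Pool.Agent.Emb

open scoped ContDiff Real
open Set Real

namespace Warp

variable (W : Warp)

theorem hasDerivAt_A (t : ℝ) : HasDerivAt W.A (deriv W.A t) t :=
  (W.A_smooth.differentiable (by simp)).differentiableAt.hasDerivAt

theorem hasDerivAt_B (t : ℝ) : HasDerivAt W.B (deriv W.B t) t :=
  (W.B_smooth.differentiable (by simp)).differentiableAt.hasDerivAt

end Warp

/-- J0a. -/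
theorem nrg_const : T_nrg := by
  intro W P Q t x p q h
  have hd : ∀ s, HasDerivAt (fun s => W.nrg (t s) (x s) P Q) 0 s := by
    intro s
    have hA := (W.hasDerivAt_A (t s)).comp s (h.ht s)
    have hB := (W.hasDerivAt_B (t s)).comp s (h.ht s)
    have hA0 : W.A (t s) ≠ 0 := (W.A_pos _).ne'
    have hB0 : W.B (t s) ≠ 0 := (W.B_pos _).ne'
    have h1 := (h.hx s).pow 2
    have h2 := (hA.pow 2).inv (pow_ne_zero 2 hA0)
    have h3 := (hB.pow 2).inv (pow_ne_zero 2 hB0)
    have h4 := (h1.add (h2.const_mul (P ^ 2))).add (h3.const_mul (Q ^ 2))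
    have e : (fun s => W.nrg (t s) (x s) P Q)
        = (x ^ 2 + fun y => P ^ 2 * (W.A ∘ t ^ 2)⁻¹ y) + fun y => Q ^ 2 * (W.B ∘ t ^ 2)⁻¹ y := by
      funext u
      simp only [Warp.nrg, Pi.add_apply, Pi.pow_apply, Pi.inv_apply, Function.comp_apply,
        div_eq_mul_inv]
    rw [e]
    refine h4.congr_deriv ?_
    simp only [Warp.force, Function.comp_apply, Pi.pow_apply]
    field_simp
    ring
  intro s
  have := is_const_of_deriv_eq_zero (f := fun s => W.nrg (t s) (x s) P Q)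
    (fun s => (hd s).differentiableAt) (fun s => (hd s).deriv) s 0
  exact this

/-- Cauchy's inequality for three terms. -/
theorem cs3 (a b c x y z : ℝ) :
    (a * x + b * y + c * z) ^ 2 ≤ (a ^ 2 + b ^ 2 + c ^ 2) * (x ^ 2 + y ^ 2 + z ^ 2) := by
  nlinarith [sq_nonneg (a * y - b * x), sq_nonneg (a * z - c * x), sq_nonneg (b * z - c * y)]

/-- J4a. -/
theorem calib : T_calib := by
  intro W φ α β hφ hc P Q t x p q h hE
  set E := W.nrg (t 0) (x 0) P Q with hEdef
  have hE0 : 0 ≤ E := by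
    rw [hEdef, Warp.nrg]
    positivity
  have hr : √E < 1 / 2 := by
    rw [show (1 / 2 : ℝ) = √(1 / 4) by
      rw [show (1 / 4 : ℝ) = (1 / 2) ^ 2 by norm_num, Real.sqrt_sq (by norm_num)]]
    exact Real.sqrt_lt_sqrt hE0 hE
  set F : ℝ → ℝ := fun s => (∫ u in (t 0)..(t s), φ u) + α * (p s - p 0) + β * (q s - q 0)
    with hF
  have hFd : ∀ s, HasDerivAt F (φ (t s) * x s + α * (P / W.A (t s) ^ 2)
      + β * (Q / W.B (t s) ^ 2)) s := by
    intro s
    have h1 : HasDerivAt (fun b => ∫ u in (t 0)..b, φ u) (φ (t s)) (t s) :=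
      intervalIntegral.integral_hasDerivAt_right (hφ.intervalIntegrable _ _)
        (hφ.stronglyMeasurableAtFilter _ _) hφ.continuousAt
    have h2 := h1.comp s (h.ht s)
    have h3 := ((h.hp s).sub_const (p 0)).const_mul α
    have h4 := ((h.hq s).sub_const (q 0)).const_mul β
    exact (h2.add h3).add h4
  have hb : ∀ s, ‖φ (t s) * x s + α * (P / W.A (t s) ^ 2) + β * (Q / W.B (t s) ^ 2)‖ ≤ √E := by
    intro s
    have hA0 : W.A (t s) ≠ 0 := (W.A_pos _).ne'
    have hB0 : W.B (t s) ≠ 0 := (W.B_pos _).ne'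
    rw [Real.norm_eq_abs]
    apply Real.abs_le_sqrt
    have h1 := cs3 (φ (t s)) (α / W.A (t s)) (β / W.B (t s)) (x s) (P / W.A (t s))
      (Q / W.B (t s))
    have h2 : φ (t s) * x s + α * (P / W.A (t s) ^ 2) + β * (Q / W.B (t s) ^ 2)
        = φ (t s) * x s + α / W.A (t s) * (P / W.A (t s)) + β / W.B (t s) * (Q / W.B (t s)) := by
      field_simp
    have h3 : x s ^ 2 + (P / W.A (t s)) ^ 2 + (Q / W.B (t s)) ^ 2 = E := by
      rw [hEdef, ← nrg_const W P Q t x p q h s, Warp.nrg, div_pow, div_pow]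
    have h4 : φ (t s) ^ 2 + (α / W.A (t s)) ^ 2 + (β / W.B (t s)) ^ 2 ≤ 1 := by
      rw [div_pow, div_pow]
      exact hc _
    rw [h3] at h1
    rw [h2]
    nlinarith
  have hm := (convex_univ (𝕜 := ℝ) (E := ℝ)).norm_image_sub_le_of_norm_hasDerivWithin_le
    (f := F) (C := √E) (fun s _ => (hFd s).hasDerivWithinAt) (fun s _ => hb s)
    (mem_univ 0) (mem_univ 1)
  have hF0 : F 0 = 0 := by simp [hF]
  rw [hF0, sub_zero, sub_zero, Real.norm_eq_abs, norm_one, mul_one] at hm
  exact lt_of_le_of_lt hm hr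

end Pool.Agent.Emb
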