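import Pool.Agent.Emb.Nrg

/-!
# J4b: the map to the unit sphere of `ℂ²`
-/

namespace Pool.Agent.Emb

open scoped ContDiff Real
open Set Real

/-- J4b (with the hypothesis `0 ≤ ρ`, which is missing in `T_sphere`). -/
theorem sphere (ψ : ℝ → ℝ) (hψ : Differentiable ℝ ψ) (hsl : ∀ t, |deriv ψ t| ≤ π)
    (t p q : ℝ → ℝ) (t' p' q' : ℝ → ℝ) (ρ : ℝ) (hρ0 : 0 ≤ ρ) (hρ : ρ < 1 / 2)
    (ht : ∀ s, HasDerivAt t (t' s) s) (hp : ∀ s, HasDerivAt p (p' s) s)
    (hq : ∀ s, HasDerivAt q (q' s) s)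
    (hsp : ∀ s, t' s ^ 2 + cos (ψ (t s)) ^ 2 * p' s ^ 2 + sin (ψ (t s)) ^ 2 * q' s ^ 2
      ≤ ρ ^ 2) :
    0 < cos (ψ (t 0)) * cos (ψ (t 1)) * cos (π * (p 1 - p 0))
      + sin (ψ (t 0)) * sin (ψ (t 1)) * cos (π * (q 1 - q 0)) := by
  -- abbreviations
  set a := ψ (t 0) with ha
  set I : ℝ → ℝ := fun s => cos a * cos (ψ (t s)) * cos (π * (p s - p 0))
    + sin a * sin (ψ (t s)) * cos (π * (q s - q 0)) with hI
  set I' : ℝ → ℝ := fun s =>
    (-(sin (ψ (t s))) * (cos a * cos (π * (p s - p 0)))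
      + cos (ψ (t s)) * (sin a * cos (π * (q s - q 0)))) * (deriv ψ (t s) * t' s)
    + (-(cos a * sin (π * (p s - p 0)))) * (cos (ψ (t s)) * (π * p' s))
    + (-(sin a * sin (π * (q s - q 0)))) * (sin (ψ (t s)) * (π * q' s)) with hI'
  set c : ℝ := π * ρ with hc
  have hc0 : 0 ≤ c := by positivity
  have hId : ∀ s, HasDerivAt I (I' s) s := by
    intro s
    have hb := ((hψ (t s)).hasDerivAt).comp s (ht s)
    have hX := ((hp s).sub_const (p 0)).const_mul π
    have hY := ((hq s).sub_const (q 0)).const_mul π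
    have h1 := ((hb.cos.const_mul (cos a)).mul hX.cos).add
      ((hb.sin.const_mul (sin a)).mul hY.cos)
    have e : I = (fun s => cos a * cos ((ψ ∘ t) s)) * (fun s => cos (π * (p s - p 0)))
        + (fun s => sin a * sin ((ψ ∘ t) s)) * (fun s => cos (π * (q s - q 0))) := by
      funext u
      simp [hI]
    rw [e]
    refine h1.congr_deriv ?_
    simp only [hI', Function.comp_apply]
    ring
  have hkey : ∀ s, I' s ^ 2 ≤ (1 - I s ^ 2) * c ^ 2 := by
    intro s
    have h1 := cs3 (-(sin (ψ (t s))) * (cos a * cos (π * (p s - p 0)))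
      + cos (ψ (t s)) * (sin a * cos (π * (q s - q 0)))) (-(cos a * sin (π * (p s - p 0))))
      (-(sin a * sin (π * (q s - q 0)))) (deriv ψ (t s) * t' s) (cos (ψ (t s)) * (π * p' s))
      (sin (ψ (t s)) * (π * q' s))
    have e1 : (-(sin (ψ (t s))) * (cos a * cos (π * (p s - p 0)))
        + cos (ψ (t s)) * (sin a * cos (π * (q s - q 0)))) ^ 2
        + (-(cos a * sin (π * (p s - p 0)))) ^ 2 + (-(sin a * sin (π * (q s - q 0)))) ^ 2
        = 1 - I s ^ 2 := by
      simp only [hI]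
      have s1 := sin_sq_add_cos_sq (ψ (t s))
      have s2 := sin_sq_add_cos_sq (π * (p s - p 0))
      have s3 := sin_sq_add_cos_sq (π * (q s - q 0))
      have s4 := sin_sq_add_cos_sq a
      generalize sin (ψ (t s)) = sb at *
      generalize cos (ψ (t s)) = cb at *
      generalize sin (π * (p s - p 0)) = sX at *
      generalize cos (π * (p s - p 0)) = cX at *
      generalize sin (π * (q s - q 0)) = sY at *
      generalize cos (π * (q s - q 0)) = cY at *
      generalize sin a = sa at *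
      generalize cos a = ca at *
      have k1 : sb ^ 2 = 1 - cb ^ 2 := by linarith
      have k2 : sX ^ 2 = 1 - cX ^ 2 := by linarith
      have k3 : sY ^ 2 = 1 - cY ^ 2 := by linarith
      have k4 : sa ^ 2 = 1 - ca ^ 2 := by linarith
      have : (-sb * (ca * cX) + cb * (sa * cY)) ^ 2 + (-(ca * sX)) ^ 2 + (-(sa * sY)) ^ 2
          - (1 - (ca * cb * cX + sa * sb * cY) ^ 2)
          = (sb ^ 2 + cb ^ 2 - 1) * (ca ^ 2 * cX ^ 2 + sa ^ 2 * cY ^ 2)
            + ca ^ 2 * (sX ^ 2 + cX ^ 2 - 1) + sa ^ 2 * (sY ^ 2 + cY ^ 2 - 1)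
            + (sa ^ 2 + ca ^ 2 - 1) := by ring
      rw [s1, s2, s3, s4] at this
      linarith
    have e2 : (deriv ψ (t s) * t' s) ^ 2 + (cos (ψ (t s)) * (π * p' s)) ^ 2
        + (sin (ψ (t s)) * (π * q' s)) ^ 2 ≤ c ^ 2 := by
      have h2 : (deriv ψ (t s)) ^ 2 ≤ π ^ 2 := by
        rw [← sq_abs (deriv ψ (t s))]
        exact pow_le_pow_left₀ (abs_nonneg _) (hsl _) 2
      have h3 := hsp s
      have h4 : c ^ 2 = π ^ 2 * ρ ^ 2 := by rw [hc, mul_pow]
      rw [h4]
      have h5 : (deriv ψ (t s)) ^ 2 * t' s ^ 2 ≤ π ^ 2 * t' s ^ 2 :=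
        mul_le_mul_of_nonneg_right h2 (sq_nonneg _)
      have h6 := mul_le_mul_of_nonneg_left h3 (sq_nonneg π)
      nlinarith
    rw [e1] at h1
    have h5 : 0 ≤ 1 - I s ^ 2 := by
      rw [← e1]
      positivity
    calc I' s ^ 2 ≤ _ := h1
      _ ≤ _ := mul_le_mul_of_nonneg_left e2 h5
  have hI1 : ∀ s, I s ^ 2 ≤ 1 := by
    intro s
    have s1 := sin_sq_add_cos_sq (ψ (t s))
    have s4 := sin_sq_add_cos_sq a
    have hx := abs_cos_le_one (π * (p s - p 0))
    have hy := abs_cos_le_one (π * (q s - q 0))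
    have h1 : |I s| ≤ |cos a| * |cos (ψ (t s))| + |sin a| * |sin (ψ (t s))| := by
      simp only [hI]
      refine (abs_add_le _ _).trans ?_
      rw [abs_mul, abs_mul, abs_mul, abs_mul]
      have k1 : 0 ≤ |cos a| * |cos (ψ (t s))| := by positivity
      have k2 : 0 ≤ |sin a| * |sin (ψ (t s))| := by positivity
      nlinarith
    have h2 : |cos a| * |cos (ψ (t s))| + |sin a| * |sin (ψ (t s))| ≤ 1 := by
      have k1 := sq_abs (cos a)
      have k2 := sq_abs (sin a)
      have k3 := sq_abs (cos (ψ (t s)))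
      have k4 := sq_abs (sin (ψ (t s)))
      nlinarith [sq_nonneg (|cos a| - |cos (ψ (t s))|), sq_nonneg (|sin a| - |sin (ψ (t s))|)]
    have h3 : |I s| ≤ 1 := h1.trans h2
    calc I s ^ 2 = |I s| ^ 2 := (sq_abs _).symm
      _ ≤ 1 ^ 2 := pow_le_pow_left₀ (abs_nonneg _) h3 2
      _ = 1 := one_pow 2
  have hI0 : I 0 = 1 := by
    simp only [hI, sub_self, mul_zero, cos_zero, mul_one]
    rw [← ha]
    have := sin_sq_add_cos_sq a
    nlinarith
  -- the comparison with a factor `lam < 1`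
  have hcomp : ∀ lam : ℝ, 0 < lam → lam < 1 → arccos (lam * I 1) ≤ arccos lam + c := by
    intro lam h0 h1
    have hin : ∀ s, (lam * I s) ^ 2 < 1 := by
      intro s
      have := hI1 s
      rw [mul_pow]
      have h2 : lam ^ 2 < 1 := by nlinarith
      nlinarith [sq_nonneg (I s), sq_nonneg lam]
    have hd : ∀ s, HasDerivAt (fun s => arccos (lam * I s))
        (-(1 / √(1 - (lam * I s) ^ 2)) * (lam * I' s)) s := by
      intro s
      have h2 := hin s
      have h3 : lam * I s ≠ -1 := by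
        intro h4
        rw [h4] at h2
        norm_num at h2
      have h4 : lam * I s ≠ 1 := by
        intro h4
        rw [h4] at h2
        norm_num at h2
      exact HasDerivAt.comp (h := fun s => lam * I s) (h₂ := arccos) s
        (hasDerivAt_arccos h3 h4) ((hId s).const_mul lam)
    have hb : ∀ s, ‖-(1 / √(1 - (lam * I s) ^ 2)) * (lam * I' s)‖ ≤ c := by
      intro s
      have h2 := hin s
      have h3 : 0 < 1 - (lam * I s) ^ 2 := by linarith
      have h4 : 0 < √(1 - (lam * I s) ^ 2) := Real.sqrt_pos.2 h3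
      rw [Real.norm_eq_abs, abs_mul, abs_neg, abs_of_pos (one_div_pos.2 h4),
        one_div, inv_mul_le_iff₀ h4]
      have h5 : (lam * I' s) ^ 2 ≤ (√(1 - (lam * I s) ^ 2) * c) ^ 2 := by
        rw [mul_pow (√_), Real.sq_sqrt h3.le, mul_pow lam, mul_pow lam]
        have h6 := hkey s
        have h7 : lam ^ 2 ≤ 1 := by nlinarith
        have h8 : 0 ≤ lam ^ 2 := sq_nonneg _
        have h9 : lam ^ 2 * I' s ^ 2 ≤ lam ^ 2 * ((1 - I s ^ 2) * c ^ 2) :=
          mul_le_mul_of_nonneg_left h6 h8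
        have h10 : lam ^ 2 * ((1 - I s ^ 2) * c ^ 2) ≤ (1 - lam ^ 2 * I s ^ 2) * c ^ 2 := by
          nlinarith [sq_nonneg c]
        exact h9.trans h10
      exact abs_le_of_sq_le_sq h5 (by positivity)
    have hm := (convex_univ (𝕜 := ℝ) (E := ℝ)).norm_image_sub_le_of_norm_hasDerivWithin_le
      (f := fun s => arccos (lam * I s)) (C := c) (fun s _ => (hd s).hasDerivWithinAt)
      (fun s _ => hb s) (mem_univ 0) (mem_univ 1)
    rw [hI0, mul_one, sub_zero, Real.norm_eq_abs, norm_one, mul_one] at hm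
    linarith [le_abs_self (arccos (lam * I 1) - arccos lam)]
  have hcl : c < π / 2 := by
    have h1 := pi_pos
    rw [hc]
    nlinarith
  obtain ⟨lam, hl0, hl1, hl2⟩ : ∃ lam : ℝ, 0 < lam ∧ lam < 1 ∧ arccos lam + c < π / 2 := by
    refine ⟨cos ((π / 2 - c) / 2), ?_, ?_, ?_⟩
    · apply cos_pos_of_mem_Ioo
      constructor <;> linarith
    · rw [← cos_zero]
      apply cos_lt_cos_of_nonneg_of_le_pi_div_two <;> linarith
    · rw [arccos_cos] <;> linarith
  have h1 := hcomp lam hl0 hl1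
  have h2 : arccos (lam * I 1) < π / 2 := lt_of_le_of_lt h1 hl2
  rw [arccos_lt_pi_div_two] at h2
  exact (mul_pos_iff_of_pos_left hl0).1 h2

end Pool.Agent.Emb
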