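import Pool.Agent.Emb.Warp

/-!
# Targets (statements of the blocks)
-/

namespace Pool.Agent.Emb

open scoped ContDiff Real
open Set Real

/-- Initial data `(t₀, x₀, P, Q)`; also end data `(t₀, t₁, p₁, q₁)`. -/
abbrev E4 := ℝ × ℝ × ℝ × ℝ

/-- J0a. Conservation of the speed. -/
def T_nrg : Prop := ∀ (W : Warp) (P Q : ℝ) (t x p q : ℝ → ℝ), W.IsGeo P Q t x p q →
  ∀ s, W.nrg (t s) (x s) P Q = W.nrg (t 0) (x 0) P Q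

/-- J0b. Uniqueness for the initial value problem. -/
def T_unique : Prop := ∀ (W : Warp) (P Q : ℝ) (t x p q t' x' p' q' : ℝ → ℝ),
  W.IsGeo P Q t x p q → W.IsGeo P Q t' x' p' q' → t 0 = t' 0 → x 0 = x' 0 → p 0 = p' 0 →
  q 0 = q' 0 → t = t' ∧ x = x' ∧ p = p' ∧ q = q'

/-- J1. No conjugate points within distance `1/2`.
Proof: with `m = A'/A`, `n = B'/B`, `X = x`, `Y = P/A`, `Z = Q/B`, `ξ = A k`, `η = B l` put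
`D = (h' - m Y ξ - n Z η, ξ' + m Y h, η' + n Z h)` and
`R = K_tp (h Y - ξ X)² + K_tq (h Z - η X)² + K_pq (ξ Z - η Y)²`, `K_tp = -A''/A`, `K_tq = -B''/B`,
`K_pq = -A'B'/(AB)`. Pointwise identity (for solutions of the linearised system):
`h'² + A² (dP/A²)² + B² (dQ/B²)² - 1/2 (P² (A⁻²)'' + Q² (B⁻²)'') h²
   = |D|² - R + d/ds (-m X ξ² - n X η² + 2 m Y h ξ + 2 n Z h η)`,
and the integral of the left side over `[0,1]` is `0` if `h, k, l` vanish at both ends (multiply the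
equation for `y` by `h`, integrate by parts, and use `∫ k' = ∫ l' = 0`).
`R ≤ 4π² (speed²) |(h, ξ, η)|²` by Lagrange's identity, and `∫ |D|² ≥ π² ∫ |(h, ξ, η)|²` from
`|D - π cot(πs) (h, ξ, η)|² ≥ 0` and `⟨D, (h, ξ, η)⟩ = 1/2 (|(h, ξ, η)|²)'`. -/
def T_jacobi : Prop := ∀ (W : Warp) (P Q : ℝ) (t x p q : ℝ → ℝ), W.IsGeo P Q t x p q →
  W.nrg (t 0) (x 0) P Q < 1 / 4 → ∀ (dP dQ : ℝ) (h y k l : ℝ → ℝ),
  W.IsVar P Q t dP dQ h y k l → h 0 = 0 → k 0 = 0 → l 0 = 0 → h 1 = 0 → k 1 = 0 → l 1 = 0 →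
  y 0 = 0 ∧ dP = 0 ∧ dQ = 0

/-- J1b. The first variation of the energy. -/
def T_first : Prop := ∀ (W : Warp) (P Q : ℝ) (t x p q : ℝ → ℝ), W.IsGeo P Q t x p q →
  ∀ (dP dQ : ℝ) (h y k l : ℝ → ℝ), W.IsVar P Q t dP dQ h y k l → h 0 = 0 → k 0 = 0 → l 0 = 0 →
  x 1 * h 1 + P * k 1 + Q * l 1 =
    x 0 * y 0 + P * dP / W.A (t 0) ^ 2 + Q * dQ / W.B (t 0) ^ 2

/-- J2. The exponential map and its derivative. Use `Knieper.flow_theorem` (file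
`Pool/Agent/Knieper/Flow.lean`) for the cut-off field on `ℝ⁶ ∋ (t, x, P, Q, p, q)`,
`Knieper.exists_cutoff` (in `GeoFlow.lean`), global solutions for fixed `P, Q` from
`Knieper.exists_solution_global`, and J0a to see that they stay in the region without cut-off. -/
def T_flow : Prop := ∀ W : Warp, ∃ Ψ : E4 → E4, (∀ e, (Ψ e).1 = e.1) ∧
  ∀ e : E4, e.1 ∈ Icc 0 W.ell → W.nrg e.1 e.2.1 e.2.2.1 e.2.2.2 < 1 / 4 →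
    ∃ t x p q : ℝ → ℝ, W.IsGeo e.2.2.1 e.2.2.2 t x p q ∧ t 0 = e.1 ∧ x 0 = e.2.1 ∧ p 0 = 0 ∧
      q 0 = 0 ∧ Ψ e = (e.1, t 1, p 1, q 1) ∧
      ∃ D : E4 →L[ℝ] E4, HasStrictFDerivAt Ψ D e ∧ ∀ w : E4, ∃ h y k l : ℝ → ℝ,
        W.IsVar e.2.2.1 e.2.2.2 t w.2.2.1 w.2.2.2 h y k l ∧ h 0 = w.1 ∧ y 0 = w.2.1 ∧ k 0 = 0 ∧
        l 0 = 0 ∧ D w = (w.1, h 1, k 1, l 1)

/-- J3a. The abstract closest pair argument: minimise `max (N e₁) (N e₂)` over the pairs of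
different points of `K = {e | e.1 ∈ [0, ell], N e ≤ r}` with `Ψ e₁ = Ψ e₂` (a compact set, because
`Ψ` is locally injective at every point of `K`; Lebesgue number lemma), move the common value in
the direction `u`. -/
def T_closest : Prop := ∀ (Ψ : E4 → E4) (N : E4 → ℝ) (ell r : ℝ),
  IsCompact {e : E4 | e.1 ∈ Icc 0 ell ∧ N e ≤ r} → Differentiable ℝ N → (∀ e, (Ψ e).1 = e.1) →
  ∀ D : E4 → E4 ≃L[ℝ] E4,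
  (∀ e : E4, e.1 ∈ Icc 0 ell → N e ≤ r → HasStrictFDerivAt Ψ (D e : E4 →L[ℝ] E4) e) →
  (∀ e₁ e₂ : E4, e₁.1 ∈ Icc 0 ell → N e₁ ≤ r → e₂.1 ∈ Icc 0 ell → N e₂ ≤ r → e₁ ≠ e₂ →
    Ψ e₁ = Ψ e₂ → ∃ u : E4, u.1 = 0 ∧ fderiv ℝ N e₁ ((D e₁).symm u) < 0 ∧
      fderiv ℝ N e₂ ((D e₂).symm u) < 0) →
  InjOn Ψ {e : E4 | e.1 ∈ Icc 0 ell ∧ N e ≤ r}

/-- J3b. Two geodesics of length less than `1/2` with the same ends (in the universal cover) are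
equal. Proof from J0, J1, J1b, J2, J3a: shift `t` by a multiple of `ell` and `p, q` by constants;
`u = ∓ e_p` if the displacement in `p` is not `0` (`P₁`, `P₂` have its sign), `∓ e_q` if the
displacement in `q` is not `0`; otherwise `P = Q = 0` for both and `t` is affine. -/
def T_short : Prop := ∀ (W : Warp) (P₁ Q₁ P₂ Q₂ : ℝ) (t₁ x₁ p₁ q₁ t₂ x₂ p₂ q₂ : ℝ → ℝ),
  W.IsGeo P₁ Q₁ t₁ x₁ p₁ q₁ → W.IsGeo P₂ Q₂ t₂ x₂ p₂ q₂ →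
  W.nrg (t₁ 0) (x₁ 0) P₁ Q₁ < 1 / 4 → W.nrg (t₂ 0) (x₂ 0) P₂ Q₂ < 1 / 4 →
  t₁ 0 = t₂ 0 → p₁ 0 = p₂ 0 → q₁ 0 = q₂ 0 → t₁ 1 = t₂ 1 → p₁ 1 = p₂ 1 → q₁ 1 = q₂ 1 →
  x₁ 0 = x₂ 0 ∧ P₁ = P₂ ∧ Q₁ = Q₂

/-- J4a. Calibrations. -/
def T_calib : Prop := ∀ (W : Warp) (φ : ℝ → ℝ) (α β : ℝ), Continuous φ →
  (∀ t, φ t ^ 2 + α ^ 2 / W.A t ^ 2 + β ^ 2 / W.B t ^ 2 ≤ 1) →
  ∀ (P Q : ℝ) (t x p q : ℝ → ℝ), W.IsGeo P Q t x p q → W.nrg (t 0) (x 0) P Q < 1 / 4 →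
  |(∫ u in (t 0)..(t 1), φ u) + α * (p 1 - p 0) + β * (q 1 - q 0)| < 1 / 2

/-- J4b. The map `(cos ψ e^{iπp}, sin ψ e^{iπq})` to the unit sphere of `ℂ²` moves points by less
than `π/2` along a geodesic of length less than `1/2`. -/
def T_sphere : Prop := ∀ (ψ : ℝ → ℝ), Differentiable ℝ ψ → (∀ t, |deriv ψ t| ≤ π) →
  ∀ (t p q : ℝ → ℝ) (t' p' q' : ℝ → ℝ) (ρ : ℝ), 0 ≤ ρ → ρ < 1 / 2 → (∀ s, HasDerivAt t (t' s) s) →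
  (∀ s, HasDerivAt p (p' s) s) → (∀ s, HasDerivAt q (q' s) s) →
  (∀ s, t' s ^ 2 + cos (ψ (t s)) ^ 2 * p' s ^ 2 + sin (ψ (t s)) ^ 2 * q' s ^ 2 ≤ ρ ^ 2) →
  0 < cos (ψ (t 0)) * cos (ψ (t 1)) * cos (π * (p 1 - p 0))
    + sin (ψ (t 0)) * sin (ψ (t 1)) * cos (π * (q 1 - q 0))

/-- J4c. No short geodesic changes the class. `W` is a warp with `A = cos ψ`, `B = sin ψ`. -/
def T_classes : Prop := ∀ (F : Profile) (W : Warp), W.ell = F.ell →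
  (∀ t, W.A t = cos (F.psi t)) → (∀ t, W.B t = sin (F.psi t)) →
  ∀ (P₁ Q₁ P₂ Q₂ : ℝ) (t₁ x₁ p₁ q₁ t₂ x₂ p₂ q₂ : ℝ → ℝ),
  W.IsGeo P₁ Q₁ t₁ x₁ p₁ q₁ → W.IsGeo P₂ Q₂ t₂ x₂ p₂ q₂ →
  W.nrg (t₁ 0) (x₁ 0) P₁ Q₁ < 1 / 4 → W.nrg (t₂ 0) (x₂ 0) P₂ Q₂ < 1 / 4 →
  t₁ 0 = t₂ 0 → p₁ 0 = p₂ 0 → q₁ 0 = q₂ 0 → ∀ m a b : ℤ, Even (m + a + b) →
  t₂ 1 = t₁ 1 + m * W.ell → p₂ 1 = p₁ 1 + a → q₂ 1 = q₁ 1 + b → m = 0 ∧ a = 0 ∧ b = 0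

/-- The ramp: `6π t²`, then slope `π`, then `π/6 - 6π (1/4 - t)²`, then `π/6`. -/
noncomputable def ramp (t : ℝ) : ℝ :=
  6 * π * (max t 0 ^ 2 - max (t - 1 / 12) 0 ^ 2 - max (t - 1 / 6) 0 ^ 2 + max (t - 1 / 4) 0 ^ 2)

/-- The piecewise smooth profile, on the period `[0, 7/9]`. -/
noncomputable def psi0 (t : ℝ) : ℝ := π / 6 + ramp t - ramp (t - 7 / 18)

/-- J5a. The smooth ramp. With `H t = Real.smoothTransition ((t + δ) / (2 δ))` (a smooth step from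
`0` to `1` on `[-δ, δ]`), `R₁ t = ∫_{-1}^t H`, `R₂ t = ∫_{-1}^t R₁`, take
`u t = 12π (R₂ t - R₂ (t - 1/12) - R₂ (t - 1/6) + R₂ (t - 1/4))`. The constants in the last line are
generous (`|R₂ t - 1/2 max t 0 ^ 2| ≤ 4 δ` on `[-1, 1]`). -/
def T_ramp : Prop := ∀ δ : ℝ, 0 < δ → δ < 1 / 1000 → ∃ u : ℝ → ℝ, ContDiff ℝ ∞ u ∧
  (∀ t ≤ -δ, u t = 0) ∧ (∀ t ≥ 1 / 4 + δ, u t = π / 6) ∧ (∀ t, 0 ≤ deriv u t) ∧
  (∀ t, deriv u t ≤ π) ∧ (∀ t, |deriv (deriv u) t| ≤ 12 * π) ∧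
  (∀ t ≤ 1 / 6 - δ, 0 ≤ deriv (deriv u) t) ∧ (∀ t ≥ 1 / 12 + δ, deriv (deriv u) t ≤ 0) ∧
  ∀ t, |u t - ramp t| ≤ 1000 * δ

/-- J5b. Smooth approximation of the profile: `ψ = π/6 + u t - u (t - 7/18)` on one period
(the interval `[-1/20, 7/9 - 1/20]`), extended periodically. For the curvature: where the second
derivative of the ramp is positive, `ψ ≤ 5π/24 + small` and `4 sin ψ ≤ π cos ψ`
(`tan (5π/24) = .7673 < .7853`). -/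
def T_smooth : Prop := ∀ ε : ℝ, 0 < ε → ∃ ψ : ℝ → ℝ, ContDiff ℝ ∞ ψ ∧
  (∀ t, ψ (t + 7 / 9) = ψ t) ∧ (∀ t, π / 6 ≤ ψ t) ∧ (∀ t, ψ t ≤ π / 3) ∧
  (∀ t, |deriv ψ t| ≤ π) ∧
  (∀ t, deriv ψ t ^ 2 * cos (ψ t) + sin (ψ t) * deriv (deriv ψ) t ≤ 4 * π ^ 2 * cos (ψ t)) ∧
  (∀ t, deriv ψ t ^ 2 * sin (ψ t) - cos (ψ t) * deriv (deriv ψ) t ≤ 4 * π ^ 2 * sin (ψ t)) ∧
  (∃ t₀, deriv ψ t₀ = 0) ∧ ∀ t ∈ Icc (0 : ℝ) (7 / 9), |ψ t - psi0 t| ≤ ε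

/-- J6a. The volume of the piecewise smooth profile (numerically `.706508`, and `1/√2 = .707107`). -/
def T_vol0 : Prop := ∫ t in (0 : ℝ)..(7 / 9), sin (2 * psi0 t) ≤ 1 / √2 - 1 / 1950

/-- J6b. The length of the classes `(1; ±1, 0)` (numerically `1.000549` for both). -/
def T_lam0 : Prop :=
  1 + 1 / 4000 ≤ 5 / 13 + (∫ t in (0 : ℝ)..(7 / 9), √(1 - (5 / 13) ^ 2 / cos (psi0 t) ^ 2)) ∧
  1 + 1 / 4000 ≤ 5 / 13 + (∫ t in (0 : ℝ)..(7 / 9), √(1 - (5 / 13) ^ 2 / sin (psi0 t) ^ 2))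

/-- J6c. The profile exists (from J5, J6a, J6b by perturbation). -/
def T_profile : Prop := Nonempty Profile

/-- J7. Gauss: a positive definite ternary form with minimum at least `μ` over the nonzero integer
vectors has determinant at least `μ³/2`. -/
def T_gauss : Prop := ∀ (G : Matrix (Fin 3) (Fin 3) ℝ), G.PosDef → ∀ μ : ℝ, 0 ≤ μ →
  (∀ n : Fin 3 → ℤ, n ≠ 0 → μ ≤ ∑ i, ∑ j, G i j * n i * n j) → μ ^ 3 ≤ 2 * G.det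

/-- J8a. The metric of `T³` defined by a profile. -/
def T_metric : Prop := ∀ _ : Profile, ∃ m : Metric, m.inj = 1 / 2 ∧ m.vol ≤ 1 / √2 - 1 / 2000

/-- J8b. The flat bound. -/
def T_flat : Prop := ∀ m : Metric, m.IsFlat → 4 * √2 * m.inj ^ 3 ≤ m.vol

end Pool.Agent.Emb
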