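import Pool.Agent.Emb.Defs

/-!
# Doubly warped metrics `dt² + A(t)² dp² + B(t)² dq²`
-/

namespace Pool.Agent.Emb

open scoped ContDiff Real
open Set Real

/-- A doubly warped metric `dt² + A² dp² + B² dq²` with sectional curvatures at most `4π²`. -/
structure Warp where
  ell : ℝ
  A : ℝ → ℝ
  B : ℝ → ℝ
  ell_pos : 0 < ell
  A_smooth : ContDiff ℝ ∞ A
  B_smooth : ContDiff ℝ ∞ B
  A_per : ∀ t, A (t + ell) = A t
  B_per : ∀ t, B (t + ell) = B t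
  A_pos : ∀ t, 0 < A t
  B_pos : ∀ t, 0 < B t
  curvA : ∀ t, -deriv (deriv A) t ≤ 4 * π ^ 2 * A t
  curvB : ∀ t, -deriv (deriv B) t ≤ 4 * π ^ 2 * B t
  curvAB : ∀ t, -(deriv A t * deriv B t) ≤ 4 * π ^ 2 * (A t * B t)

namespace Warp

variable (W : Warp)

/-- The force in the `t`-direction on a geodesic with momenta `P, Q`. -/
noncomputable def force (P Q t : ℝ) : ℝ :=
  P ^ 2 * deriv W.A t / W.A t ^ 3 + Q ^ 2 * deriv W.B t / W.B t ^ 3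

/-- A geodesic `(t, p, q)` with `t' = x` and momenta `P = A² p'`, `Q = B² q'`. -/
structure IsGeo (P Q : ℝ) (t x p q : ℝ → ℝ) : Prop where
  ht : ∀ s, HasDerivAt t (x s) s
  hx : ∀ s, HasDerivAt x (W.force P Q (t s)) s
  hp : ∀ s, HasDerivAt p (P / W.A (t s) ^ 2) s
  hq : ∀ s, HasDerivAt q (Q / W.B (t s) ^ 2) s

/-- The square of the speed. -/
noncomputable def nrg (t x P Q : ℝ) : ℝ := x ^ 2 + P ^ 2 / W.A t ^ 2 + Q ^ 2 / W.B t ^ 2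

/-- A variation (Jacobi field `(h, k, l)`, `h' = y`, variations `dP, dQ` of the momenta) along the
geodesic `(t, x)` with momenta `P, Q`, on the time interval `[0, 1]`. -/
structure IsVar (P Q : ℝ) (t : ℝ → ℝ) (dP dQ : ℝ) (h y k l : ℝ → ℝ) : Prop where
  hh : ∀ s ∈ Icc (0 : ℝ) 1, HasDerivAt h (y s) s
  hy : ∀ s ∈ Icc (0 : ℝ) 1, HasDerivAt y (deriv (W.force P Q) (t s) * h s
    + 2 * P * dP * deriv W.A (t s) / W.A (t s) ^ 3
    + 2 * Q * dQ * deriv W.B (t s) / W.B (t s) ^ 3) s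
  hk : ∀ s ∈ Icc (0 : ℝ) 1, HasDerivAt k (dP / W.A (t s) ^ 2
    - 2 * P * deriv W.A (t s) / W.A (t s) ^ 3 * h s) s
  hl : ∀ s ∈ Icc (0 : ℝ) 1, HasDerivAt l (dQ / W.B (t s) ^ 2
    - 2 * Q * deriv W.B (t s) / W.B (t s) ^ 3 * h s) s

end Warp

/-- The profile of the metric: `A = cos ψ`, `B = sin ψ`. -/
structure Profile where
  ell : ℝ
  psi : ℝ → ℝ
  ell_gt : 1 / 2 < ell
  smooth : ContDiff ℝ ∞ psi
  per : ∀ t, psi (t + ell) = psi t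
  lo : ∀ t, π / 6 ≤ psi t
  hi : ∀ t, psi t ≤ π / 3
  slope : ∀ t, |deriv psi t| ≤ π
  curvA : ∀ t, deriv psi t ^ 2 * cos (psi t) + sin (psi t) * deriv (deriv psi) t
    ≤ 4 * π ^ 2 * cos (psi t)
  curvB : ∀ t, deriv psi t ^ 2 * sin (psi t) - cos (psi t) * deriv (deriv psi) t
    ≤ 4 * π ^ 2 * sin (psi t)
  /-- a level with vanishing slope -/
  t₀ : ℝ
  flat : deriv psi t₀ = 0
  alpha : ℝ
  alpha_pos : 0 < alpha
  alpha_lt : alpha < 1 / 2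
  lamA : 1 ≤ alpha + ∫ t in (0 : ℝ)..ell, √(1 - alpha ^ 2 / cos (psi t) ^ 2)
  lamB : 1 ≤ alpha + ∫ t in (0 : ℝ)..ell, √(1 - alpha ^ 2 / sin (psi t) ^ 2)
  vol_le : ∫ t in (0 : ℝ)..ell, sin (2 * psi t) ≤ 1 / √2 - 1 / 2000

end Pool.Agent.Emb
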